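import Mathlib
import Pool.Agent.H373R2.T7.SupE2
import Pool.Agent.H442R2.EHI.Dft

/-! The second moment of sums over the values `n² + a` with arbitrary weights: Parseval's identity and
the inequality of Cauchy and Schwarz. -/

set_option autoImplicit false

namespace Pool.Agent.U845.QR

open Finset
open Pool.Agent.H807R2.Dav (ee norm_ee ee_add ee_zero ee_int ee_add_int ee_pow ee_eq)

lemma e_ee (x : ℝ) : Pool.Agent.H469R2.NK.e x = ee x := by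
  rw [ee_eq]
  unfold Pool.Agent.H469R2.NK.e
  rfl

lemma orth (Q : ℕ) (hQ : 1 ≤ Q) (j : ℤ) :
    ∑ k ∈ range Q, ee ((j : ℝ) * k / Q) = if (Q : ℤ) ∣ j then (Q : ℂ) else 0 := by
  have h := Pool.Agent.H442R2.EHI.sum_e_range Q hQ j
  simp only [e_ee] at h
  exact h

lemma conj_ee (x : ℝ) : (starRingEnd ℂ) (ee x) = ee (-x) := by
  rw [ee_eq, ee_eq, ← Complex.exp_conj]
  congr 1
  rw [map_mul, Complex.conj_I, Complex.conj_ofReal]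
  push_cast
  ring

/-- Parseval's identity modulo `Q` -/
lemma parseval (Q : ℕ) (hQ : 1 ≤ Q) (S : Finset ℤ) (hS : ∀ s ∈ S, ∀ t ∈ S, (Q : ℤ) ∣ s - t → s = t) (c : ℤ → ℂ) :
    ∑ k ∈ range Q, ‖∑ s ∈ S, c s * ee ((s : ℝ) * k / Q)‖ ^ 2 = Q * ∑ s ∈ S, ‖c s‖ ^ 2 := by
  have h : ((∑ k ∈ range Q, ‖∑ s ∈ S, c s * ee ((s : ℝ) * k / Q)‖ ^ 2 : ℝ) : ℂ) =
      ((Q * ∑ s ∈ S, ‖c s‖ ^ 2 : ℝ) : ℂ) := by
    push_cast
    calc ∑ k ∈ range Q, (‖∑ s ∈ S, c s * ee ((s : ℝ) * k / Q)‖ : ℂ) ^ 2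
        = ∑ k ∈ range Q, ∑ s ∈ S, ∑ t ∈ S, (c s * (starRingEnd ℂ) (c t)) * ee (((s - t : ℤ) : ℝ) * k / Q) := by
          refine sum_congr rfl fun k _ => ?_
          rw [← Complex.mul_conj', map_sum, sum_mul_sum]
          refine sum_congr rfl fun s _ => sum_congr rfl fun t _ => ?_
          rw [map_mul, conj_ee]
          have h1 : ee (((s - t : ℤ) : ℝ) * k / Q) = ee ((s : ℝ) * k / Q) * ee (-((t : ℝ) * k / Q)) := by
            rw [← ee_add]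
            congr 1
            push_cast
            ring
          rw [h1]
          ring
      _ = ∑ s ∈ S, ∑ t ∈ S, (c s * (starRingEnd ℂ) (c t)) * ∑ k ∈ range Q, ee (((s - t : ℤ) : ℝ) * k / Q) := by
          rw [sum_comm]
          refine sum_congr rfl fun s _ => ?_
          rw [sum_comm]
          refine sum_congr rfl fun t _ => ?_
          rw [mul_sum]
      _ = ∑ s ∈ S, ∑ t ∈ S, if s = t then (Q : ℂ) * (c s * (starRingEnd ℂ) (c t)) else 0 := by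
          refine sum_congr rfl fun s hs => sum_congr rfl fun t ht => ?_
          rw [orth Q hQ]
          by_cases hst : s = t
          · subst hst
            simp
            ring
          · rw [if_neg hst, if_neg (fun h => hst (hS s hs t ht h)), mul_zero]
      _ = ∑ s ∈ S, (Q : ℂ) * (‖c s‖ : ℂ) ^ 2 := by
          refine sum_congr rfl fun s hs => ?_
          rw [sum_ite_eq, if_pos hs, Complex.mul_conj']
      _ = _ := by rw [mul_sum]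
  exact_mod_cast h

/-- the number of the representations of `h` as a difference of two squares, with weights -/
noncomputable def rw (N : ℕ) (w : ℕ → ℝ) (h : ℤ) : ℝ :=
  ∑ p ∈ (Icc 1 N ×ˢ Icc 1 N).filter (fun p : ℕ × ℕ => (p.1 : ℤ) ^ 2 - (p.2 : ℤ) ^ 2 = h), w p.1 * w p.2

/-- the differences of squares -/
def HH (N : ℕ) : Finset ℤ := (Icc 1 N ×ˢ Icc 1 N).image (fun p : ℕ × ℕ => (p.1 : ℤ) ^ 2 - (p.2 : ℤ) ^ 2)

lemma HH_bd {N : ℕ} {h : ℤ} (hh : h ∈ HH N) : |h| ≤ (N : ℤ) ^ 2 := by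
  unfold HH at hh
  rw [mem_image] at hh
  obtain ⟨p, hp, rfl⟩ := hh
  rw [mem_product, mem_Icc, mem_Icc] at hp
  have h1 : (p.1 : ℤ) ^ 2 ≤ (N : ℤ) ^ 2 := by
    have : (p.1 : ℤ) ≤ N := by exact_mod_cast hp.1.2
    exact pow_le_pow_left₀ (by positivity) this 2
  have h2 : (p.2 : ℤ) ^ 2 ≤ (N : ℤ) ^ 2 := by
    have : (p.2 : ℤ) ≤ N := by exact_mod_cast hp.2.2
    exact pow_le_pow_left₀ (by positivity) this 2
  have h3 : (0 : ℤ) ≤ (p.1 : ℤ) ^ 2 := by positivity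
  have h4 : (0 : ℤ) ≤ (p.2 : ℤ) ^ 2 := by positivity
  rw [abs_le]
  constructor <;> linarith

/-- the exponential sum over squares -/
noncomputable def WW (N : ℕ) (w : ℕ → ℝ) (α : ℝ) : ℂ := ∑ n ∈ Icc 1 N, ((w n : ℝ) : ℂ) * ee ((n : ℝ) ^ 2 * α)

lemma WW_sq (N : ℕ) (w : ℕ → ℝ) (α : ℝ) : WW N w α * (starRingEnd ℂ) (WW N w α) =
    ∑ h ∈ HH N, ((rw N w h : ℝ) : ℂ) * ee ((h : ℝ) * α) := by
  unfold WW
  rw [map_sum, sum_mul_sum, ← sum_product']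
  rw [← sum_fiberwise_of_maps_to (s := Icc 1 N ×ˢ Icc 1 N) (t := HH N)
    (g := fun p : ℕ × ℕ => (p.1 : ℤ) ^ 2 - (p.2 : ℤ) ^ 2)
    (fun p hp => mem_image_of_mem _ hp)]
  refine sum_congr rfl fun h _ => ?_
  unfold rw
  push_cast
  rw [sum_mul]
  refine sum_congr rfl fun p hp => ?_
  rw [mem_filter] at hp
  rw [map_mul, conj_ee, Complex.conj_ofReal]
  have h1 : ee ((h : ℝ) * α) = ee ((p.1 : ℝ) ^ 2 * α) * ee (-((p.2 : ℝ) ^ 2 * α)) := by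
    rw [← ee_add]
    congr 1
    have h2 : ((h : ℤ) : ℝ) = (p.1 : ℝ) ^ 2 - (p.2 : ℝ) ^ 2 := by
      rw [← hp.2]
      push_cast
      ring
    rw [h2]
    ring
  rw [h1]
  ring

lemma WW_four (N Q : ℕ) (w : ℕ → ℝ) (hQ : 2 * N ^ 2 < Q) :
    ∑ k ∈ range Q, ‖WW N w ((k : ℝ) / Q)‖ ^ 4 = Q * ∑ h ∈ HH N, (rw N w h) ^ 2 := by
  have h1 := parseval Q (by omega) (HH N) (fun s hs t ht hd => by
    have h2 := HH_bd hs
    have h3 := HH_bd ht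
    have hQ' : (2 : ℤ) * N ^ 2 < Q := by exact_mod_cast hQ
    by_contra hne
    have h4 : s - t ≠ 0 := sub_ne_zero.2 hne
    have h5 := Int.le_of_dvd (abs_pos.2 h4) ((dvd_abs _ _).2 hd)
    have h6 := abs_sub s t
    linarith) (fun h => ((rw N w h : ℝ) : ℂ))
  have h2 : ∀ k ∈ range Q, ‖WW N w ((k : ℝ) / Q)‖ ^ 4 =
      ‖∑ s ∈ HH N, ((rw N w s : ℝ) : ℂ) * ee ((s : ℝ) * k / Q)‖ ^ 2 := by
    intro k _
    have h3 : ∑ s ∈ HH N, ((rw N w s : ℝ) : ℂ) * ee ((s : ℝ) * k / Q) =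
        WW N w ((k : ℝ) / Q) * (starRingEnd ℂ) (WW N w ((k : ℝ) / Q)) := by
      rw [WW_sq]
      refine sum_congr rfl fun s _ => ?_
      rw [mul_div_assoc]
    rw [h3, norm_mul, RCLike.norm_conj]
    ring
  rw [sum_congr rfl h2, h1]
  congr 1
  refine sum_congr rfl fun h _ => ?_
  rw [Complex.norm_real, Real.norm_eq_abs, sq_abs]

/-- the second moment over all `a` -/
theorem second_moment (M N : ℕ) (F : ℤ → ℝ) (hF : ∀ m, m ∉ Icc (-(M : ℤ)) M → F m = 0) (w : ℕ → ℝ) (S0 : ℝ)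
    (hS : ∀ α : ℝ, ‖∑ m ∈ Icc (-(M : ℤ)) M, ((F m : ℝ) : ℂ) * ee ((m : ℝ) * α)‖ ≤ S0) :
    ∑ a ∈ Icc (-((M : ℤ) + N ^ 2)) M, (∑ n ∈ Icc 1 N, w n * F ((n : ℤ) ^ 2 + a)) ^ 2 ≤
      S0 * (√(∑ m ∈ Icc (-(M : ℤ)) M, F m ^ 2) * √(∑ h ∈ HH N, (rw N w h) ^ 2)) := by
  obtain ⟨Q, hQ⟩ : ∃ Q : ℕ, Q = 4 * M + 4 * N ^ 2 + 4 := ⟨_, rfl⟩
  have hQ1 : 1 ≤ Q := by omega
  have hQr : (0 : ℝ) < Q := by exact_mod_cast hQ1
  obtain ⟨A, hA⟩ : ∃ A : ℤ → ℝ, A = fun a => ∑ n ∈ Icc 1 N, w n * F ((n : ℤ) ^ 2 + a) := ⟨_, rfl⟩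
  have hS0 : 0 ≤ S0 := (norm_nonneg _).trans (hS 0)
  -- Parseval for the sums
  have hP : ∑ k ∈ range Q, ‖∑ a ∈ Icc (-((M : ℤ) + N ^ 2)) M, ((A a : ℝ) : ℂ) * ee ((a : ℝ) * k / Q)‖ ^ 2 =
      Q * ∑ a ∈ Icc (-((M : ℤ) + N ^ 2)) M, A a ^ 2 := by
    rw [parseval Q hQ1 (Icc (-((M : ℤ) + N ^ 2)) M) (fun s hs t ht hd => by
      rw [mem_Icc] at hs ht
      by_contra hne
      have h4 : s - t ≠ 0 := sub_ne_zero.2 hne
      have h5 := Int.le_of_dvd (abs_pos.2 h4) ((dvd_abs _ _).2 hd)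
      have hQ' : (Q : ℤ) = 4 * M + 4 * N ^ 2 + 4 := by rw [hQ]; push_cast; ring
      have h6 : (0 : ℤ) ≤ M := by positivity
      have h7 : (0 : ℤ) ≤ (N : ℤ) ^ 2 := by positivity
      have h8 : |s - t| ≤ 2 * M + N ^ 2 := by
        rw [abs_le]
        constructor <;> linarith [hs.1, hs.2, ht.1, ht.2]
      linarith) (fun a => ((A a : ℝ) : ℂ))]
    congr 1
    refine sum_congr rfl fun a _ => ?_
    rw [Complex.norm_real, Real.norm_eq_abs, sq_abs]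
  have hPF : ∑ k ∈ range Q, ‖∑ m ∈ Icc (-(M : ℤ)) M, ((F m : ℝ) : ℂ) * ee ((m : ℝ) * k / Q)‖ ^ 2 =
      Q * ∑ m ∈ Icc (-(M : ℤ)) M, F m ^ 2 := by
    rw [parseval Q hQ1 (Icc (-(M : ℤ)) M) (fun s hs t ht hd => by
      rw [mem_Icc] at hs ht
      by_contra hne
      have h4 : s - t ≠ 0 := sub_ne_zero.2 hne
      have h5 := Int.le_of_dvd (abs_pos.2 h4) ((dvd_abs _ _).2 hd)
      have hQ' : (Q : ℤ) = 4 * M + 4 * N ^ 2 + 4 := by rw [hQ]; push_cast; ring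
      have h6 : (0 : ℤ) ≤ M := by positivity
      have h7 : (0 : ℤ) ≤ (N : ℤ) ^ 2 := by positivity
      have h8 : |s - t| ≤ 2 * M := by
        rw [abs_le]
        constructor <;> linarith [hs.1, hs.2, ht.1, ht.2]
      linarith) (fun a => ((F a : ℝ) : ℂ))]
    congr 1
    refine sum_congr rfl fun a _ => ?_
    rw [Complex.norm_real, Real.norm_eq_abs, sq_abs]
  -- factorization
  have hfac : ∀ k ∈ range Q, ‖∑ a ∈ Icc (-((M : ℤ) + N ^ 2)) M, ((A a : ℝ) : ℂ) * ee ((a : ℝ) * k / Q)‖ =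
      ‖∑ m ∈ Icc (-(M : ℤ)) M, ((F m : ℝ) : ℂ) * ee ((m : ℝ) * k / Q)‖ * ‖WW N w ((k : ℝ) / Q)‖ := by
    intro k _
    rw [← RCLike.norm_conj (WW N w ((k : ℝ) / Q)), ← norm_mul]
    congr 1
    unfold WW
    rw [map_sum, sum_mul_sum, sum_comm, hA]
    have h1 : ∀ a ∈ Icc (-((M : ℤ) + N ^ 2)) (M : ℤ), ((((fun a : ℤ => ∑ n ∈ Icc 1 N, w n * F ((n : ℤ) ^ 2 + a)) a : ℝ)) : ℂ) *
        ee ((a : ℝ) * k / Q) = ∑ n ∈ Icc 1 N, ((w n : ℝ) : ℂ) * (((F ((n : ℤ) ^ 2 + a) : ℝ)) : ℂ) * ee ((a : ℝ) * k / Q) := by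
      intro a _
      push_cast
      rw [sum_mul]
    rw [sum_congr rfl h1, sum_comm]
    refine sum_congr rfl fun n hn => ?_
    rw [mem_Icc] at hn
    have hnN : (n : ℤ) ^ 2 ≤ (N : ℤ) ^ 2 := by
      have : (n : ℤ) ≤ N := by exact_mod_cast hn.2
      exact pow_le_pow_left₀ (by positivity) this 2
    have hn0 : (0 : ℤ) ≤ (n : ℤ) ^ 2 := by positivity
    -- shift
    have h2 : ∑ a ∈ Icc (-((M : ℤ) + N ^ 2)) (M : ℤ), ((w n : ℝ) : ℂ) * (((F ((n : ℤ) ^ 2 + a) : ℝ)) : ℂ) * ee ((a : ℝ) * k / Q) =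
        ∑ a ∈ (Icc (-(M : ℤ)) (M : ℤ)).image (fun m => m - (n : ℤ) ^ 2),
          ((w n : ℝ) : ℂ) * (((F ((n : ℤ) ^ 2 + a) : ℝ)) : ℂ) * ee ((a : ℝ) * k / Q) := by
      symm
      apply sum_subset
      · intro a ha
        rw [mem_image] at ha
        obtain ⟨m, hm, rfl⟩ := ha
        rw [mem_Icc] at hm ⊢
        constructor <;> linarith [hm.1, hm.2]
      · intro a _ ha
        have h3 : F ((n : ℤ) ^ 2 + a) = 0 := by
          apply hF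
          intro hm
          exact ha (mem_image.2 ⟨(n : ℤ) ^ 2 + a, hm, by ring⟩)
        rw [h3]
        simp
    rw [h2, sum_image (fun x _ y _ h => by simpa using h)]
    refine sum_congr rfl fun m _ => ?_
    have h3 : (n : ℤ) ^ 2 + (m - (n : ℤ) ^ 2) = m := by ring
    rw [h3, map_mul, conj_ee, Complex.conj_ofReal]
    have h4 : ee (((m - (n : ℤ) ^ 2 : ℤ) : ℝ) * k / Q) = ee ((m : ℝ) * k / Q) * ee (-((n : ℝ) ^ 2 * ((k : ℝ) / Q))) := by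
      rw [← ee_add]
      congr 1
      push_cast
      ring
    rw [h4]
    ring
  -- Cauchy-Schwarz
  have hmain : Q * ∑ a ∈ Icc (-((M : ℤ) + N ^ 2)) M, A a ^ 2 ≤
      S0 * ∑ k ∈ range Q, ‖∑ m ∈ Icc (-(M : ℤ)) M, ((F m : ℝ) : ℂ) * ee ((m : ℝ) * k / Q)‖ * ‖WW N w ((k : ℝ) / Q)‖ ^ 2 := by
    rw [← hP, mul_sum]
    refine sum_le_sum fun k hk => ?_
    rw [hfac k hk]
    have h1 := hS ((k : ℝ) / Q)
    have h2 : ∑ m ∈ Icc (-(M : ℤ)) M, ((F m : ℝ) : ℂ) * ee ((m : ℝ) * ((k : ℝ) / Q)) =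
        ∑ m ∈ Icc (-(M : ℤ)) M, ((F m : ℝ) : ℂ) * ee ((m : ℝ) * k / Q) :=
      sum_congr rfl fun m _ => by rw [mul_div_assoc]
    rw [h2] at h1
    obtain ⟨u, hu⟩ : ∃ u : ℝ, u = ‖∑ m ∈ Icc (-(M : ℤ)) M, ((F m : ℝ) : ℂ) * ee ((m : ℝ) * k / Q)‖ := ⟨_, rfl⟩
    obtain ⟨v, hv⟩ : ∃ v : ℝ, v = ‖WW N w ((k : ℝ) / Q)‖ := ⟨_, rfl⟩
    have hu0 : 0 ≤ u := by rw [hu]; exact norm_nonneg _
    have hv0 : 0 ≤ v := by rw [hv]; exact norm_nonneg _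
    rw [← hu] at h1 ⊢
    rw [← hv]
    calc (u * v) ^ 2 = u * (u * v ^ 2) := by ring
      _ ≤ S0 * (u * v ^ 2) := mul_le_mul_of_nonneg_right h1 (by positivity)
  have hCS : (∑ k ∈ range Q, ‖∑ m ∈ Icc (-(M : ℤ)) M, ((F m : ℝ) : ℂ) * ee ((m : ℝ) * k / Q)‖ * ‖WW N w ((k : ℝ) / Q)‖ ^ 2) ≤
      √(Q * ∑ m ∈ Icc (-(M : ℤ)) M, F m ^ 2) * √(Q * ∑ h ∈ HH N, (rw N w h) ^ 2) := by
    have h1 := Real.sum_mul_le_sqrt_mul_sqrt (range Q)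
      (fun k => ‖∑ m ∈ Icc (-(M : ℤ)) M, ((F m : ℝ) : ℂ) * ee ((m : ℝ) * k / Q)‖) (fun k => ‖WW N w ((k : ℝ) / Q)‖ ^ 2)
    rw [hPF] at h1
    have h2 : ∑ k ∈ range Q, (‖WW N w ((k : ℝ) / Q)‖ ^ 2) ^ 2 = Q * ∑ h ∈ HH N, (rw N w h) ^ 2 := by
      rw [← WW_four N Q w (by rw [hQ]; nlinarith)]
      exact sum_congr rfl fun k _ => by ring
    rw [h2] at h1
    exact h1
  have hfin : Q * ∑ a ∈ Icc (-((M : ℤ) + N ^ 2)) M, A a ^ 2 ≤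
      Q * (S0 * (√(∑ m ∈ Icc (-(M : ℤ)) M, F m ^ 2) * √(∑ h ∈ HH N, (rw N w h) ^ 2))) := by
    refine hmain.trans ((mul_le_mul_of_nonneg_left hCS hS0).trans (le_of_eq ?_))
    rw [Real.sqrt_mul hQr.le, Real.sqrt_mul hQr.le]
    have h1 : √(Q : ℝ) * √(Q : ℝ) = Q := Real.mul_self_sqrt hQr.le
    calc S0 * (√(Q : ℝ) * √(∑ m ∈ Icc (-(M : ℤ)) M, F m ^ 2) * (√(Q : ℝ) * √(∑ h ∈ HH N, (rw N w h) ^ 2))) =
          (√(Q : ℝ) * √(Q : ℝ)) * (S0 * (√(∑ m ∈ Icc (-(M : ℤ)) M, F m ^ 2) * √(∑ h ∈ HH N, (rw N w h) ^ 2))) := by ring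
      _ = _ := by rw [h1]
  have h9 := le_of_mul_le_mul_left hfin hQr
  rw [hA] at h9
  exact h9

end Pool.Agent.U845.QR
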