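import Mathlib
import Pool.Agent.U845.QR1

/-! The additive energy of the squares. -/

set_option autoImplicit false

namespace Pool.Agent.U845.QR

open Finset

/-- the pairs with a given difference of squares -/
def RR (N : ℕ) (h : ℤ) : Finset (ℕ × ℕ) :=
  (Icc 1 N ×ˢ Icc 1 N).filter (fun p : ℕ × ℕ => (p.1 : ℤ) ^ 2 - (p.2 : ℤ) ^ 2 = h)

lemma rw_abs (N : ℕ) (w : ℕ → ℝ) (hw : ∀ n, |w n| ≤ 1) (h : ℤ) : |rw N w h| ≤ #(RR N h) := by
  unfold rw RR
  refine (abs_sum_le_sum_abs _ _).trans ?_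
  rw [card_eq_sum_ones]
  push_cast
  refine sum_le_sum fun p _ => ?_
  rw [abs_mul]
  exact mul_le_one₀ (hw _) (abs_nonneg _) (hw _)

lemma RR_zero (N : ℕ) : #(RR N 0) ≤ N := by
  have h1 : #(RR N 0) ≤ #(Icc 1 N) := by
    apply card_le_card_of_injOn (fun p => p.1)
    · intro p hp
      unfold RR at hp
      rw [mem_coe, mem_filter, mem_product] at hp
      exact mem_coe.2 hp.1.1
    · intro p hp q hq hpq
      unfold RR at hp hq
      rw [mem_coe, mem_filter, mem_product, mem_Icc, mem_Icc] at hp hq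
      have hpq' : p.1 = q.1 := hpq
      have e1 : (p.2 : ℤ) ^ 2 = (p.1 : ℤ) ^ 2 := by linarith [hp.2]
      have e2 : (q.2 : ℤ) ^ 2 = (q.1 : ℤ) ^ 2 := by linarith [hq.2]
      have e3 : p.2 = p.1 := by
        have : p.2 ^ 2 = p.1 ^ 2 := by exact_mod_cast e1
        exact Nat.pow_left_injective (two_ne_zero) this
      have e4 : q.2 = q.1 := by
        have : q.2 ^ 2 = q.1 ^ 2 := by exact_mod_cast e2
        exact Nat.pow_left_injective (two_ne_zero) this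
      ext
      · exact hpq'
      · rw [e3, e4, hpq']
  rwa [Nat.card_Icc, Nat.add_sub_cancel] at h1

lemma RR_le (N : ℕ) (h : ℤ) (hh : h ≠ 0) : #(RR N h) ≤ #h.natAbs.divisors := by
  apply card_le_card_of_injOn (fun p => p.1 + p.2)
  · intro p hp
    unfold RR at hp
    rw [mem_coe, mem_filter, mem_product] at hp
    rw [mem_coe, Nat.mem_divisors]
    refine ⟨?_, by simpa using hh⟩
    have h1 : ((p.1 + p.2 : ℕ) : ℤ) ∣ h := by
      rw [← hp.2]
      refine ⟨(p.1 : ℤ) - p.2, ?_⟩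
      push_cast
      ring
    have h2 := Int.natAbs_dvd_natAbs.2 h1
    rwa [Int.natAbs_natCast] at h2
  · intro p hp q hq hpq
    unfold RR at hp hq
    rw [mem_coe, mem_filter, mem_product, mem_Icc, mem_Icc] at hp hq
    have hpq' : p.1 + p.2 = q.1 + q.2 := hpq
    have h0 : (0 : ℤ) < (p.1 : ℤ) + p.2 := by
      have := hp.1.1.1
      positivity
    have h1 : ((p.1 : ℤ) + p.2) * ((p.1 : ℤ) - p.2) = ((p.1 : ℤ) + p.2) * ((q.1 : ℤ) - q.2) := by
      have e : (p.1 : ℤ) + p.2 = q.1 + q.2 := by exact_mod_cast hpq'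
      calc ((p.1 : ℤ) + p.2) * ((p.1 : ℤ) - p.2) = (p.1 : ℤ) ^ 2 - (p.2 : ℤ) ^ 2 := by ring
        _ = (q.1 : ℤ) ^ 2 - (q.2 : ℤ) ^ 2 := by rw [hp.2, hq.2]
        _ = ((q.1 : ℤ) + q.2) * ((q.1 : ℤ) - q.2) := by ring
        _ = _ := by rw [e]
    have h2 := mul_left_cancel₀ h0.ne' h1
    ext <;> omega

lemma sum_div_le (M : ℕ) (_hM : 1 ≤ M) : ∑ n ∈ Icc 1 M, (#n.divisors : ℝ) ≤ M * (1 + Real.log M) := by
  have h1 : ∑ n ∈ Icc 1 M, #n.divisors = ∑ d ∈ Icc 1 M, M / d := by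
    have h2 : ∀ n ∈ Icc 1 M, #n.divisors = ∑ d ∈ Icc 1 M, if d ∣ n then 1 else 0 := by
      intro n hn
      rw [mem_Icc] at hn
      rw [← sum_filter, ← card_eq_sum_ones]
      congr 1
      ext d
      rw [Nat.mem_divisors, mem_filter, mem_Icc]
      constructor
      · rintro ⟨h3, h4⟩
        exact ⟨⟨Nat.pos_of_dvd_of_pos h3 hn.1, (Nat.le_of_dvd hn.1 h3).trans hn.2⟩, h3⟩
      · rintro ⟨h3, h4⟩
        exact ⟨h4, by omega⟩
    rw [sum_congr rfl h2, sum_comm]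
    refine sum_congr rfl fun d _ => ?_
    rw [← sum_filter, ← card_eq_sum_ones]
    have := Nat.Ioc_filter_dvd_card_eq_div M d
    rw [← this]
    rfl
  have h3 : ((∑ n ∈ Icc 1 M, #n.divisors : ℕ) : ℝ) = ∑ n ∈ Icc 1 M, (#n.divisors : ℝ) := by push_cast; rfl
  rw [← h3, h1]
  push_cast
  calc ∑ d ∈ Icc 1 M, ((M / d : ℕ) : ℝ) ≤ ∑ d ∈ Icc 1 M, (M : ℝ) * (1 / (d : ℝ)) := by
        refine sum_le_sum fun d _ => ?_
        rw [mul_one_div]
        exact Nat.cast_div_le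
    _ = M * ∑ d ∈ Icc 1 M, 1 / (d : ℝ) := by rw [mul_sum]
    _ ≤ _ := by
        apply mul_le_mul_of_nonneg_left _ (Nat.cast_nonneg _)
        have h2 : ∑ n ∈ Icc 1 M, 1 / (n : ℝ) = ((harmonic M : ℚ) : ℝ) := by
          rw [harmonic_eq_sum_Icc]
          push_cast
          simp
        rw [h2]
        exact harmonic_le_one_add_log M

/-- sums over an injective image -/
lemma sum_inj_le {α β : Type*} [DecidableEq β] (S : Finset α) (T : Finset β) (g : α → β) (f : β → ℝ) (hf : ∀ t ∈ T, 0 ≤ f t)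
    (hg : ∀ p ∈ S, g p ∈ T) (hi : ∀ p ∈ S, ∀ q ∈ S, g p = g q → p = q) : ∑ p ∈ S, f (g p) ≤ ∑ t ∈ T, f t := by
  rw [← sum_image (f := f) hi]
  apply sum_le_sum_of_subset_of_nonneg
  · intro t ht
    rw [mem_image] at ht
    obtain ⟨p, hp, rfl⟩ := ht
    exact hg p hp
  · intro t ht _
    exact hf t ht

lemma div_mul_le (u v : ℕ) : (#(u * v).divisors : ℝ) ≤ (#u.divisors : ℝ) * #v.divisors := by
  have h : #(u * v).divisors ≤ #u.divisors * #v.divisors := by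
    rw [Nat.divisors_mul]
    exact card_mul_le
  exact_mod_cast h

/-- the additive energy -/
theorem energy (N : ℕ) (hN : 1 ≤ N) (w : ℕ → ℝ) (hw : ∀ n, |w n| ≤ 1) :
    ∑ h ∈ HH N, (rw N w h) ^ 2 ≤ 9 * ((N : ℝ) * (1 + Real.log (2 * N))) ^ 2 := by
  have h1 : ∑ h ∈ HH N, (rw N w h) ^ 2 ≤ ∑ h ∈ HH N, (#(RR N h) : ℝ) ^ 2 := by
    refine sum_le_sum fun h _ => ?_
    exact sq_le_sq' (by linarith [(abs_le.1 (rw_abs N w hw h)).1]) (abs_le.1 (rw_abs N w hw h)).2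
  refine h1.trans ?_
  have h2 : ∑ h ∈ HH N, (#(RR N h) : ℝ) ^ 2 =
      ∑ p ∈ Icc 1 N ×ˢ Icc 1 N, (#(RR N ((p.1 : ℤ) ^ 2 - (p.2 : ℤ) ^ 2)) : ℝ) := by
    rw [← sum_fiberwise_of_maps_to (s := Icc 1 N ×ˢ Icc 1 N) (t := HH N)
      (g := fun p : ℕ × ℕ => (p.1 : ℤ) ^ 2 - (p.2 : ℤ) ^ 2)
      (fun p hp => mem_image_of_mem _ hp)]
    refine sum_congr rfl fun h _ => ?_
    have h3 : ∀ p ∈ (Icc 1 N ×ˢ Icc 1 N).filter (fun p : ℕ × ℕ => (p.1 : ℤ) ^ 2 - (p.2 : ℤ) ^ 2 = h),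
        (#(RR N ((p.1 : ℤ) ^ 2 - (p.2 : ℤ) ^ 2)) : ℝ) = #(RR N h) := by
      intro p hp
      rw [(mem_filter.1 hp).2]
    rw [sum_congr rfl h3, sum_const, nsmul_eq_mul, pow_two]
    rfl
  rw [h2]
  -- the diagonal and the rest
  rw [← sum_filter_add_sum_filter_not (Icc 1 N ×ˢ Icc 1 N) (fun p : ℕ × ℕ => p.1 = p.2)]
  have hNr : (1 : ℝ) ≤ N := by exact_mod_cast hN
  obtain ⟨L, hL⟩ : ∃ L : ℝ, L = 1 + Real.log (2 * N) := ⟨_, rfl⟩
  have hL1 : 1 ≤ L := by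
    rw [hL]
    have := Real.log_nonneg (by linarith : (1 : ℝ) ≤ 2 * N)
    linarith
  have hdiag : ∑ p ∈ (Icc 1 N ×ˢ Icc 1 N).filter (fun p : ℕ × ℕ => p.1 = p.2),
      (#(RR N ((p.1 : ℤ) ^ 2 - (p.2 : ℤ) ^ 2)) : ℝ) ≤ (N : ℝ) ^ 2 := by
    have h3 : ∀ p ∈ (Icc 1 N ×ˢ Icc 1 N).filter (fun p : ℕ × ℕ => p.1 = p.2),
        (#(RR N ((p.1 : ℤ) ^ 2 - (p.2 : ℤ) ^ 2)) : ℝ) ≤ N := by
      intro p hp
      rw [(mem_filter.1 hp).2, sub_self]
      exact_mod_cast RR_zero N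
    refine (sum_le_sum h3).trans ?_
    rw [sum_const, nsmul_eq_mul]
    have h4 : #((Icc 1 N ×ˢ Icc 1 N).filter (fun p : ℕ × ℕ => p.1 = p.2)) ≤ N := by
      have h5 : #((Icc 1 N ×ˢ Icc 1 N).filter (fun p : ℕ × ℕ => p.1 = p.2)) ≤ #(Icc 1 N) := by
        apply card_le_card_of_injOn (fun p => p.1)
        · intro p hp
          rw [mem_coe, mem_filter, mem_product] at hp
          exact mem_coe.2 hp.1.1
        · intro p hp q hq hpq
          rw [mem_coe, mem_filter] at hp hq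
          have hpq' : p.1 = q.1 := hpq
          ext
          · exact hpq'
          · rw [← hp.2, ← hq.2, hpq']
      rwa [Nat.card_Icc, Nat.add_sub_cancel] at h5
    have h6 : (#((Icc 1 N ×ˢ Icc 1 N).filter (fun p : ℕ × ℕ => p.1 = p.2)) : ℝ) ≤ N := by exact_mod_cast h4
    calc (#((Icc 1 N ×ˢ Icc 1 N).filter (fun p : ℕ × ℕ => p.1 = p.2)) : ℝ) * N ≤ N * N :=
          mul_le_mul_of_nonneg_right h6 (Nat.cast_nonneg _)
      _ = _ := by ring
  obtain ⟨D, hD⟩ : ∃ D : ℝ, D = ∑ t ∈ Icc 1 (2 * N) ×ˢ Icc 1 (2 * N), (#t.1.divisors : ℝ) * #t.2.divisors := ⟨_, rfl⟩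
  have hD1 : D ≤ (2 * N * L) ^ 2 := by
    have hD2 : D = (∑ n ∈ Icc 1 (2 * N), (#n.divisors : ℝ)) ^ 2 := by
      rw [hD, pow_two, sum_mul_sum, sum_product]
    rw [hD2]
    apply pow_le_pow_left₀ (by positivity)
    have := sum_div_le (2 * N) (by omega)
    push_cast at this
    rw [hL]
    exact this
  have hoff : ∑ p ∈ (Icc 1 N ×ˢ Icc 1 N).filter (fun p : ℕ × ℕ => ¬ p.1 = p.2),
      (#(RR N ((p.1 : ℤ) ^ 2 - (p.2 : ℤ) ^ 2)) : ℝ) ≤ D + D := by
    rw [← sum_filter_add_sum_filter_not _ (fun p : ℕ × ℕ => p.2 < p.1)]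
    apply add_le_add
    · have h3 : ∀ p ∈ ((Icc 1 N ×ˢ Icc 1 N).filter (fun p : ℕ × ℕ => ¬ p.1 = p.2)).filter (fun p : ℕ × ℕ => p.2 < p.1),
          (#(RR N ((p.1 : ℤ) ^ 2 - (p.2 : ℤ) ^ 2)) : ℝ) ≤ (#(p.1 - p.2).divisors : ℝ) * #(p.1 + p.2).divisors := by
        intro p hp
        rw [mem_filter, mem_filter, mem_product, mem_Icc, mem_Icc] at hp
        have h4 : (p.1 : ℤ) ^ 2 - (p.2 : ℤ) ^ 2 = (((p.1 - p.2) * (p.1 + p.2) : ℕ) : ℤ) := by
          push_cast [Nat.cast_sub hp.2.le]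
          ring
        have h5 : (p.1 : ℤ) ^ 2 - (p.2 : ℤ) ^ 2 ≠ 0 := by
          rw [h4]
          have h6 : 0 < (p.1 - p.2) * (p.1 + p.2) := Nat.mul_pos (by omega) (by omega)
          exact_mod_cast h6.ne'
        have h6 : (#(RR N ((p.1 : ℤ) ^ 2 - (p.2 : ℤ) ^ 2)) : ℝ) ≤ #((p.1 : ℤ) ^ 2 - (p.2 : ℤ) ^ 2).natAbs.divisors := by
          exact_mod_cast RR_le N _ h5
        refine h6.trans ?_
        rw [h4, Int.natAbs_natCast]
        exact div_mul_le _ _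
      refine (sum_le_sum h3).trans ?_
      rw [hD]
      apply sum_inj_le _ _ (fun p : ℕ × ℕ => (p.1 - p.2, p.1 + p.2)) (fun t : ℕ × ℕ => (#t.1.divisors : ℝ) * #t.2.divisors)
      · intro t _
        positivity
      · intro p hp
        rw [mem_filter, mem_filter, mem_product, mem_Icc, mem_Icc] at hp
        rw [mem_product, mem_Icc, mem_Icc]
        have h2 := hp.2
        refine ⟨⟨?_, ?_⟩, ?_, ?_⟩ <;> simp only <;> omega
      · intro p hp q hq hpq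
        rw [mem_filter, mem_filter, mem_product, mem_Icc, mem_Icc] at hp hq
        rw [Prod.mk.injEq] at hpq
        have h2 := hp.2
        have h3 := hq.2
        ext <;> omega
    · have h3 : ∀ p ∈ ((Icc 1 N ×ˢ Icc 1 N).filter (fun p : ℕ × ℕ => ¬ p.1 = p.2)).filter (fun p : ℕ × ℕ => ¬ p.2 < p.1),
          (#(RR N ((p.1 : ℤ) ^ 2 - (p.2 : ℤ) ^ 2)) : ℝ) ≤ (#(p.2 - p.1).divisors : ℝ) * #(p.1 + p.2).divisors := by
        intro p hp
        rw [mem_filter, mem_filter, mem_product, mem_Icc, mem_Icc] at hp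
        have hlt : p.1 < p.2 := by
          have h1 := hp.1.2
          have h2 := hp.2
          omega
        have h4 : (p.1 : ℤ) ^ 2 - (p.2 : ℤ) ^ 2 = -(((p.2 - p.1) * (p.1 + p.2) : ℕ) : ℤ) := by
          push_cast [Nat.cast_sub hlt.le]
          ring
        have h5 : (p.1 : ℤ) ^ 2 - (p.2 : ℤ) ^ 2 ≠ 0 := by
          rw [h4]
          have h6 : 0 < (p.2 - p.1) * (p.1 + p.2) := Nat.mul_pos (by omega) (by omega)
          have h7 : (((p.2 - p.1) * (p.1 + p.2) : ℕ) : ℤ) ≠ 0 := by exact_mod_cast h6.ne'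
          exact neg_ne_zero.2 h7
        have h6 : (#(RR N ((p.1 : ℤ) ^ 2 - (p.2 : ℤ) ^ 2)) : ℝ) ≤ #((p.1 : ℤ) ^ 2 - (p.2 : ℤ) ^ 2).natAbs.divisors := by
          exact_mod_cast RR_le N _ h5
        refine h6.trans ?_
        rw [h4, Int.natAbs_neg, Int.natAbs_natCast]
        exact div_mul_le _ _
      refine (sum_le_sum h3).trans ?_
      rw [hD]
      apply sum_inj_le _ _ (fun p : ℕ × ℕ => (p.2 - p.1, p.1 + p.2)) (fun t : ℕ × ℕ => (#t.1.divisors : ℝ) * #t.2.divisors)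
      · intro t _
        positivity
      · intro p hp
        rw [mem_filter, mem_filter, mem_product, mem_Icc, mem_Icc] at hp
        rw [mem_product, mem_Icc, mem_Icc]
        have h1 := hp.1.2
        have h2 := hp.2
        refine ⟨⟨?_, ?_⟩, ?_, ?_⟩ <;> simp only <;> omega
      · intro p hp q hq hpq
        rw [mem_filter, mem_filter, mem_product, mem_Icc, mem_Icc] at hp hq
        rw [Prod.mk.injEq] at hpq
        have h1 := hp.1.2
        have h2 := hp.2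
        have h3 := hq.1.2
        have h4 := hq.2
        ext <;> omega
  have h10 : (N : ℝ) ^ 2 ≤ (N * L) ^ 2 := by
    apply pow_le_pow_left₀ (by positivity)
    nlinarith
  rw [← hL]
  nlinarith

end Pool.Agent.U845.QR
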