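import Mathlib
import Pool.Agent.U845.QR2

/-! The primes minus their sieve model along `n² + a` with arbitrary weights, on average over `a`. -/

set_option autoImplicit false

namespace Pool.Agent.U845.QR

open Finset
open Pool.Agent.H807R2.Dav (ee norm_ee ee_add ee_zero ee_int ee_add_int ee_pow ee_eq)
open Pool.Agent.H373R2.T7 (pz Vz lamz mem_pz Vz_pos lamz_nonneg)

/-- the primes minus their sieve model, at `|m|` -/
noncomputable def df (z : ℕ) (m : ℤ) : ℝ := ArithmeticFunction.vonMangoldt m.natAbs - lamz z m.natAbs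

/-- the same, cut off -/
noncomputable def FF (z M : ℕ) (m : ℤ) : ℝ := if m.natAbs ≤ M then df z m else 0

lemma sum_sym (f : ℤ → ℂ) (M : ℕ) : ∑ m ∈ Icc (-(M : ℤ)) M, f m = f 0 + ∑ n ∈ Icc 1 M, (f n + f (-(n : ℤ))) := by
  induction M with
  | zero => simp
  | succ M ih =>
    have h1 : Icc (-((M + 1 : ℕ) : ℤ)) ((M + 1 : ℕ) : ℤ) =
        insert (-((M + 1 : ℕ) : ℤ)) (insert ((M + 1 : ℕ) : ℤ) (Icc (-(M : ℤ)) M)) := by
      ext m
      simp only [mem_insert, mem_Icc]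
      push_cast
      omega
    have h2 : ((M + 1 : ℕ) : ℤ) ∉ Icc (-(M : ℤ)) M := by
      rw [mem_Icc]
      push_cast
      omega
    have h3 : -((M + 1 : ℕ) : ℤ) ∉ insert ((M + 1 : ℕ) : ℤ) (Icc (-(M : ℤ)) M) := by
      rw [mem_insert, mem_Icc]
      push_cast
      omega
    rw [h1, sum_insert h3, sum_insert h2, ih, sum_Icc_succ_top (by omega)]
    ring

lemma df_zero (z : ℕ) (hz : 2 ≤ z) : df z 0 = 0 := by
  unfold df lamz
  rw [if_neg]
  · simp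
  · intro h
    exact h 2 (mem_pz.2 ⟨hz, Nat.prime_two⟩) (by simp)

lemma FF_sup (z M : ℕ) (hz : 2 ≤ z) (T : ℝ)
    (hT : ∀ α : ℝ, ‖∑ n ∈ Icc 1 M, ((ArithmeticFunction.vonMangoldt n - lamz z n : ℝ) : ℂ) * ee ((n : ℝ) * α)‖ ≤ T) (α : ℝ) :
    ‖∑ m ∈ Icc (-(M : ℤ)) M, ((FF z M m : ℝ) : ℂ) * ee ((m : ℝ) * α)‖ ≤ 2 * T := by
  rw [sum_sym, sum_add_distrib]
  have h0 : FF z M 0 = 0 := by
    unfold FF
    rw [df_zero z hz, ite_self]
  rw [h0]
  have h1 : ∑ n ∈ Icc 1 M, ((FF z M (n : ℤ) : ℝ) : ℂ) * ee (((n : ℤ) : ℝ) * α) =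
      ∑ n ∈ Icc 1 M, ((ArithmeticFunction.vonMangoldt n - lamz z n : ℝ) : ℂ) * ee ((n : ℝ) * α) := by
    refine sum_congr rfl fun n hn => ?_
    rw [mem_Icc] at hn
    unfold FF df
    rw [Int.natAbs_natCast, if_pos hn.2, Int.cast_natCast]
  have h2 : ∑ n ∈ Icc 1 M, ((FF z M (-(n : ℤ)) : ℝ) : ℂ) * ee (((-(n : ℤ) : ℤ) : ℝ) * α) =
      ∑ n ∈ Icc 1 M, ((ArithmeticFunction.vonMangoldt n - lamz z n : ℝ) : ℂ) * ee ((n : ℝ) * (-α)) := by
    refine sum_congr rfl fun n hn => ?_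
    rw [mem_Icc] at hn
    unfold FF df
    rw [Int.natAbs_neg, Int.natAbs_natCast, if_pos hn.2]
    congr 2
    push_cast
    ring
  rw [h1, h2]
  refine (norm_add_le _ _).trans ?_
  have h3 : ‖((0 : ℝ) : ℂ) * ee (((0 : ℤ) : ℝ) * α)‖ = 0 := by simp
  rw [h3]
  have h4 := norm_add_le (∑ n ∈ Icc 1 M, ((ArithmeticFunction.vonMangoldt n - lamz z n : ℝ) : ℂ) * ee ((n : ℝ) * α))
    (∑ n ∈ Icc 1 M, ((ArithmeticFunction.vonMangoldt n - lamz z n : ℝ) : ℂ) * ee ((n : ℝ) * (-α)))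
  linarith [hT α, hT (-α)]

lemma FF_bd (z M : ℕ) (hM : 1 ≤ M) (hV : (Vz z)⁻¹ ≤ Real.log M) (m : ℤ) : |FF z M m| ≤ Real.log M := by
  have hL : 0 ≤ Real.log M := Real.log_nonneg (by exact_mod_cast hM)
  unfold FF df
  split_ifs with h
  · have h1 : ArithmeticFunction.vonMangoldt m.natAbs ≤ Real.log M := by
      rcases Nat.eq_zero_or_pos m.natAbs with h0 | h0
      · rw [h0]
        simpa using hL
      · refine ArithmeticFunction.vonMangoldt_le_log.trans ?_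
        exact Real.log_le_log (by exact_mod_cast h0) (by exact_mod_cast h)
    have h2 : lamz z m.natAbs ≤ Real.log M := by
      unfold lamz
      split_ifs
      · exact hV
      · exact hL
    have h3 : 0 ≤ ArithmeticFunction.vonMangoldt m.natAbs := ArithmeticFunction.vonMangoldt_nonneg
    have h4 := lamz_nonneg z m.natAbs
    rw [abs_le]
    constructor <;> linarith
  · simpa using hL

lemma FF_l2 (z M : ℕ) (hM : 1 ≤ M) (hV : (Vz z)⁻¹ ≤ Real.log M) :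
    √(∑ m ∈ Icc (-(M : ℤ)) M, FF z M m ^ 2) ≤ 2 * √M * Real.log M := by
  have hL : 0 ≤ Real.log M := Real.log_nonneg (by exact_mod_cast hM)
  have hMr : (1 : ℝ) ≤ M := by exact_mod_cast hM
  have h1 : ∑ m ∈ Icc (-(M : ℤ)) M, FF z M m ^ 2 ≤ ∑ _m ∈ Icc (-(M : ℤ)) M, Real.log M ^ 2 := by
    refine sum_le_sum fun m _ => ?_
    rw [← sq_abs]
    exact pow_le_pow_left₀ (abs_nonneg _) (FF_bd z M hM hV m) 2
  rw [sum_const, nsmul_eq_mul, Int.card_Icc] at h1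
  have h2 : (((M : ℤ) + 1 - -(M : ℤ)).toNat : ℝ) = 2 * M + 1 := by
    have : ((M : ℤ) + 1 - -(M : ℤ)).toNat = 2 * M + 1 := by omega
    rw [this]
    push_cast
    ring
  rw [h2] at h1
  have h3 : (2 * (M : ℝ) + 1) * Real.log M ^ 2 ≤ (2 * √M * Real.log M) ^ 2 := by
    have : (2 * √(M : ℝ) * Real.log M) ^ 2 = 4 * M * Real.log M ^ 2 := by
      rw [mul_pow, mul_pow, Real.sq_sqrt (by linarith)]
      ring
    rw [this]
    apply mul_le_mul_of_nonneg_right _ (by positivity)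
    linarith
  calc _ ≤ √((2 * √M * Real.log M) ^ 2) := Real.sqrt_le_sqrt (h1.trans h3)
    _ = _ := Real.sqrt_sq (by positivity)

/-- the primes minus their sieve model, with arbitrary weights, on average over `a` -/
theorem l2_log (C U : ℕ) : ∃ B : ℕ, ∀ E : ℕ, ∃ X0 : ℕ, ∀ X : ℕ, X0 ≤ X → ∀ N z : ℕ,
    (N : ℝ) ^ 2 ≤ X * Real.log X ^ C → (X : ℝ) ≤ N ^ 2 * Real.log X ^ C →
    Real.log X ^ B ≤ z → (z : ℝ) ≤ Real.log X ^ E → ∀ w : ℕ → ℝ, (∀ n, |w n| ≤ 1) →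
    ∑ a ∈ Icc (-(X : ℤ)) X, (∑ n ∈ Icc 1 N, w n * df z ((n : ℤ) ^ 2 + a)) ^ 2 ≤ X * N ^ 2 / Real.log X ^ U := by
  obtain ⟨U', hU'⟩ : ∃ U' : ℕ, U' = 2 * C + 3 + U := ⟨_, rfl⟩
  obtain ⟨B, hB⟩ := Pool.Agent.H373R2.T7.sup_diff U'
  refine ⟨B + 1, fun E => ?_⟩
  obtain ⟨m1, h1⟩ := hB E
  obtain ⟨m2, h2⟩ := Pool.Agent.H373R2.T7.Vz_inv_small E
  obtain ⟨m3, h3⟩ := Pool.Agent.H373R2.T7.ev_L' (max 192 (2 ^ B))
  obtain ⟨m4, h4⟩ := Pool.Agent.H373R2.T7.ev_log' (C + 1) 4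
  refine ⟨m1 + m2 + m3 + m4 + 3, fun X hX N z hN1 hN2 hz1 hz2 w hw => ?_⟩
  have hX3 : 3 ≤ X := by omega
  have hXr : (3 : ℝ) ≤ X := by exact_mod_cast hX3
  have hX0 : (0 : ℝ) < X := by linarith
  obtain ⟨L, hL⟩ : ∃ L : ℝ, L = Real.log X := ⟨_, rfl⟩
  have hL96 : 192 ≤ L := by rw [hL]; exact (le_max_left _ _).trans (h3 X (by omega))
  have hLB : 2 ^ B ≤ L := by rw [hL]; exact (le_max_right _ _).trans (h3 X (by omega))
  have hL0 : 0 < L := by linarith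
  have hL1 : 1 ≤ L := by linarith
  have hsq := h4 X (by omega)
  rw [← hL] at hN1 hN2 hz1 hz2 hsq ⊢
  have hLC : 1 ≤ L ^ C := one_le_pow₀ hL1
  -- `L ^ (C + 1) ≤ √X / 4`
  have hsX : √(X : ℝ) * √(X : ℝ) = X := Real.mul_self_sqrt hX0.le
  have hs0 : 0 < √(X : ℝ) := Real.sqrt_pos.2 hX0
  have hLC2 : 4 * L ^ C ≤ √X := by
    refine le_trans ?_ hsq
    have : L ^ C ≤ L ^ (C + 1) := pow_le_pow_right₀ hL1 (by omega)
    linarith
  have hsX1 : √(X : ℝ) ≤ X := by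
    have : 1 ≤ √(X : ℝ) := by linarith
    nlinarith
  obtain ⟨M, hM⟩ : ∃ M : ℕ, M = X + N ^ 2 := ⟨_, rfl⟩
  have hMX : X ≤ M := by rw [hM]; omega
  have hM1 : 1 ≤ M := by omega
  have hMr : (M : ℝ) = X + (N : ℝ) ^ 2 := by rw [hM]; push_cast; ring
  have hMX' : (X : ℝ) ≤ M := by exact_mod_cast hMX
  have hM0 : (0 : ℝ) < M := by linarith
  have hMle : (M : ℝ) ≤ 2 * X * L ^ C := by
    rw [hMr]
    nlinarith
  have hMle2 : (M : ℝ) ≤ (2 * N * L ^ C) ^ 2 := by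
    rw [hMr]
    have e1 : (N : ℝ) ^ 2 ≤ N ^ 2 * L ^ C := le_mul_of_one_le_right (by positivity) hLC
    have e2 : L ^ C ≤ (L ^ C) ^ 2 := by nlinarith
    have e3 : (N : ℝ) ^ 2 * L ^ C ≤ N ^ 2 * (L ^ C) ^ 2 := mul_le_mul_of_nonneg_left e2 (by positivity)
    nlinarith
  have hMX2 : (M : ℝ) ≤ (X : ℝ) ^ 2 := by
    refine hMle.trans ?_
    calc 2 * (X : ℝ) * L ^ C ≤ X * √X := by nlinarith
      _ ≤ X * X := by nlinarith
      _ = _ := by ring
  have hlM1 : L ≤ Real.log M := by rw [hL]; exact Real.log_le_log hX0 hMX'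
  have hlM2 : Real.log M ≤ 2 * L := by
    have := Real.log_le_log hM0 hMX2
    rw [Real.log_pow] at this
    rw [hL]
    exact_mod_cast this
  have hlM0 : 0 < Real.log M := by linarith
  have hz1' : Real.log M ^ B ≤ z := by
    refine le_trans ?_ hz1
    calc Real.log M ^ B ≤ (2 * L) ^ B := pow_le_pow_left₀ hlM0.le hlM2 B
      _ = 2 ^ B * L ^ B := by rw [mul_pow]
      _ ≤ L * L ^ B := mul_le_mul_of_nonneg_right hLB (by positivity)
      _ = _ := by ring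
  have hz2' : (z : ℝ) ≤ Real.log M ^ E := hz2.trans (pow_le_pow_left₀ hL0.le hlM1 E)
  have hz2n : 2 ≤ z := by
    have e1 : L ≤ L ^ (B + 1) := by
      calc L = L ^ 1 := (pow_one L).symm
        _ ≤ _ := pow_le_pow_right₀ hL1 (by omega)
    have e2 : (2 : ℝ) ≤ z := by linarith
    exact_mod_cast e2
  have hV := h2 M (by omega) z (by omega) hz2'
  have hsup := FF_sup z M hz2n _ (h1 M (by omega) z hz1' hz2')
  have hl2 := FF_l2 z M hM1 hV
  -- `N ≥ 1`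
  have hN1' : 1 ≤ N := by
    rcases Nat.eq_zero_or_pos N with h0 | h0
    · rw [h0] at hN2
      simp at hN2
      linarith
    · exact h0
  have hNr : (1 : ℝ) ≤ N := by exact_mod_cast hN1'
  have hen := energy N hN1' w hw
  have hlN : 1 + Real.log (2 * N) ≤ 2 * L := by
    have e1 : (2 * (N : ℝ)) ^ 2 ≤ X ^ 2 := by
      calc (2 * (N : ℝ)) ^ 2 = 4 * (N : ℝ) ^ 2 := by ring
        _ ≤ X * (4 * L ^ C) := by linarith
        _ ≤ X * √X := mul_le_mul_of_nonneg_left hLC2 hX0.le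
        _ ≤ X * X := mul_le_mul_of_nonneg_left hsX1 hX0.le
        _ = _ := by ring
    have e2 : 2 * (N : ℝ) ≤ X := by
      have := abs_le_of_sq_le_sq' e1 hX0.le
      exact this.2
    have e3 := Real.log_le_log (by linarith) e2
    rw [← hL] at e3
    linarith
  have hlN0 : 0 ≤ 1 + Real.log (2 * N) := by
    have := Real.log_nonneg (by linarith : (1 : ℝ) ≤ 2 * N)
    linarith
  have hen2 : √(∑ h ∈ HH N, (rw N w h) ^ 2) ≤ 6 * N * L := by
    have e1 : 9 * ((N : ℝ) * (1 + Real.log (2 * N))) ^ 2 ≤ (6 * N * L) ^ 2 := by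
      have : (N : ℝ) * (1 + Real.log (2 * N)) ≤ N * (2 * L) := mul_le_mul_of_nonneg_left hlN (by linarith)
      calc 9 * ((N : ℝ) * (1 + Real.log (2 * N))) ^ 2 ≤ 9 * (N * (2 * L)) ^ 2 := by
            apply mul_le_mul_of_nonneg_left _ (by norm_num)
            exact pow_le_pow_left₀ (by positivity) this 2
        _ = _ := by ring
    calc _ ≤ √((6 * N * L) ^ 2) := Real.sqrt_le_sqrt (hen.trans e1)
      _ = _ := Real.sqrt_sq (by positivity)
  have hsM := second_moment M N (FF z M) (fun m hm => by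
    unfold FF
    rw [if_neg]
    intro h
    apply hm
    rw [mem_Icc]
    omega) w _ hsup
  -- from `FF` to `df`
  have hstep : ∑ a ∈ Icc (-(X : ℤ)) X, (∑ n ∈ Icc 1 N, w n * df z ((n : ℤ) ^ 2 + a)) ^ 2 ≤
      ∑ a ∈ Icc (-((M : ℤ) + N ^ 2)) M, (∑ n ∈ Icc 1 N, w n * FF z M ((n : ℤ) ^ 2 + a)) ^ 2 := by
    have e1 : ∑ a ∈ Icc (-(X : ℤ)) X, (∑ n ∈ Icc 1 N, w n * df z ((n : ℤ) ^ 2 + a)) ^ 2 =
        ∑ a ∈ Icc (-(X : ℤ)) X, (∑ n ∈ Icc 1 N, w n * FF z M ((n : ℤ) ^ 2 + a)) ^ 2 := by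
      refine sum_congr rfl fun a ha => ?_
      congr 1
      refine sum_congr rfl fun n hn => ?_
      rw [mem_Icc] at ha hn
      unfold FF
      rw [if_pos]
      have e2 : (n : ℤ) ^ 2 ≤ (N : ℤ) ^ 2 := by
        have : (n : ℤ) ≤ N := by exact_mod_cast hn.2
        exact pow_le_pow_left₀ (by positivity) this 2
      have e3 : (0 : ℤ) ≤ (n : ℤ) ^ 2 := by positivity
      have e4 : (M : ℤ) = X + (N : ℤ) ^ 2 := by rw [hM]; push_cast; ring
      omega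
    rw [e1]
    apply sum_le_sum_of_subset_of_nonneg
    · intro a ha
      rw [mem_Icc] at ha ⊢
      have e4 : (X : ℤ) ≤ M := by exact_mod_cast hMX
      have e5 : (0 : ℤ) ≤ (N : ℤ) ^ 2 := by positivity
      constructor <;> linarith [ha.1, ha.2]
    · intro a _ _
      positivity
  refine (hstep.trans hsM).trans ?_
  have hsMr : √(M : ℝ) ≤ 2 * N * L ^ C := by
    calc √(M : ℝ) ≤ √((2 * N * L ^ C) ^ 2) := Real.sqrt_le_sqrt hMle2
      _ = _ := Real.sqrt_sq (by positivity)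
  have hsup2 : 2 * ((M : ℝ) / Real.log M ^ U') ≤ 2 * ((2 * X * L ^ C) / L ^ U') := by
    apply mul_le_mul_of_nonneg_left _ (by norm_num)
    apply div_le_div₀ (by positivity) hMle (by positivity)
    exact pow_le_pow_left₀ hL0.le hlM1 U'
  have hl22 : √(∑ m ∈ Icc (-(M : ℤ)) M, FF z M m ^ 2) ≤ 8 * N * L ^ C * L := by
    refine hl2.trans ?_
    calc 2 * √(M : ℝ) * Real.log M ≤ 2 * (2 * N * L ^ C) * (2 * L) := by
          apply mul_le_mul _ hlM2 hlM0.le (by positivity)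
          linarith
      _ = _ := by ring
  calc 2 * ((M : ℝ) / Real.log M ^ U') * (√(∑ m ∈ Icc (-(M : ℤ)) M, FF z M m ^ 2) * √(∑ h ∈ HH N, (rw N w h) ^ 2))
      ≤ 2 * ((2 * X * L ^ C) / L ^ U') * ((8 * N * L ^ C * L) * (6 * N * L)) := by
        apply mul_le_mul hsup2 _ (by positivity) (by positivity)
        exact mul_le_mul hl22 hen2 (Real.sqrt_nonneg _) (by positivity)
    _ = 192 / L * (X * N ^ 2 / L ^ U) := by
        rw [hU']
        have e1 : L ^ (2 * C + 3 + U) = L ^ C * L ^ C * (L * L * L) * L ^ U := by ring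
        rw [e1]
        field_simp
        ring
    _ ≤ 1 * (X * N ^ 2 / L ^ U) := by
        apply mul_le_mul_of_nonneg_right _ (by positivity)
        rw [div_le_one hL0]
        exact hL96
    _ = _ := one_mul _

end Pool.Agent.U845.QR
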