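import Mathlib
import Pool.Agent.H373R2.T7.SysCount

/-! Pair correlations of the sieve model. -/

set_option autoImplicit false

namespace Pool.Agent.U845.QR

open Finset
open Pool.Agent.H373R2.T7 (pz Vz lamz mem_pz Vz_pos lamz_nonneg nuB PerB)

/-- the local factor of a pair with difference `h` -/
noncomputable def gp (h : ℤ) (p : ℕ) : ℝ :=
  if (p : ℤ) ∣ h then (p : ℝ) / (p - 1) else (p : ℝ) * (p - 2) / (p - 1) ^ 2

/-- the singular series of a pair -/
noncomputable def sing (z : ℕ) (h : ℤ) : ℝ := ∏ p ∈ pz z, gp h p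

lemma lamz_eq (z : ℕ) (m : ℤ) : lamz z m.natAbs = if ∀ p ∈ pz z, ¬ (p : ℤ) ∣ m then (Vz z)⁻¹ else 0 := by
  unfold lamz
  have h : (∀ p ∈ pz z, ¬ p ∣ m.natAbs) ↔ (∀ p ∈ pz z, ¬ (p : ℤ) ∣ m) := by
    constructor
    · intro h p hp hd
      exact h p hp (Int.natCast_dvd.1 hd)
    · intro h p hp hd
      exact h p hp (Int.natCast_dvd.2 hd)
  by_cases h1 : ∀ p ∈ pz z, ¬ (p : ℤ) ∣ m
  · rw [if_pos h1, if_pos (h.2 h1)]
  · rw [if_neg h1, if_neg (fun h2 => h1 (h.1 h2))]

/-- the conditions at the primes for the pair `u + a`, `v + a`, `a = j - s` -/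
def QQ (y : ℕ) (u v s : ℤ) (p j : ℕ) : Prop := (p ≤ y ∧ (p : ℤ) ∣ u + j - s) ∨ (p : ℤ) ∣ v + j - s

lemma dvd_mod (u s : ℤ) (p n : ℕ) : (p : ℤ) ∣ u + n - s ↔ (p : ℤ) ∣ u + (n % p : ℕ) - s := by
  have h1 : u + (n : ℤ) - s = (u + ((n % p : ℕ) : ℤ) - s) + p * (n / p : ℕ) := by
    have : (n : ℤ) = ((n % p : ℕ) : ℤ) + p * (n / p : ℕ) := by
      have := Nat.mod_add_div n p
      exact_mod_cast this.symm
    linarith
  rw [h1]
  constructor
  · intro h
    exact (dvd_add_left (Dvd.intro _ rfl)).1 h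
  · intro h
    exact (dvd_add_left (Dvd.intro _ rfl)).2 h

open Classical in
lemma one_root (u s : ℤ) (p : ℕ) (hp : p.Prime) : ((range p).filter (fun r : ℕ => (p : ℤ) ∣ u + r - s)).card = 1 := by
  rw [card_eq_one]
  have hp0 : (0 : ℤ) < p := by exact_mod_cast hp.pos
  refine ⟨((s - u) % p).toNat, ?_⟩
  have h1 : 0 ≤ (s - u) % (p : ℤ) := Int.emod_nonneg _ hp0.ne'
  have h2 : (s - u) % (p : ℤ) < p := Int.emod_lt_of_pos _ hp0
  ext r
  rw [mem_filter, mem_range, mem_singleton]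
  constructor
  · rintro ⟨h3, h4⟩
    have h5 : (s - u) % (p : ℤ) = r := by
      have h6 : (r : ℤ) ≡ s - u [ZMOD p] := by
        rw [Int.modEq_iff_dvd]
        have : s - u - (r : ℤ) = -(u + r - s) := by ring
        rw [this]
        exact (dvd_neg).2 h4
      have h7 : (r : ℤ) % p = r := Int.emod_eq_of_lt (by positivity) (by exact_mod_cast h3)
      rw [← h7]
      exact h6.symm
    rw [h5]
    simp
  · intro h3
    have h4 : (r : ℤ) = (s - u) % p := by
      rw [h3, Int.toNat_of_nonneg h1]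
    constructor
    · have : (r : ℤ) < p := by rw [h4]; exact h2
      exact_mod_cast this
    · have h5 : (p : ℤ) ∣ (s - u) - (s - u) % p := Int.dvd_self_sub_emod
      have h6 : u + (r : ℤ) - s = -((s - u) - (s - u) % p) := by rw [h4]; ring
      rw [h6]
      exact (dvd_neg).2 h5

open Classical in
lemma QQ_few (y : ℕ) (u v s : ℤ) (p : ℕ) (hp : p.Prime) : nuB (QQ y u v s) p ≤ 2 := by
  unfold nuB
  have h1 : (range p).filter (fun r : ℕ => QQ y u v s p r) ⊆
      (range p).filter (fun r : ℕ => (p : ℤ) ∣ u + r - s) ∪ (range p).filter (fun r : ℕ => (p : ℤ) ∣ v + r - s) := by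
    intro r hr
    rw [mem_union, mem_filter, mem_filter]
    rw [mem_filter] at hr
    unfold QQ at hr
    rcases hr.2 with h | h
    · exact Or.inl ⟨hr.1, h.2⟩
    · exact Or.inr ⟨hr.1, h⟩
  refine (card_le_card h1).trans ((card_union_le _ _).trans ?_)
  rw [one_root u s p hp, one_root v s p hp]

lemma QQ_per (y : ℕ) (u v s : ℤ) : PerB (QQ y u v s) 2 := by
  refine ⟨fun p n => ?_, fun p hp => ?_⟩
  · unfold QQ
    rw [dvd_mod u s p n, dvd_mod v s p n]
  · exact QQ_few y u v s p hp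

open Classical in
lemma QQ_nu (y : ℕ) (u v s : ℤ) (p : ℕ) (hp : p.Prime) : nuB (QQ y u v s) p =
    if p ≤ y ∧ ¬ (p : ℤ) ∣ u - v then 2 else 1 := by
  unfold nuB
  split_ifs with h
  · have h1 : (range p).filter (fun r : ℕ => QQ y u v s p r) =
        (range p).filter (fun r : ℕ => (p : ℤ) ∣ u + r - s) ∪ (range p).filter (fun r : ℕ => (p : ℤ) ∣ v + r - s) := by
      ext r
      rw [mem_union, mem_filter, mem_filter, mem_filter]
      unfold QQ
      constructor
      · rintro ⟨h2, h3⟩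
        rcases h3 with h3 | h3
        · exact Or.inl ⟨h2, h3.2⟩
        · exact Or.inr ⟨h2, h3⟩
      · rintro (h2 | h2)
        · exact ⟨h2.1, Or.inl ⟨h.1, h2.2⟩⟩
        · exact ⟨h2.1, Or.inr h2.2⟩
    rw [h1, card_union_of_disjoint, one_root u s p hp, one_root v s p hp]
    rw [disjoint_left]
    intro r h2 h3
    rw [mem_filter] at h2 h3
    apply h.2
    have h4 : u - v = (u + r - s) - (v + r - s) := by ring
    rw [h4]
    exact dvd_sub h2.2 h3.2
  · have h1 : (range p).filter (fun r : ℕ => QQ y u v s p r) =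
        (range p).filter (fun r : ℕ => (p : ℤ) ∣ v + r - s) := by
      ext r
      rw [mem_filter, mem_filter]
      apply and_congr_right
      intro _
      unfold QQ
      constructor
      · rintro (h2 | h2)
        · have h3 : (p : ℤ) ∣ u - v := by
            by_contra h4
            exact h ⟨h2.1, h4⟩
          have h4 : v + r - s = (u + r - s) - (u - v) := by ring
          rw [h4]
          exact dvd_sub h2.2 h3
        · exact h2
      · intro h2
        exact Or.inr h2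
    rw [h1, one_root v s p hp]

lemma pz_mono {y z : ℕ} (h : y ≤ z) : pz y ⊆ pz z := by
  intro p hp
  rw [mem_pz] at hp ⊢
  exact ⟨hp.1.trans h, hp.2⟩

lemma prod_QQ (y z : ℕ) (hyz : y ≤ z) (u v s : ℤ) :
    ∏ p ∈ pz z, (1 - (nuB (QQ y u v s) p : ℝ) / p) = sing y (u - v) * Vz y * Vz z := by
  classical
  unfold Vz sing
  rw [← prod_sdiff (pz_mono hyz) (f := fun p : ℕ => (1 - (nuB (QQ y u v s) p : ℝ) / p)),
    ← prod_sdiff (pz_mono hyz) (f := fun p : ℕ => (1 - 1 / (p : ℝ)))]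
  have h1 : ∏ p ∈ pz z \ pz y, (1 - (nuB (QQ y u v s) p : ℝ) / p) = ∏ p ∈ pz z \ pz y, (1 - 1 / (p : ℝ)) := by
    refine prod_congr rfl fun p hp => ?_
    rw [mem_sdiff, mem_pz, mem_pz] at hp
    rw [QQ_nu y u v s p hp.1.2, if_neg (fun h => hp.2 ⟨h.1, hp.1.2⟩)]
    norm_num
  have h2 : ∏ p ∈ pz y, (1 - (nuB (QQ y u v s) p : ℝ) / p) =
      (∏ p ∈ pz y, gp (u - v) p) * ((∏ p ∈ pz y, (1 - 1 / (p : ℝ))) * ∏ p ∈ pz y, (1 - 1 / (p : ℝ))) := by
    rw [← prod_mul_distrib, ← prod_mul_distrib]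
    refine prod_congr rfl fun p hp => ?_
    rw [mem_pz] at hp
    have hp2 : (2 : ℝ) ≤ p := by exact_mod_cast hp.2.two_le
    have hp0 : (p : ℝ) ≠ 0 := by linarith
    have hp1 : (p : ℝ) - 1 ≠ 0 := by linarith
    rw [QQ_nu y u v s p hp.2]
    unfold gp
    by_cases hd : (p : ℤ) ∣ u - v
    · rw [if_neg (fun h => h.2 hd), if_pos hd]
      push_cast
      field_simp
    · rw [if_pos ⟨hp.1, hd⟩, if_neg hd]
      push_cast
      field_simp
  rw [h1, h2]
  ring

/-- the pair correlation of two sieve models -/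
theorem corr (E U : ℕ) : ∃ X0 : ℕ, ∀ X : ℕ, X0 ≤ X → ∀ y z : ℕ, 1 ≤ y → y ≤ z → (z : ℝ) ≤ Real.log X ^ E →
    ∀ u v : ℤ, |∑ a ∈ Icc (-(X : ℤ)) X, lamz y (u + a).natAbs * lamz z (v + a).natAbs -
      (2 * X + 1) * sing y (u - v)| ≤ X / Real.log X ^ U := by
  classical
  obtain ⟨m1, h1⟩ := Pool.Agent.H373R2.T7.sys_count 2 E (U + 3) (by norm_num)
  obtain ⟨m2, h2⟩ := Pool.Agent.H373R2.T7.Vz_inv_small E
  obtain ⟨m3, h3⟩ := Pool.Agent.H373R2.T7.ev_L' 3
  refine ⟨m1 + m2 + m3 + 3, fun X hX y z hy hyz hzE u v => ?_⟩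
  have hX3 : 3 ≤ X := by omega
  have hXr : (3 : ℝ) ≤ X := by exact_mod_cast hX3
  have hX0 : (0 : ℝ) < X := by linarith
  obtain ⟨L, hL⟩ : ∃ L : ℝ, L = Real.log X := ⟨_, rfl⟩
  have hL3 : 3 ≤ L := by rw [hL]; exact h3 X (by omega)
  have hL0 : 0 < L := by linarith
  obtain ⟨N, hN⟩ : ∃ N : ℕ, N = 2 * X + 1 := ⟨_, rfl⟩
  have hNr : (N : ℝ) = 2 * X + 1 := by rw [hN]; push_cast; ring
  have hlN : L ≤ Real.log N := by
    rw [hL]
    apply Real.log_le_log hX0
    rw [hNr]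
    linarith
  have hzE' : (z : ℝ) ≤ Real.log N ^ E := hzE.trans (by rw [← hL]; exact pow_le_pow_left₀ hL0.le hlN E)
  have hz : 1 ≤ z := hy.trans hyz
  have key := h1 N (by omega) z hz hzE' (QQ y u v (X + 1)) (QQ_per y u v (X + 1))
  rw [prod_QQ y z hyz] at key
  have hVy := h2 X (by omega) y hy ((by exact_mod_cast hyz : (y : ℝ) ≤ z).trans hzE)
  have hVz := h2 X (by omega) z hz hzE
  rw [← hL] at hVy hVz ⊢
  have hVy0 := Vz_pos y
  have hVz0 := Vz_pos z
  -- the sum is a count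
  have hsum : ∑ a ∈ Icc (-(X : ℤ)) X, lamz y (u + a).natAbs * lamz z (v + a).natAbs =
      (Vz y)⁻¹ * (Vz z)⁻¹ * ((((Icc 1 N).filter (fun n : ℕ => ∀ p ∈ pz z, ¬ QQ y u v (X + 1) p n)).card : ℕ) : ℝ) := by
    have e1 : ∑ a ∈ Icc (-(X : ℤ)) X, lamz y (u + a).natAbs * lamz z (v + a).natAbs =
        ∑ j ∈ Icc 1 N, lamz y (u + j - (X + 1)).natAbs * lamz z (v + j - (X + 1)).natAbs := by
      symm
      apply sum_nbij (fun j : ℕ => (j : ℤ) - (X + 1))
      · intro j hj
        rw [mem_Icc] at hj ⊢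
        omega
      · intro i _ j _ h
        simp only at h
        omega
      · intro a ha
        rw [mem_coe, mem_Icc] at ha
        refine ⟨(a + (X + 1)).toNat, ?_, ?_⟩
        · rw [mem_coe, mem_Icc]
          omega
        · simp only
          omega
      · intro j _
        have e2 : u + (j : ℤ) - (X + 1) = u + ((j : ℤ) - (X + 1)) := by ring
        have e3 : v + (j : ℤ) - (X + 1) = v + ((j : ℤ) - (X + 1)) := by ring
        rw [e2, e3]
    rw [e1, card_eq_sum_ones, sum_filter]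
    push_cast
    rw [mul_sum]
    refine sum_congr rfl fun j _ => ?_
    rw [lamz_eq, lamz_eq]
    by_cases hj : ∀ p ∈ pz z, ¬ QQ y u v (X + 1) p j
    · rw [if_pos hj, if_pos, if_pos, mul_one]
      · intro p hp hd
        exact hj p hp (Or.inr hd)
      · intro p hp hd
        exact hj p (pz_mono hyz hp) (Or.inl ⟨(mem_pz.1 hp).1, hd⟩)
    · rw [if_neg hj, mul_zero]
      push Not at hj
      obtain ⟨p, hp, hq⟩ := hj
      rcases hq with hq | hq
      · rw [if_neg, zero_mul]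
        intro h
        exact h p (mem_pz.2 ⟨hq.1, (mem_pz.1 hp).2⟩) hq.2
      · rw [if_neg (c := ∀ p ∈ pz z, ¬ (p : ℤ) ∣ v + j - (X + 1)), mul_zero]
        intro h
        exact h p hp hq
  rw [hsum]
  have e1 : (Vz y)⁻¹ * (Vz z)⁻¹ * ((((Icc 1 N).filter (fun n : ℕ => ∀ p ∈ pz z, ¬ QQ y u v (X + 1) p n)).card : ℕ) : ℝ) -
      (2 * X + 1) * sing y (u - v) = (Vz y)⁻¹ * (Vz z)⁻¹ *
      (((((Icc 1 N).filter (fun n : ℕ => ∀ p ∈ pz z, ¬ QQ y u v (X + 1) p n)).card : ℕ) : ℝ) -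
        N * (sing y (u - v) * Vz y * Vz z)) := by
    rw [hNr]
    field_simp
  rw [e1, abs_mul, abs_of_pos (by positivity)]
  calc (Vz y)⁻¹ * (Vz z)⁻¹ * |((((Icc 1 N).filter (fun n : ℕ => ∀ p ∈ pz z, ¬ QQ y u v (X + 1) p n)).card : ℕ) : ℝ) -
        N * (sing y (u - v) * Vz y * Vz z)| ≤ L * L * (N / Real.log N ^ (U + 3)) := by
        apply mul_le_mul _ key (abs_nonneg _) (by positivity)
        exact mul_le_mul hVy hVz (by positivity) hL0.le
    _ ≤ L * L * ((3 * X) / L ^ (U + 3)) := by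
        apply mul_le_mul_of_nonneg_left _ (by positivity)
        apply div_le_div₀ (by positivity) _ (by positivity) (pow_le_pow_left₀ hL0.le hlN _)
        rw [hNr]
        linarith
    _ = 3 / L * (X / L ^ U) := by
        have : L ^ (U + 3) = L * L * L * L ^ U := by ring
        rw [this]
        field_simp
    _ ≤ 1 * (X / L ^ U) := by
        apply mul_le_mul_of_nonneg_right _ (by positivity)
        rw [div_le_one hL0]
        exact hL3
    _ = _ := one_mul _

end Pool.Agent.U845.QR
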