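import Mathlib
import Pool.Agent.U845.QR4

/-! The average of the singular series over the differences of two squares. -/

set_option autoImplicit false

namespace Pool.Agent.U845.QR

open Finset
open Pool.Agent.H373R2.T7 (pz Vz lamz mem_pz Vz_pos lamz_nonneg)

noncomputable def Dp (p : ℕ) : ℝ := (p : ℝ) / (p - 1) ^ 2

/-- the upper bound of the local factor -/
noncomputable def gu (h : ℤ) (p : ℕ) : ℝ := 1 + (if (p : ℤ) ∣ h then Dp p else 0)

lemma Dp_nonneg (p : ℕ) : 0 ≤ Dp p := by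
  unfold Dp
  positivity

lemma gp_nonneg (h : ℤ) {p : ℕ} (hp : p.Prime) : 0 ≤ gp h p := by
  have h2 : (2 : ℝ) ≤ p := by exact_mod_cast hp.two_le
  unfold gp
  split_ifs
  · apply div_nonneg <;> linarith
  · apply div_nonneg
    · apply mul_nonneg <;> linarith
    · positivity

lemma gp_le (h : ℤ) {p : ℕ} (hp : p.Prime) : gp h p ≤ gu h p := by
  have h2 : (2 : ℝ) ≤ p := by exact_mod_cast hp.two_le
  have h1 : (0 : ℝ) < (p : ℝ) - 1 := by linarith
  unfold gp gu Dp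
  split_ifs
  · rw [div_le_iff₀ h1]
    have e : (1 + (p : ℝ) / (p - 1) ^ 2) * (p - 1) = (p - 1) + p / (p - 1) := by
      field_simp
    rw [e]
    have : 1 ≤ (p : ℝ) / (p - 1) := by
      rw [le_div_iff₀ h1]
      linarith
    linarith
  · rw [div_le_iff₀ (by positivity)]
    nlinarith

lemma gp_ge (h : ℤ) {p : ℕ} (hp : p.Prime) : 1 - 1 / ((p : ℝ) - 1) ^ 2 ≤ gp h p := by
  have h2 : (2 : ℝ) ≤ p := by exact_mod_cast hp.two_le
  have h1 : (0 : ℝ) < (p : ℝ) - 1 := by linarith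
  unfold gp
  split_ifs
  · have e1 : 1 ≤ (p : ℝ) / (p - 1) := by
      rw [le_div_iff₀ h1]
      linarith
    have e2 : 0 ≤ 1 / ((p : ℝ) - 1) ^ 2 := by positivity
    linarith
  · apply le_of_eq
    field_simp
    ring

lemma gu_ge (h : ℤ) (p : ℕ) : 1 ≤ gu h p := by
  unfold gu
  have := Dp_nonneg p
  split_ifs <;> linarith

/-- a product of numbers of `[0, 1]` -/
lemma prod_ge {ι : Type*} [DecidableEq ι] (s : Finset ι) (f : ι → ℝ) (h0 : ∀ i ∈ s, 0 ≤ f i) (h1 : ∀ i ∈ s, f i ≤ 1) :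
    1 - ∑ i ∈ s, f i ≤ ∏ i ∈ s, (1 - f i) ∧ ∏ i ∈ s, (1 - f i) ≤ 1 := by
  induction s using Finset.induction_on with
  | empty => simp
  | insert a s ha ih =>
    have ih1 := ih (fun i hi => h0 i (mem_insert_of_mem hi)) (fun i hi => h1 i (mem_insert_of_mem hi))
    have ha0 := h0 a (mem_insert_self _ _)
    have ha1 := h1 a (mem_insert_self _ _)
    rw [sum_insert ha, prod_insert ha]
    have hP : 0 ≤ ∏ i ∈ s, (1 - f i) := prod_nonneg fun i hi => by linarith [h1 i (mem_insert_of_mem hi)]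
    constructor <;> nlinarith [ih1.1, ih1.2]

/-- the tail of the sum over the primes -/
noncomputable def dl (y z : ℕ) : ℝ := ∑ p ∈ pz z \ pz y, 1 / ((p : ℝ) - 1) ^ 2

lemma tele (y : ℕ) (hy : 2 ≤ y) : ∀ z : ℕ, y ≤ z →
    ∑ k ∈ Ioc y z, 1 / ((k : ℝ) - 1) ^ 2 ≤ 1 / ((y : ℝ) - 1) - 1 / ((z : ℝ) - 1) := by
  intro z hz
  induction z, hz using Nat.le_induction with
  | base => simp
  | succ z hz ih =>
    rw [sum_Ioc_succ_top hz]
    have h2 : (2 : ℝ) ≤ z := by exact_mod_cast (hy.trans hz)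
    have h1 : (0 : ℝ) < (z : ℝ) - 1 := by linarith
    have e1 : 1 / (((z + 1 : ℕ) : ℝ) - 1) ^ 2 ≤ 1 / ((z : ℝ) - 1) - 1 / (((z + 1 : ℕ) : ℝ) - 1) := by
      push_cast
      have e2 : (z : ℝ) + 1 - 1 = z := by ring
      rw [e2]
      have e3 : 1 / ((z : ℝ) - 1) - 1 / z = 1 / ((z - 1) * z) := by
        field_simp
        ring
      rw [e3]
      apply one_div_le_one_div_of_le (by positivity)
      nlinarith
    linarith

lemma dl_nonneg (y z : ℕ) : 0 ≤ dl y z := by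
  unfold dl
  exact sum_nonneg fun _ _ => by positivity

lemma dl_le (y z : ℕ) (hy : 2 ≤ y) (hyz : y ≤ z) : dl y z ≤ 1 / ((y : ℝ) - 1) := by
  have h1 : dl y z ≤ ∑ k ∈ Ioc y z, 1 / ((k : ℝ) - 1) ^ 2 := by
    unfold dl
    apply sum_le_sum_of_subset_of_nonneg
    · intro p hp
      rw [mem_sdiff, mem_pz, mem_pz] at hp
      rw [mem_Ioc]
      refine ⟨?_, hp.1.1⟩
      by_contra h
      exact hp.2 ⟨by omega, hp.1.2⟩
    · intro _ _ _
      positivity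
  have h2 := tele y hy z hyz
  have h3 : (0 : ℝ) ≤ 1 / ((z : ℝ) - 1) := by
    have : (2 : ℝ) ≤ z := by exact_mod_cast (hy.trans hyz)
    apply div_nonneg <;> linarith
  linarith

lemma dl0 (y : ℕ) : ∑ p ∈ pz y, 1 / ((p : ℝ) - 1) ^ 2 ≤ 2 := by
  rcases Nat.lt_or_ge y 2 with hy | hy
  · have : pz y = ∅ := by
      rw [eq_empty_iff_forall_notMem]
      intro p hp
      rw [mem_pz] at hp
      have := hp.2.two_le
      omega
    rw [this, sum_empty]
    norm_num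
  · have h1 : ∑ p ∈ pz y, 1 / ((p : ℝ) - 1) ^ 2 ≤ ∑ k ∈ insert 2 (Ioc 2 y), 1 / ((k : ℝ) - 1) ^ 2 := by
      apply sum_le_sum_of_subset_of_nonneg
      · intro p hp
        rw [mem_pz] at hp
        rw [mem_insert, mem_Ioc]
        have := hp.2.two_le
        omega
      · intro _ _ _
        positivity
    rw [sum_insert (by simp)] at h1
    have h2 := tele 2 le_rfl y hy
    have h3 : (0 : ℝ) ≤ 1 / ((y : ℝ) - 1) := by
      have : (2 : ℝ) ≤ y := by exact_mod_cast hy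
      apply div_nonneg <;> linarith
    rw [one_div] at h3
    norm_num at h1 h2
    norm_num
    linarith

/-- the difference of two singular series -/
lemma sing_diff (y z : ℕ) (hyz : y ≤ z) (h : ℤ) :
    |sing z h - sing y h| ≤ ∏ p ∈ pz z, gu h p - (1 - dl y z) * ∏ p ∈ pz y, gu h p := by
  obtain ⟨r, hr⟩ : ∃ r : ℝ, r = ∏ p ∈ pz z \ pz y, gp h p := ⟨_, rfl⟩
  obtain ⟨B, hB⟩ : ∃ B : ℝ, B = ∏ p ∈ pz z \ pz y, gu h p := ⟨_, rfl⟩
  obtain ⟨A, hA⟩ : ∃ A : ℝ, A = ∏ p ∈ pz y, gu h p := ⟨_, rfl⟩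
  have h1 : sing z h = r * sing y h := by
    unfold sing
    rw [hr, prod_sdiff (pz_mono hyz)]
  have h2 : ∏ p ∈ pz z, gu h p = B * A := by
    rw [hB, hA, prod_sdiff (pz_mono hyz)]
  have hpr : ∀ p ∈ pz z \ pz y, p.Prime := fun p hp => (mem_pz.1 (mem_sdiff.1 hp).1).2
  have h3 : r ≤ B := by
    rw [hr, hB]
    exact prod_le_prod (fun p hp => gp_nonneg h (hpr p hp)) (fun p hp => gp_le h (hpr p hp))
  have h4 : 1 ≤ B := by
    rw [hB]
    calc (1 : ℝ) = ∏ _p ∈ pz z \ pz y, (1 : ℝ) := by rw [prod_const_one]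
      _ ≤ _ := prod_le_prod (fun _ _ => zero_le_one) (fun p _ => gu_ge h p)
  have h5 : 1 - dl y z ≤ r := by
    rw [hr]
    have h0 : ∀ p ∈ pz z \ pz y, 1 / ((p : ℝ) - 1) ^ 2 ≤ 1 := by
      intro p hp
      have h2 : (2 : ℝ) ≤ p := by exact_mod_cast (hpr p hp).two_le
      rw [div_le_one (by nlinarith)]
      nlinarith
    refine (prod_ge (pz z \ pz y) (fun p : ℕ => 1 / ((p : ℝ) - 1) ^ 2) (fun p _ => by positivity) h0).1.trans ?_
    apply prod_le_prod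
    · intro p hp
      linarith [h0 p hp]
    · intro p hp
      exact gp_ge h (hpr p hp)
  have h6 : 0 ≤ sing y h := by
    unfold sing
    exact prod_nonneg fun p hp => gp_nonneg h (mem_pz.1 hp).2
  have h7 : sing y h ≤ A := by
    unfold sing
    rw [hA]
    exact prod_le_prod (fun p hp => gp_nonneg h (mem_pz.1 hp).2) (fun p hp => gp_le h (mem_pz.1 hp).2)
  have h8 := dl_nonneg y z
  rw [h1, h2, ← hA]
  have h9 : r * sing y h - sing y h = sing y h * (r - 1) := by ring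
  rw [h9, abs_mul, abs_of_nonneg h6]
  have h10 : |r - 1| ≤ B - 1 + dl y z := by
    rw [abs_le]
    constructor <;> linarith
  calc sing y h * |r - 1| ≤ A * (B - 1 + dl y z) := mul_le_mul h7 h10 (abs_nonneg _) (h6.trans h7)
    _ = _ := by ring

lemma few_sq (n1 : ℕ) (p : ℕ) (hp : p.Prime) :
    ((range p).filter (fun a : ℕ => (p : ℤ) ∣ (n1 : ℤ) ^ 2 - (a : ℤ) ^ 2)).card ≤ 2 := by
  have h1 : (range p).filter (fun a : ℕ => (p : ℤ) ∣ (n1 : ℤ) ^ 2 - (a : ℤ) ^ 2) ⊆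
      (range p).filter (fun r : ℕ => (p : ℤ) ∣ (-(n1 : ℤ)) + r - 0) ∪
        (range p).filter (fun r : ℕ => (p : ℤ) ∣ (n1 : ℤ) + r - 0) := by
    intro a ha
    rw [mem_union, mem_filter, mem_filter]
    rw [mem_filter] at ha
    have h2 : (n1 : ℤ) ^ 2 - (a : ℤ) ^ 2 = (-(-(n1 : ℤ) + a - 0)) * ((n1 : ℤ) + a - 0) := by ring
    have h3 := ha.2
    rw [h2] at h3
    have hp' : Prime (p : ℤ) := Nat.prime_iff_prime_int.1 hp
    rcases hp'.dvd_or_dvd h3 with h4 | h4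
    · exact Or.inl ⟨ha.1, (dvd_neg).1 h4⟩
    · exact Or.inr ⟨ha.1, h4⟩
  refine (card_le_card h1).trans ((card_union_le _ _).trans ?_)
  rw [one_root _ _ p hp, one_root _ _ p hp]

/-- squares in a class -/
lemma count_sq (N n1 : ℕ) (S : Finset ℕ) (hS : ∀ p ∈ S, p.Prime) :
    (((Icc 1 N).filter (fun n : ℕ => ∀ p ∈ S, (p : ℤ) ∣ (n1 : ℤ) ^ 2 - (n : ℤ) ^ 2)).card : ℝ) ≤
      N * ∏ p ∈ S, (2 / (p : ℝ)) + ∏ _p ∈ S, (2 : ℝ) := by
  have h3 := Pool.Agent.H373R2.T7.count_sys (fun p a => (p : ℤ) ∣ (n1 : ℤ) ^ 2 - (a : ℤ) ^ 2) N S hS 1 le_rfl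
    (fun p hp hd => (hS p hp).one_lt.ne' (Nat.dvd_one.1 hd)) 0
  have h4 := (abs_le.1 h3).2
  rw [Nat.cast_one, div_one] at h4
  refine le_trans ?_ (le_trans (sub_le_iff_le_add.1 h4) ?_)
  · apply le_of_eq
    congr 2
    ext n
    rw [mem_filter, mem_filter]
    apply and_congr_right
    intro _
    have e2 : ∀ p : ℕ, ((p : ℤ) ∣ (n1 : ℤ) ^ 2 - (n : ℤ) ^ 2 ↔ (p : ℤ) ∣ (n1 : ℤ) ^ 2 - ((n % p : ℕ) : ℤ) ^ 2) := by
      intro p
      have e3 : (n : ℤ) = ((n % p : ℕ) : ℤ) + p * (n / p : ℕ) := by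
        have := Nat.mod_add_div n p
        exact_mod_cast this.symm
      obtain ⟨r, hr⟩ : ∃ r : ℤ, r = ((n % p : ℕ) : ℤ) := ⟨_, rfl⟩
      obtain ⟨t, ht⟩ : ∃ t : ℤ, t = ((n / p : ℕ) : ℤ) := ⟨_, rfl⟩
      rw [← hr, ← ht] at e3
      rw [← hr]
      have e4 : (n1 : ℤ) ^ 2 - (n : ℤ) ^ 2 = ((n1 : ℤ) ^ 2 - r ^ 2) - p * (2 * r * t + p * t ^ 2) := by
        rw [e3]
        ring
      rw [e4]
      constructor
      · intro h
        exact (Int.dvd_iff_dvd_of_dvd_sub (Dvd.intro (2 * r * t + p * t ^ 2) (by ring))).2 h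
      · intro h
        exact dvd_sub h (Dvd.intro _ rfl)
    constructor
    · intro h
      exact ⟨Nat.modEq_one, fun p hp => (e2 p).1 (h p hp)⟩
    · rintro ⟨_, h⟩ p hp
      exact (e2 p).2 (h p hp)
  have h5 : ∏ p ∈ S, ((((range p).filter (fun a : ℕ => (p : ℤ) ∣ (n1 : ℤ) ^ 2 - (a : ℤ) ^ 2)).card : ℝ) / p) ≤
      ∏ p ∈ S, (2 / (p : ℝ)) := by
    apply prod_le_prod
    · intro p _
      positivity
    · intro p hp
      apply div_le_div_of_nonneg_right _ (Nat.cast_nonneg _)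
      exact_mod_cast few_sq n1 p (hS p hp)
  have h6 : ∏ p ∈ S, (((range p).filter (fun a : ℕ => (p : ℤ) ∣ (n1 : ℤ) ^ 2 - (a : ℤ) ^ 2)).card : ℝ) ≤
      ∏ _p ∈ S, (2 : ℝ) := by
    apply prod_le_prod
    · intro p _
      positivity
    · intro p hp
      exact_mod_cast few_sq n1 p (hS p hp)
  have h7 := mul_le_mul_of_nonneg_left h5 (Nat.cast_nonneg (α := ℝ) N)
  linarith

end Pool.Agent.U845.QR
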