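import Mathlib
import Pool.Agent.U845.QR5

/-! The difference of two sieve models along `n² + a`, with arbitrary weights, on average over `a`. -/

set_option autoImplicit false

namespace Pool.Agent.U845.QR

open Finset
open Pool.Agent.H373R2.T7 (pz Vz lamz mem_pz Vz_pos lamz_nonneg)

/-- expansion of the sum of the product -/
lemma sum_gu (N n1 : ℕ) (P : Finset ℕ) : ∑ n ∈ Icc 1 N, ∏ p ∈ P, gu ((n1 : ℤ) ^ 2 - (n : ℤ) ^ 2) p =
    ∑ S ∈ P.powerset, (∏ p ∈ S, Dp p) *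
      (((Icc 1 N).filter (fun n : ℕ => ∀ p ∈ S, (p : ℤ) ∣ (n1 : ℤ) ^ 2 - (n : ℤ) ^ 2)).card : ℝ) := by
  unfold gu
  have h1 : ∀ n ∈ Icc 1 N, ∏ p ∈ P, (1 + (if (p : ℤ) ∣ (n1 : ℤ) ^ 2 - (n : ℤ) ^ 2 then Dp p else 0)) =
      ∑ S ∈ P.powerset, if ∀ p ∈ S, (p : ℤ) ∣ (n1 : ℤ) ^ 2 - (n : ℤ) ^ 2 then ∏ p ∈ S, Dp p else 0 := by
    intro n _
    rw [prod_one_add]
    refine sum_congr rfl fun S _ => ?_
    rw [prod_ite_zero]
  rw [sum_congr rfl h1, sum_comm]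
  refine sum_congr rfl fun S _ => ?_
  rw [← sum_filter, sum_const, nsmul_eq_mul, mul_comm]

noncomputable def PA (P : Finset ℕ) : ℝ := ∏ p ∈ P, (1 + Dp p * (2 / (p : ℝ)))

noncomputable def PB (P : Finset ℕ) : ℝ := ∏ p ∈ P, (1 + Dp p * 2)

lemma sum_PA (N : ℝ) (P : Finset ℕ) :
    ∑ S ∈ P.powerset, (∏ p ∈ S, Dp p) * (N * ∏ p ∈ S, (2 / (p : ℝ)) + ∏ _p ∈ S, (2 : ℝ)) = N * PA P + PB P := by
  unfold PA PB
  rw [prod_one_add, prod_one_add, mul_sum, ← sum_add_distrib]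
  refine sum_congr rfl fun S _ => ?_
  rw [prod_mul_distrib, prod_mul_distrib]
  ring

/-- the average of the difference of the singular series -/
lemma sing_avg1 (N n1 y z : ℕ) (hyz : y ≤ z) (_hd : dl y z ≤ 1) :
    ∑ n ∈ Icc 1 N, |sing z ((n1 : ℤ) ^ 2 - (n : ℤ) ^ 2) - sing y ((n1 : ℤ) ^ 2 - (n : ℤ) ^ 2)| ≤
      (N * PA (pz z) + PB (pz z)) - (1 - dl y z) * (N * PA (pz y) + PB (pz y)) := by
  have h1 : ∑ n ∈ Icc 1 N, |sing z ((n1 : ℤ) ^ 2 - (n : ℤ) ^ 2) - sing y ((n1 : ℤ) ^ 2 - (n : ℤ) ^ 2)| ≤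
      ∑ n ∈ Icc 1 N, ∏ p ∈ pz z, gu ((n1 : ℤ) ^ 2 - (n : ℤ) ^ 2) p -
        (1 - dl y z) * ∑ n ∈ Icc 1 N, ∏ p ∈ pz y, gu ((n1 : ℤ) ^ 2 - (n : ℤ) ^ 2) p := by
    rw [mul_sum, ← sum_sub_distrib]
    exact sum_le_sum fun n _ => sing_diff y z hyz _
  refine h1.trans ?_
  rw [sum_gu, sum_gu, ← sum_PA, ← sum_PA]
  have hsub : (pz y).powerset ⊆ (pz z).powerset := powerset_mono.2 (pz_mono hyz)
  obtain ⟨f, hf⟩ : ∃ f : Finset ℕ → ℝ, f = fun S => (∏ p ∈ S, Dp p) *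
      (((Icc 1 N).filter (fun n : ℕ => ∀ p ∈ S, (p : ℤ) ∣ (n1 : ℤ) ^ 2 - (n : ℤ) ^ 2)).card : ℝ) := ⟨_, rfl⟩
  obtain ⟨g, hg⟩ : ∃ g : Finset ℕ → ℝ, g = fun S => (∏ p ∈ S, Dp p) *
      ((N : ℝ) * ∏ p ∈ S, (2 / (p : ℝ)) + ∏ _p ∈ S, (2 : ℝ)) := ⟨_, rfl⟩
  have hfg : ∀ S ∈ (pz z).powerset, f S ≤ g S := by
    intro S hS
    rw [mem_powerset] at hS
    rw [hf, hg]
    apply mul_le_mul_of_nonneg_left _ (prod_nonneg fun p _ => Dp_nonneg p)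
    exact count_sq N n1 S (fun p hp => (mem_pz.1 (hS hp)).2)
  have e1 : ∑ S ∈ (pz z).powerset, (∏ p ∈ S, Dp p) *
      (((Icc 1 N).filter (fun n : ℕ => ∀ p ∈ S, (p : ℤ) ∣ (n1 : ℤ) ^ 2 - (n : ℤ) ^ 2)).card : ℝ) =
      ∑ S ∈ (pz z).powerset, f S := by rw [hf]
  have e2 : ∑ S ∈ (pz y).powerset, (∏ p ∈ S, Dp p) *
      (((Icc 1 N).filter (fun n : ℕ => ∀ p ∈ S, (p : ℤ) ∣ (n1 : ℤ) ^ 2 - (n : ℤ) ^ 2)).card : ℝ) =
      ∑ S ∈ (pz y).powerset, f S := by rw [hf]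
  have e3 : ∑ S ∈ (pz z).powerset, (∏ p ∈ S, Dp p) *
      ((N : ℝ) * ∏ p ∈ S, (2 / (p : ℝ)) + ∏ _p ∈ S, (2 : ℝ)) = ∑ S ∈ (pz z).powerset, g S := by rw [hg]
  have e4 : ∑ S ∈ (pz y).powerset, (∏ p ∈ S, Dp p) *
      ((N : ℝ) * ∏ p ∈ S, (2 / (p : ℝ)) + ∏ _p ∈ S, (2 : ℝ)) = ∑ S ∈ (pz y).powerset, g S := by rw [hg]
  rw [e1, e2, e3, e4, ← sum_sdiff hsub (f := f), ← sum_sdiff hsub (f := g)]
  have h2 : ∑ S ∈ (pz z).powerset \ (pz y).powerset, f S ≤ ∑ S ∈ (pz z).powerset \ (pz y).powerset, g S :=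
    sum_le_sum fun S hS => hfg S (mem_sdiff.1 hS).1
  have h3 : ∑ S ∈ (pz y).powerset, f S ≤ ∑ S ∈ (pz y).powerset, g S :=
    sum_le_sum fun S hS => hfg S (hsub hS)
  have h4 := mul_le_mul_of_nonneg_left h3 (dl_nonneg y z)
  nlinarith

lemma PA_le (y z : ℕ) (hyz : y ≤ z) : PA (pz z) ≤ PA (pz y) * Real.exp (2 * dl y z) := by
  have h1 : PA (pz z) = PA (pz z \ pz y) * PA (pz y) := by
    unfold PA
    rw [prod_sdiff (pz_mono hyz)]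
  have h2 : PA (pz z \ pz y) ≤ Real.exp (2 * dl y z) := by
    unfold PA dl
    rw [mul_sum, Real.exp_sum]
    apply prod_le_prod
    · intro p _
      have := Dp_nonneg p
      positivity
    · intro p hp
      have hp' := (mem_pz.1 (mem_sdiff.1 hp).1).2
      have h2 : (2 : ℝ) ≤ p := by exact_mod_cast hp'.two_le
      have e1 : Dp p * (2 / (p : ℝ)) = 2 * (1 / ((p : ℝ) - 1) ^ 2) := by
        unfold Dp
        have : (p : ℝ) ≠ 0 := by linarith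
        have : (p : ℝ) - 1 ≠ 0 := by linarith
        field_simp
      rw [e1, add_comm]
      exact Real.add_one_le_exp _
  have h3 : 0 ≤ PA (pz y) := by
    unfold PA
    apply prod_nonneg
    intro p _
    have := Dp_nonneg p
    positivity
  rw [h1, mul_comm]
  exact mul_le_mul_of_nonneg_left h2 h3

lemma PA_bd (y : ℕ) : 0 ≤ PA (pz y) ∧ PA (pz y) ≤ Real.exp 4 := by
  constructor
  · unfold PA
    apply prod_nonneg
    intro p _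
    have := Dp_nonneg p
    positivity
  · have h1 : PA (pz y) ≤ Real.exp (2 * ∑ p ∈ pz y, 1 / ((p : ℝ) - 1) ^ 2) := by
      unfold PA
      rw [mul_sum, Real.exp_sum]
      apply prod_le_prod
      · intro p _
        have := Dp_nonneg p
        positivity
      · intro p hp
        have hp' := (mem_pz.1 hp).2
        have h2 : (2 : ℝ) ≤ p := by exact_mod_cast hp'.two_le
        have e1 : Dp p * (2 / (p : ℝ)) = 2 * (1 / ((p : ℝ) - 1) ^ 2) := by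
          unfold Dp
          have : (p : ℝ) ≠ 0 := by linarith
          have : (p : ℝ) - 1 ≠ 0 := by linarith
          field_simp
        rw [e1, add_comm]
        exact Real.add_one_le_exp _
    refine h1.trans (Real.exp_le_exp.2 ?_)
    linarith [dl0 y]

lemma PB_bd (z : ℕ) : 0 ≤ PB (pz z) ∧ PB (pz z) ≤ (Vz z)⁻¹ ^ 3 := by
  constructor
  · unfold PB
    apply prod_nonneg
    intro p _
    have := Dp_nonneg p
    positivity
  · unfold PB Vz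
    rw [← prod_inv_distrib, ← prod_pow]
    apply prod_le_prod
    · intro p _
      have := Dp_nonneg p
      positivity
    · intro p hp
      have hp' := (mem_pz.1 hp).2
      have h2 : (2 : ℝ) ≤ p := by exact_mod_cast hp'.two_le
      have h1 : (0 : ℝ) < (p : ℝ) - 1 := by linarith
      obtain ⟨t, ht⟩ : ∃ t : ℝ, t = 1 / ((p : ℝ) - 1) := ⟨_, rfl⟩
      have ht0 : 0 ≤ t := by rw [ht]; positivity
      have ep : (p : ℝ) ≠ 0 := by linarith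
      have e0 : (p : ℝ) - 1 ≠ 0 := h1.ne'
      have e1 : (1 - 1 / (p : ℝ))⁻¹ = 1 + t := by
        rw [ht]
        have : (1 - 1 / (p : ℝ)) = (p - 1) / p := by field_simp
        rw [this, inv_div]
        field_simp
        ring
      have e2 : Dp p * 2 = 2 * t + 2 * t ^ 2 := by
        rw [ht]
        unfold Dp
        field_simp
        ring
      rw [e1, e2]
      nlinarith [pow_nonneg ht0 3, pow_nonneg ht0 2]

lemma exp4_le : Real.exp 4 ≤ 55 := by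
  have h1 : Real.exp 4 = Real.exp 1 ^ 4 := by
    rw [← Real.exp_nat_mul]
    norm_num
  have h2 := Real.exp_one_lt_d9
  rw [h1]
  calc Real.exp 1 ^ 4 ≤ 2.7182818286 ^ 4 := pow_le_pow_left₀ (Real.exp_pos 1).le h2.le 4
    _ ≤ 55 := by norm_num

lemma sing_avg (N n1 y z : ℕ) (hy : 3 ≤ y) (hyz : y ≤ z) :
    ∑ n ∈ Icc 1 N, |sing z ((n1 : ℤ) ^ 2 - (n : ℤ) ^ 2) - sing y ((n1 : ℤ) ^ 2 - (n : ℤ) ^ 2)| ≤
      275 * N / ((y : ℝ) - 1) + (Vz z)⁻¹ ^ 3 := by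
  have hyr : (3 : ℝ) ≤ y := by exact_mod_cast hy
  have hd := dl_le y z (by omega) hyz
  have hd0 := dl_nonneg y z
  have hd1 : 1 / ((y : ℝ) - 1) ≤ 1 / 2 := by
    apply one_div_le_one_div_of_le (by norm_num)
    linarith
  refine (sing_avg1 N n1 y z hyz (by linarith)).trans ?_
  obtain ⟨δ, hδ⟩ : ∃ δ : ℝ, δ = dl y z := ⟨_, rfl⟩
  rw [← hδ] at hd hd0 ⊢
  have hA := PA_bd y
  have hB := PB_bd z
  have hB0 := PB_bd y
  have hPA := PA_le y z hyz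
  rw [← hδ] at hPA
  have hexp : Real.exp (2 * δ) ≤ 1 + 4 * δ := by
    have h1 : |2 * δ| ≤ 1 := by
      rw [abs_of_nonneg (by linarith)]
      linarith
    have h2 := Real.abs_exp_sub_one_sub_id_le h1
    have h3 := (abs_le.1 h2).2
    nlinarith
  have hN0 : (0 : ℝ) ≤ N := Nat.cast_nonneg N
  have h1 : PA (pz z) - (1 - δ) * PA (pz y) ≤ 5 * δ * 55 := by
    have e1 : PA (pz z) ≤ PA (pz y) * (1 + 4 * δ) := hPA.trans (mul_le_mul_of_nonneg_left hexp hA.1)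
    have e2 : PA (pz y) ≤ 55 := hA.2.trans exp4_le
    nlinarith
  have h2 : (N : ℝ) * (PA (pz z) - (1 - δ) * PA (pz y)) ≤ N * (5 * δ * 55) := mul_le_mul_of_nonneg_left h1 hN0
  have h3 : (N : ℝ) * (5 * δ * 55) ≤ 275 * N / ((y : ℝ) - 1) := by
    have : (N : ℝ) * (5 * δ * 55) = 275 * N * δ := by ring
    rw [this, div_eq_mul_one_div]
    exact mul_le_mul_of_nonneg_left hd (by positivity)
  have h4 : 0 ≤ (1 - δ) * PB (pz y) := mul_nonneg (by linarith) hB0.1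
  nlinarith [hB.2]

/-- the difference of the models -/
noncomputable def dm (y z : ℕ) (m : ℤ) : ℝ := lamz z m.natAbs - lamz y m.natAbs

/-- **the difference of two models**, with arbitrary weights -/
theorem l2_model (E C : ℕ) (y : ℕ) (hy : 3 ≤ y) : ∃ X0 : ℕ, ∀ X : ℕ, X0 ≤ X → ∀ N z : ℕ, y ≤ z →
    (z : ℝ) ≤ Real.log X ^ E → (X : ℝ) ≤ N ^ 2 * Real.log X ^ C → ∀ w : ℕ → ℝ, (∀ n, |w n| ≤ 1) →
    ∑ a ∈ Icc (-(X : ℤ)) X, (∑ n ∈ Icc 1 N, w n * dm y z ((n : ℤ) ^ 2 + a)) ^ 2 ≤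
      827 * (X * N ^ 2 / ((y : ℝ) - 1)) := by
  obtain ⟨m1, h1⟩ := corr E 1
  obtain ⟨m2, h2⟩ := Pool.Agent.H373R2.T7.Vz_inv_small E
  obtain ⟨m3, h3⟩ := Pool.Agent.H373R2.T7.ev_L' (4 * y + 3)
  obtain ⟨m4, h4⟩ := Pool.Agent.H373R2.T7.ev_log' (C + 3) (3 * y)
  refine ⟨m1 + m2 + m3 + m4 + 3, fun X hX N z hyz hzE hXN w hw => ?_⟩
  have hX3 : 3 ≤ X := by omega
  have hXr : (3 : ℝ) ≤ X := by exact_mod_cast hX3
  have hX0 : (0 : ℝ) < X := by linarith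
  have hyr : (3 : ℝ) ≤ y := by exact_mod_cast hy
  obtain ⟨L, hL⟩ : ∃ L : ℝ, L = Real.log X := ⟨_, rfl⟩
  have hL3 : 4 * (y : ℝ) + 3 ≤ L := by rw [hL]; exact h3 X (by omega)
  have hL0 : 0 < L := by linarith
  have hL1 : 1 ≤ L := by linarith
  have hsq := h4 X (by omega)
  have hc := h1 X (by omega)
  have hV := h2 X (by omega) z (by omega) hzE
  rw [← hL] at hXN hsq hV
  have hsX : √(X : ℝ) * √(X : ℝ) = X := Real.mul_self_sqrt hX0.le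
  have hs0 : 0 < √(X : ℝ) := Real.sqrt_pos.2 hX0
  -- `N ≥ 1`
  have hN1' : 1 ≤ N := by
    rcases Nat.eq_zero_or_pos N with h0 | h0
    · rw [h0] at hXN
      simp at hXN
      linarith
    · exact h0
  have hNr : (1 : ℝ) ≤ N := by exact_mod_cast hN1'
  -- `L ^ 3 ≤ N / (3 y)`
  have hLN : 3 * (y : ℝ) * L ^ 3 ≤ N := by
    have e1 : (3 * (y : ℝ) * L ^ 3) ^ 2 ≤ N ^ 2 := by
      have e2 : (3 * (y : ℝ) * L ^ (C + 3)) * (3 * (y : ℝ) * L ^ (C + 3)) ≤ √X * √X :=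
        mul_le_mul hsq hsq (by positivity) hs0.le
      rw [hsX] at e2
      have e3 : (3 * (y : ℝ) * L ^ (C + 3)) * (3 * (y : ℝ) * L ^ (C + 3)) = (3 * (y : ℝ) * L ^ 3) ^ 2 * (L ^ C * L ^ C) := by
        rw [pow_add]
        ring
      rw [e3] at e2
      have hLC : 1 ≤ L ^ C := one_le_pow₀ hL1
      have e4 : (3 * (y : ℝ) * L ^ 3) ^ 2 * (L ^ C * L ^ C) ≤ N ^ 2 * L ^ C := e2.trans hXN
      have e5 : (3 * (y : ℝ) * L ^ 3) ^ 2 * L ^ C ≤ N ^ 2 := by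
        have : ((3 * (y : ℝ) * L ^ 3) ^ 2 * L ^ C) * L ^ C ≤ N ^ 2 * L ^ C := by
          calc _ = (3 * (y : ℝ) * L ^ 3) ^ 2 * (L ^ C * L ^ C) := by ring
            _ ≤ _ := e4
        exact le_of_mul_le_mul_right this (by positivity)
      refine le_trans ?_ e5
      exact le_mul_of_one_le_right (by positivity) hLC
    have := abs_le_of_sq_le_sq' e1 (by linarith)
    exact this.2
  -- the expansion of the square
  have hexp : ∑ a ∈ Icc (-(X : ℤ)) X, (∑ n ∈ Icc 1 N, w n * dm y z ((n : ℤ) ^ 2 + a)) ^ 2 =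
      ∑ n1 ∈ Icc 1 N, ∑ n2 ∈ Icc 1 N, w n1 * w n2 *
        ∑ a ∈ Icc (-(X : ℤ)) X, dm y z ((n1 : ℤ) ^ 2 + a) * dm y z ((n2 : ℤ) ^ 2 + a) := by
    have e1 : ∀ a ∈ Icc (-(X : ℤ)) (X : ℤ), (∑ n ∈ Icc 1 N, w n * dm y z ((n : ℤ) ^ 2 + a)) ^ 2 =
        ∑ n1 ∈ Icc 1 N, ∑ n2 ∈ Icc 1 N, w n1 * w n2 * (dm y z ((n1 : ℤ) ^ 2 + a) * dm y z ((n2 : ℤ) ^ 2 + a)) := by
      intro a _
      rw [pow_two, sum_mul_sum]
      refine sum_congr rfl fun n1 _ => sum_congr rfl fun n2 _ => ?_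
      ring
    rw [sum_congr rfl e1, sum_comm]
    refine sum_congr rfl fun n1 _ => ?_
    rw [sum_comm]
    refine sum_congr rfl fun n2 _ => ?_
    rw [mul_sum]
  rw [hexp]
  -- one pair
  have hpair : ∀ n1 n2 : ℕ, |∑ a ∈ Icc (-(X : ℤ)) X, dm y z ((n1 : ℤ) ^ 2 + a) * dm y z ((n2 : ℤ) ^ 2 + a)| ≤
      (2 * X + 1) * |sing z ((n1 : ℤ) ^ 2 - (n2 : ℤ) ^ 2) - sing y ((n1 : ℤ) ^ 2 - (n2 : ℤ) ^ 2)| + 4 * (X / L) := by
    intro n1 n2
    have c1 := hc z z (by omega) le_rfl hzE ((n1 : ℤ) ^ 2) ((n2 : ℤ) ^ 2)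
    have hyE : (y : ℝ) ≤ Real.log X ^ E := (by exact_mod_cast hyz : (y : ℝ) ≤ z).trans hzE
    have c2 := hc y z (by omega) hyz hzE ((n1 : ℤ) ^ 2) ((n2 : ℤ) ^ 2)
    have c3 := hc y z (by omega) hyz hzE ((n2 : ℤ) ^ 2) ((n1 : ℤ) ^ 2)
    have c4 := hc y y (by omega) le_rfl hyE ((n1 : ℤ) ^ 2) ((n2 : ℤ) ^ 2)
    have hsym : sing y ((n2 : ℤ) ^ 2 - (n1 : ℤ) ^ 2) = sing y ((n1 : ℤ) ^ 2 - (n2 : ℤ) ^ 2) := by
      unfold sing
      refine prod_congr rfl fun p _ => ?_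
      unfold gp
      have : ((p : ℤ) ∣ (n2 : ℤ) ^ 2 - (n1 : ℤ) ^ 2) ↔ ((p : ℤ) ∣ (n1 : ℤ) ^ 2 - (n2 : ℤ) ^ 2) := by
        rw [← dvd_neg, neg_sub]
      simp only [this]
    rw [hsym] at c3
    rw [← hL, pow_one] at c1 c2 c3 c4
    have e1 : ∑ a ∈ Icc (-(X : ℤ)) X, dm y z ((n1 : ℤ) ^ 2 + a) * dm y z ((n2 : ℤ) ^ 2 + a) =
        ∑ a ∈ Icc (-(X : ℤ)) X, lamz z ((n1 : ℤ) ^ 2 + a).natAbs * lamz z ((n2 : ℤ) ^ 2 + a).natAbs -
        ∑ a ∈ Icc (-(X : ℤ)) X, lamz y ((n1 : ℤ) ^ 2 + a).natAbs * lamz z ((n2 : ℤ) ^ 2 + a).natAbs -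
        ∑ a ∈ Icc (-(X : ℤ)) X, lamz y ((n2 : ℤ) ^ 2 + a).natAbs * lamz z ((n1 : ℤ) ^ 2 + a).natAbs +
        ∑ a ∈ Icc (-(X : ℤ)) X, lamz y ((n1 : ℤ) ^ 2 + a).natAbs * lamz y ((n2 : ℤ) ^ 2 + a).natAbs := by
      rw [← sum_sub_distrib, ← sum_sub_distrib, ← sum_add_distrib]
      refine sum_congr rfl fun a _ => ?_
      unfold dm
      ring
    rw [e1]
    obtain ⟨s1, hs1⟩ : ∃ s : ℝ, s = sing z ((n1 : ℤ) ^ 2 - (n2 : ℤ) ^ 2) := ⟨_, rfl⟩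
    obtain ⟨s2, hs2⟩ : ∃ s : ℝ, s = sing y ((n1 : ℤ) ^ 2 - (n2 : ℤ) ^ 2) := ⟨_, rfl⟩
    rw [← hs1] at c1
    rw [← hs2] at c2 c3 c4
    rw [← hs1, ← hs2]
    have d1 := abs_le.1 c1
    have d2 := abs_le.1 c2
    have d3 := abs_le.1 c3
    have d4 := abs_le.1 c4
    have g1 : (2 * (X : ℝ) + 1) * |s1 - s2| = |(2 * (X : ℝ) + 1) * (s1 - s2)| := by
      rw [abs_mul, abs_of_pos (by linarith : (0 : ℝ) < 2 * X + 1)]
    rw [g1]
    have g2 := le_abs_self ((2 * (X : ℝ) + 1) * (s1 - s2))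
    have g3 := neg_abs_le ((2 * (X : ℝ) + 1) * (s1 - s2))
    rw [abs_le]
    constructor <;> linarith [d1.1, d1.2, d2.1, d2.2, d3.1, d3.2, d4.1, d4.2]
  calc ∑ n1 ∈ Icc 1 N, ∑ n2 ∈ Icc 1 N, w n1 * w n2 *
        ∑ a ∈ Icc (-(X : ℤ)) X, dm y z ((n1 : ℤ) ^ 2 + a) * dm y z ((n2 : ℤ) ^ 2 + a)
      ≤ ∑ n1 ∈ Icc 1 N, ∑ n2 ∈ Icc 1 N, ((2 * X + 1) *
          |sing z ((n1 : ℤ) ^ 2 - (n2 : ℤ) ^ 2) - sing y ((n1 : ℤ) ^ 2 - (n2 : ℤ) ^ 2)| + 4 * (X / L)) := by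
        refine sum_le_sum fun n1 _ => sum_le_sum fun n2 _ => ?_
        refine (le_abs_self _).trans ?_
        rw [abs_mul, abs_mul]
        have e1 : |w n1| * |w n2| ≤ 1 := mul_le_one₀ (hw n1) (abs_nonneg _) (hw n2)
        calc _ ≤ 1 * |∑ a ∈ Icc (-(X : ℤ)) X, dm y z ((n1 : ℤ) ^ 2 + a) * dm y z ((n2 : ℤ) ^ 2 + a)| :=
              mul_le_mul_of_nonneg_right e1 (abs_nonneg _)
          _ ≤ _ := by rw [one_mul]; exact hpair n1 n2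
    _ ≤ ∑ _n1 ∈ Icc 1 N, ((2 * X + 1) * (275 * N / ((y : ℝ) - 1) + L ^ 3) + N * (4 * (X / L))) := by
        refine sum_le_sum fun n1 _ => ?_
        rw [sum_add_distrib, ← mul_sum, sum_const, Nat.card_Icc, Nat.add_sub_cancel, nsmul_eq_mul]
        have e1 := sing_avg N n1 y z hy hyz
        have e2 : (Vz z)⁻¹ ^ 3 ≤ L ^ 3 := pow_le_pow_left₀ (inv_pos.2 (Vz_pos z)).le hV 3
        have e3 := mul_le_mul_of_nonneg_left (e1.trans (add_le_add_right e2 _)) (by linarith : (0 : ℝ) ≤ 2 * X + 1)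
        linarith
    _ = N * ((2 * X + 1) * (275 * N / ((y : ℝ) - 1) + L ^ 3) + N * (4 * (X / L))) := by
        rw [sum_const, Nat.card_Icc, Nat.add_sub_cancel, nsmul_eq_mul]
    _ ≤ N * (3 * X * (275 * N / ((y : ℝ) - 1) + L ^ 3) + N * (4 * (X / L))) := by
        apply mul_le_mul_of_nonneg_left _ (by linarith)
        have : 0 ≤ 275 * (N : ℝ) / ((y : ℝ) - 1) + L ^ 3 := by
          have : 0 ≤ 275 * (N : ℝ) / ((y : ℝ) - 1) := div_nonneg (by positivity) (by linarith)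
          positivity
        nlinarith
    _ ≤ _ := by
        have hy1 : (0 : ℝ) < (y : ℝ) - 1 := by linarith
        have e1 : 3 * (X : ℝ) * L ^ 3 ≤ X * N / ((y : ℝ) - 1) := by
          rw [le_div_iff₀ hy1]
          have : 3 * (X : ℝ) * L ^ 3 * ((y : ℝ) - 1) ≤ X * (3 * y * L ^ 3) := by
            have : 0 ≤ (X : ℝ) * L ^ 3 := by positivity
            nlinarith
          exact this.trans (mul_le_mul_of_nonneg_left hLN hX0.le)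
        have e2 : 4 * ((X : ℝ) / L) ≤ X / ((y : ℝ) - 1) := by
          rw [mul_div_assoc', div_le_div_iff₀ hL0 hy1]
          have : 4 * ((y : ℝ) - 1) ≤ L := by linarith
          nlinarith
        have e3 : (N : ℝ) * (3 * X * (275 * N / ((y : ℝ) - 1) + L ^ 3) + N * (4 * (X / L))) =
            825 * (X * N ^ 2 / ((y : ℝ) - 1)) + N * (3 * X * L ^ 3) + N * N * (4 * (X / L)) := by
          field_simp
          ring
        rw [e3]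
        have e4 : (N : ℝ) * (3 * X * L ^ 3) ≤ X * N ^ 2 / ((y : ℝ) - 1) := by
          calc (N : ℝ) * (3 * X * L ^ 3) ≤ N * (X * N / ((y : ℝ) - 1)) := mul_le_mul_of_nonneg_left e1 (by linarith)
            _ = _ := by ring
        have e5 : (N : ℝ) * N * (4 * (X / L)) ≤ X * N ^ 2 / ((y : ℝ) - 1) := by
          calc (N : ℝ) * N * (4 * (X / L)) ≤ N * N * (X / ((y : ℝ) - 1)) := mul_le_mul_of_nonneg_left e2 (by positivity)
            _ = _ := by ring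
        linarith

end Pool.Agent.U845.QR
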