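import Mathlib
import Pool.Agent.U845.QR3
import Pool.Agent.U845.QR6

/-! The primes and the sieve model with a fixed bound for the sieving primes. -/

set_option autoImplicit false

namespace Pool.Agent.U845.QR

open Finset Filter
open Pool.Agent.H373R2.T7 (pz Vz lamz mem_pz Vz_pos lamz_nonneg)

/-- a weak form of the theorem of Mertens -/
lemma Vz_log : ∃ C0 : ℝ, 0 < C0 ∧ ∀ z : ℕ, 3 ≤ z → (Vz z)⁻¹ ≤ C0 * Real.log z ^ 2 := by
  obtain ⟨C, hC⟩ := Pool.Agent.Helper256.KM.mertens_inv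
  refine ⟨Real.exp (2 * C), Real.exp_pos _, fun z h3 => ?_⟩
  have h4 := hC z h3
  have h5 : (Vz z)⁻¹ ≤ Real.exp (2 * ∑ p ∈ pz z, 1 / (p : ℝ)) := by
    unfold Vz
    rw [← prod_inv_distrib, mul_sum, Real.exp_sum]
    apply Finset.prod_le_prod
    · intro p hp
      have hp2 : (2 : ℝ) ≤ p := by exact_mod_cast (mem_pz.1 hp).2.two_le
      apply inv_nonneg.2
      rw [sub_nonneg, div_le_one (by linarith)]; linarith
    · intro p hp
      have hp2 : (2 : ℝ) ≤ p := by exact_mod_cast (mem_pz.1 hp).2.two_le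
      have h6 : (1 - 1 / (p : ℝ))⁻¹ ≤ 2 * (1 / p) + 1 := by
        rw [inv_le_iff_one_le_mul₀ (by rw [sub_pos, div_lt_one (by linarith)]; linarith)]
        have h7 : 0 < 1 / (p : ℝ) := by positivity
        have h8 : 1 / (p : ℝ) ≤ 1 / 2 := one_div_le_one_div_of_le (by norm_num) hp2
        nlinarith
      exact h6.trans (Real.add_one_le_exp _)
  have hz3 : (3 : ℝ) ≤ z := by exact_mod_cast h3
  have hlz : 1 ≤ Real.log z := by
    rw [← Real.log_exp 1]
    apply Real.log_le_log (Real.exp_pos _)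
    have := Real.exp_one_lt_d9
    linarith
  have h6 : ∑ p ∈ pz z, 1 / (p : ℝ) ≤ Real.log (Real.log z) + C := by
    have := (abs_le.1 h4).2
    unfold pz
    linarith
  refine h5.trans ?_
  calc Real.exp (2 * ∑ p ∈ pz z, 1 / (p : ℝ)) ≤ Real.exp (2 * C + (Real.log (Real.log z) + Real.log (Real.log z))) :=
        Real.exp_le_exp.2 (by linarith)
    _ = Real.exp (2 * C) * Real.log z ^ 2 := by
        rw [Real.exp_add, Real.exp_add, Real.exp_log (by linarith)]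
        ring

/-- the primes and the model with a fixed `y` -/
theorem l2_fix (C : ℕ) (y : ℕ) (hy : 3 ≤ y) : ∃ X0 : ℕ, ∀ X : ℕ, X0 ≤ X → ∀ N : ℕ,
    (N : ℝ) ^ 2 ≤ X * Real.log X ^ C → (X : ℝ) ≤ N ^ 2 * Real.log X ^ C → ∀ w : ℕ → ℝ, (∀ n, |w n| ≤ 1) →
    ∑ a ∈ Icc (-(X : ℤ)) X, (∑ n ∈ Icc 1 N, w n * df y ((n : ℤ) ^ 2 + a)) ^ 2 ≤
      1656 * (X * N ^ 2 / ((y : ℝ) - 1)) := by
  obtain ⟨B, hB⟩ := l2_log C 1
  obtain ⟨m1, h1⟩ := hB (B + 2)
  obtain ⟨m2, h2⟩ := l2_model (B + 2) C y hy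
  obtain ⟨m3, h3⟩ := Pool.Agent.H373R2.T7.ev_L' (y + 3)
  refine ⟨m1 + m2 + m3 + 3, fun X hX N hN1 hN2 w hw => ?_⟩
  have hX3 : 3 ≤ X := by omega
  have hXr : (3 : ℝ) ≤ X := by exact_mod_cast hX3
  have hX0 : (0 : ℝ) < X := by linarith
  have hyr : (3 : ℝ) ≤ y := by exact_mod_cast hy
  obtain ⟨L, hL⟩ : ∃ L : ℝ, L = Real.log X := ⟨_, rfl⟩
  have hL3 : (y : ℝ) + 3 ≤ L := by rw [hL]; exact h3 X (by omega)
  have hL0 : 0 < L := by linarith
  have hL1 : 1 ≤ L := by linarith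
  obtain ⟨z, hz⟩ : ∃ z : ℕ, z = ⌈L ^ (B + 1)⌉₊ := ⟨_, rfl⟩
  have hz1 : L ^ (B + 1) ≤ z := by rw [hz]; exact Nat.le_ceil _
  have hLB : 1 ≤ L ^ (B + 1) := one_le_pow₀ hL1
  have hz2 : (z : ℝ) ≤ L ^ (B + 2) := by
    have e1 : (z : ℝ) ≤ L ^ (B + 1) + 1 := by rw [hz]; exact (Nat.ceil_lt_add_one (by positivity)).le
    calc (z : ℝ) ≤ L ^ (B + 1) + 1 := e1
      _ ≤ L ^ (B + 1) * 2 := by linarith
      _ ≤ L ^ (B + 1) * L := mul_le_mul_of_nonneg_left (by linarith) (by positivity)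
      _ = _ := by ring
  have hz1' : L ^ B ≤ z := (pow_le_pow_right₀ hL1 (by omega)).trans hz1
  have hyz : y ≤ z := by
    have e1 : L ≤ L ^ (B + 1) := by
      calc L = L ^ 1 := (pow_one L).symm
        _ ≤ _ := pow_le_pow_right₀ hL1 (by omega)
    have e2 : (y : ℝ) ≤ z := by linarith
    exact_mod_cast e2
  have k1 := h1 X (by omega) N z hN1 hN2 (by rw [← hL]; exact hz1') (by rw [← hL]; exact hz2) w hw
  have k2 := h2 X (by omega) N z hyz (by rw [← hL]; exact hz2) hN2 w hw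
  rw [← hL, pow_one] at k1
  have hstep : ∑ a ∈ Icc (-(X : ℤ)) X, (∑ n ∈ Icc 1 N, w n * df y ((n : ℤ) ^ 2 + a)) ^ 2 ≤
      2 * ∑ a ∈ Icc (-(X : ℤ)) X, (∑ n ∈ Icc 1 N, w n * df z ((n : ℤ) ^ 2 + a)) ^ 2 +
      2 * ∑ a ∈ Icc (-(X : ℤ)) X, (∑ n ∈ Icc 1 N, w n * dm y z ((n : ℤ) ^ 2 + a)) ^ 2 := by
    rw [mul_sum, mul_sum, ← sum_add_distrib]
    refine sum_le_sum fun a _ => ?_
    have e1 : ∑ n ∈ Icc 1 N, w n * df y ((n : ℤ) ^ 2 + a) =
        ∑ n ∈ Icc 1 N, w n * df z ((n : ℤ) ^ 2 + a) + ∑ n ∈ Icc 1 N, w n * dm y z ((n : ℤ) ^ 2 + a) := by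
      rw [← sum_add_distrib]
      refine sum_congr rfl fun n _ => ?_
      unfold df dm
      ring
    rw [e1]
    nlinarith [sq_nonneg (∑ n ∈ Icc 1 N, w n * df z ((n : ℤ) ^ 2 + a) - ∑ n ∈ Icc 1 N, w n * dm y z ((n : ℤ) ^ 2 + a))]
  have hy1 : (0 : ℝ) < (y : ℝ) - 1 := by linarith
  have e2 : (X : ℝ) * N ^ 2 / L ≤ X * N ^ 2 / ((y : ℝ) - 1) := by
    apply div_le_div_of_nonneg_left (by positivity) hy1
    linarith
  linarith

/-- the primes with weight `2 log N` and with weight `Λ` -/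
noncomputable def lp (N m : ℕ) : ℝ :=
  |ArithmeticFunction.vonMangoldt m - (if m.Prime then 2 * Real.log N else 0)|

open ArithmeticFunction in
lemma sum_lp (η : ℝ) (hη : 0 < η) : ∃ N0 : ℕ, ∀ N : ℕ, N0 ≤ N → ∑ m ∈ Icc 1 (2 * N ^ 2), lp N m ≤ η * (N : ℝ) ^ 2 := by
  -- `π(x) log x - θ(x) ≤ η x / 8`, `π(x) ≤ η x / 8`, `ψ(x) - θ(x) ≤ η x / 8`
  obtain ⟨c1, hc1⟩ := Chebyshev.primeCounting_sub_theta_div_log_isBigO.bound
  have hlog : ∀ᶠ x : ℝ in atTop, 1 ≤ Real.log x := Real.tendsto_log_atTop.eventually_ge_atTop 1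
  have hlog2 : ∀ᶠ x : ℝ in atTop, 8 * |c1| / η ≤ Real.log x := Real.tendsto_log_atTop.eventually_ge_atTop _
  have hlog3 : ∀ᶠ x : ℝ in atTop, 8 * (Real.log 4 + 1) / η ≤ Real.log x := Real.tendsto_log_atTop.eventually_ge_atTop _
  have hpi := Chebyshev.eventually_primeCounting_le (one_pos)
  have hsq := (isLittleO_log_rpow_atTop (show (0 : ℝ) < 1 / 2 by norm_num)).bound (show 0 < η / 32 by positivity)
  have hall := hc1.and (hlog.and (hlog2.and (hlog3.and (hpi.and (hsq.and (eventually_ge_atTop (1 : ℝ)))))))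
  obtain ⟨x0, hx0⟩ := eventually_atTop.1 hall
  refine ⟨⌈x0⌉₊ + 1, fun N hN => ?_⟩
  have hN1 : 1 ≤ N := by omega
  have hNr : (1 : ℝ) ≤ N := by exact_mod_cast hN1
  obtain ⟨x, hx⟩ : ∃ x : ℝ, x = 2 * (N : ℝ) ^ 2 := ⟨_, rfl⟩
  have hxx0 : x0 ≤ x := by
    have e1 : x0 ≤ N := by
      have e2 : x0 ≤ ⌈x0⌉₊ := Nat.le_ceil _
      have e3 : (⌈x0⌉₊ : ℝ) ≤ N := by exact_mod_cast (by omega : ⌈x0⌉₊ ≤ N)
      linarith
    rw [hx]
    nlinarith
  obtain ⟨k1, k2, k3, k4, k5, k6, k7⟩ := hx0 x hxx0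
  have hx1 : 0 < x := by linarith
  have hfl : ⌊x⌋₊ = 2 * N ^ 2 := by
    rw [hx]
    have : (2 * (N : ℝ) ^ 2) = ((2 * N ^ 2 : ℕ) : ℝ) := by push_cast; ring
    rw [this, Nat.floor_natCast]
  have hlx0 : 0 < Real.log x := by linarith
  -- bounds
  have b1 : (Nat.primeCounting ⌊x⌋₊ : ℝ) * Real.log x - Chebyshev.theta x ≤ η / 8 * x := by
    rw [Real.norm_eq_abs, Real.norm_eq_abs, abs_of_nonneg (by positivity : 0 ≤ x / Real.log x ^ 2)] at k1
    have e1 := (le_abs_self _).trans k1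
    have e2 : (Nat.primeCounting ⌊x⌋₊ : ℝ) * Real.log x - Chebyshev.theta x =
        ((Nat.primeCounting ⌊x⌋₊ : ℝ) - Chebyshev.theta x / Real.log x) * Real.log x := by
      field_simp
    rw [e2]
    calc _ ≤ c1 * (x / Real.log x ^ 2) * Real.log x := mul_le_mul_of_nonneg_right e1 hlx0.le
      _ = c1 * x / Real.log x := by field_simp
      _ ≤ |c1| * x / Real.log x := by
          apply div_le_div_of_nonneg_right _ hlx0.le
          exact mul_le_mul_of_nonneg_right (le_abs_self _) hx1.le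
      _ ≤ η / 8 * x := by
          rw [div_le_iff₀ hlx0]
          rw [div_le_iff₀ hη] at k3
          nlinarith
  have b2 : (Nat.primeCounting ⌊x⌋₊ : ℝ) ≤ η / 8 * x := by
    refine k5.trans ?_
    rw [div_le_iff₀ hlx0]
    rw [div_le_iff₀ hη] at k4
    nlinarith
  have b3 : Chebyshev.psi x - Chebyshev.theta x ≤ η / 8 * x := by
    refine (Chebyshev.psi_sub_theta_le k7).trans ?_
    rw [Real.norm_eq_abs, Real.norm_eq_abs, abs_of_pos hlx0, abs_of_pos (by positivity), ← Real.sqrt_eq_rpow] at k6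
    have e1 : √x * √x = x := Real.mul_self_sqrt hx1.le
    have e2 : 0 ≤ √x := Real.sqrt_nonneg _
    calc 2 * √x * Real.log x ≤ 2 * √x * (η / 32 * √x) := mul_le_mul_of_nonneg_left k6 (by positivity)
      _ = η / 16 * (√x * √x) := by ring
      _ = η / 16 * x := by rw [e1]
      _ ≤ _ := by nlinarith
  -- the sum
  have hterm : ∀ m ∈ Icc 1 (2 * N ^ 2), lp N m ≤
      (if m.Prime then (Real.log x - Real.log m) + 1 else 0) + (if ¬ m.Prime then vonMangoldt m else 0) := by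
    intro m hm
    rw [mem_Icc] at hm
    have hm0 : (0 : ℝ) < m := by exact_mod_cast hm.1
    unfold lp
    by_cases hp : m.Prime
    · rw [if_pos hp, if_pos hp, if_neg (not_not.2 hp), vonMangoldt_apply_prime hp, add_zero]
      have e1 : Real.log m ≤ Real.log x := by
        apply Real.log_le_log hm0
        rw [hx]
        exact_mod_cast hm.2
      have e2 : Real.log x = Real.log 2 + 2 * Real.log N := by
        rw [hx, Real.log_mul (by norm_num) (by positivity), Real.log_pow]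
        push_cast
        ring
      have e3 : Real.log 2 ≤ 1 := by linarith [Real.log_two_lt_d9]
      have e4 : 0 ≤ Real.log 2 := by linarith [Real.log_two_gt_d9]
      rw [abs_le]
      constructor <;> linarith
    · rw [if_neg hp, if_neg hp, if_pos hp, sub_zero, zero_add, abs_of_nonneg vonMangoldt_nonneg]
  refine (sum_le_sum hterm).trans ?_
  rw [sum_add_distrib]
  have c2 : ∑ m ∈ Icc 1 (2 * N ^ 2), (if ¬ m.Prime then vonMangoldt m else 0) = Chebyshev.psi x - Chebyshev.theta x := by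
    rw [Chebyshev.psi_sub_theta_eq_sum_not_prime, hfl, sum_filter]
    rfl
  have c3 : ∑ m ∈ (Icc 1 (2 * N ^ 2) : Finset ℕ), (if m.Prime then (Real.log x - Real.log (m : ℝ)) + 1 else 0) =
      (Nat.primeCounting ⌊x⌋₊ : ℝ) * Real.log x - Chebyshev.theta x + Nat.primeCounting ⌊x⌋₊ := by
    rw [← sum_filter, sum_add_distrib, sum_sub_distrib, sum_const, sum_const, nsmul_eq_mul, nsmul_eq_mul, mul_one]
    have e1 : ((Icc 1 (2 * N ^ 2)).filter Nat.Prime).card = Nat.primeCounting ⌊x⌋₊ := by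
      rw [hfl, Nat.primeCounting, Nat.primeCounting', Nat.count_eq_card_filter_range]
      congr 1
      ext m
      rw [mem_filter, mem_filter, mem_Icc, mem_range]
      constructor
      · rintro ⟨h1, h2⟩
        exact ⟨by omega, h2⟩
      · rintro ⟨h1, h2⟩
        exact ⟨⟨h2.one_le, by omega⟩, h2⟩
    have e2 : ∑ m ∈ (Icc 1 (2 * N ^ 2)).filter Nat.Prime, Real.log (m : ℝ) = Chebyshev.theta x := by
      unfold Chebyshev.theta
      rw [hfl]
      rfl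
    rw [e1, e2]
  rw [c2, c3]
  have : η / 8 * x + η / 8 * x + η / 8 * x ≤ η * (N : ℝ) ^ 2 := by
    rw [hx]
    nlinarith [sq_nonneg (N : ℝ)]
  linarith

end Pool.Agent.U845.QR
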