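import Mathlib
import Pool.Agent.U845.QR7

/-! The primes along `n² + a` with arbitrary bounded weights, for almost all `a`. -/

set_option autoImplicit false

namespace Pool.Agent.U845.QR

open Finset
open Pool.Agent.H373R2.T7 (pz Vz lamz mem_pz Vz_pos lamz_nonneg)

/-- the sum of the weights over the prime values -/
noncomputable def Sw (w : ℕ → ℝ) (a : ℤ) (y : ℕ) : ℝ :=
  ∑ n ∈ (Icc 1 y).filter (fun n : ℕ => ((n : ℤ) ^ 2 + a).natAbs.Prime), w n

/-- the model -/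
noncomputable def Mw (z : ℕ) (w : ℕ → ℝ) (a : ℤ) (y : ℕ) : ℝ :=
  ∑ n ∈ Icc 1 y, w n * lamz z ((n : ℤ) ^ 2 + a).natAbs

noncomputable def Rw (z : ℕ) (w : ℕ → ℝ) (a : ℤ) (y : ℕ) : ℝ :=
  ∑ n ∈ Icc 1 y, w n * df z ((n : ℤ) ^ 2 + a)

noncomputable def E1 (N : ℕ) (a : ℤ) : ℝ := ∑ n ∈ Icc 1 N, lp N ((n : ℤ) ^ 2 + a).natAbs

lemma lp_nonneg (N m : ℕ) : 0 ≤ lp N m := abs_nonneg _

lemma sum_symR (f : ℤ → ℝ) (M : ℕ) : ∑ m ∈ Icc (-(M : ℤ)) M, f m = f 0 + ∑ n ∈ Icc 1 M, (f n + f (-(n : ℤ))) := by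
  induction M with
  | zero => simp
  | succ M ih =>
    have h1 : Icc (-((M + 1 : ℕ) : ℤ)) ((M + 1 : ℕ) : ℤ) =
        insert (-((M + 1 : ℕ) : ℤ)) (insert ((M + 1 : ℕ) : ℤ) (Icc (-(M : ℤ)) M)) := by
      ext m
      simp only [mem_insert, mem_Icc]
      push_cast
      omega
    have h2 : ((M + 1 : ℕ) : ℤ) ∉ Icc (-(M : ℤ)) M := by
      rw [mem_Icc]
      push_cast
      omega
    have h3 : -((M + 1 : ℕ) : ℤ) ∉ insert ((M + 1 : ℕ) : ℤ) (Icc (-(M : ℤ)) M) := by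
      rw [mem_insert, mem_Icc]
      push_cast
      omega
    rw [h1, sum_insert h3, sum_insert h2, ih, sum_Icc_succ_top (by omega)]
    ring

lemma E1_avg (η : ℝ) (hη : 0 < η) : ∃ N0 : ℕ, ∀ N : ℕ, N0 ≤ N →
    ∑ a ∈ Icc (-((N ^ 2 : ℕ) : ℤ)) ((N ^ 2 : ℕ) : ℤ), E1 N a ≤ η * (N : ℝ) ^ 3 := by
  obtain ⟨N0, h0⟩ := sum_lp (η / 2) (by positivity)
  refine ⟨N0, fun N hN => ?_⟩
  have h1 := h0 N hN
  unfold E1
  rw [sum_comm]
  have h2 : ∀ n ∈ Icc 1 N, ∑ a ∈ Icc (-((N ^ 2 : ℕ) : ℤ)) ((N ^ 2 : ℕ) : ℤ), lp N ((n : ℤ) ^ 2 + a).natAbs ≤ η * (N : ℝ) ^ 2 := by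
    intro n hn
    rw [mem_Icc] at hn
    have hnN : (n : ℤ) ^ 2 ≤ (N : ℤ) ^ 2 := by
      have : (n : ℤ) ≤ N := by exact_mod_cast hn.2
      exact pow_le_pow_left₀ (by positivity) this 2
    have hn0 : (0 : ℤ) ≤ (n : ℤ) ^ 2 := by positivity
    have e1 : ∑ a ∈ Icc (-((N ^ 2 : ℕ) : ℤ)) ((N ^ 2 : ℕ) : ℤ), lp N ((n : ℤ) ^ 2 + a).natAbs =
        ∑ m ∈ (Icc (-((N ^ 2 : ℕ) : ℤ)) ((N ^ 2 : ℕ) : ℤ)).image (fun a => (n : ℤ) ^ 2 + a), lp N m.natAbs := by
      rw [sum_image (fun x _ y _ h => by simpa using h)]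
    rw [e1]
    have e2 : ∑ m ∈ (Icc (-((N ^ 2 : ℕ) : ℤ)) ((N ^ 2 : ℕ) : ℤ)).image (fun a => (n : ℤ) ^ 2 + a), lp N m.natAbs ≤
        ∑ m ∈ Icc (-((2 * N ^ 2 : ℕ) : ℤ)) ((2 * N ^ 2 : ℕ) : ℤ), lp N m.natAbs := by
      apply sum_le_sum_of_subset_of_nonneg
      · intro m hm
        rw [mem_image] at hm
        obtain ⟨a, ha, rfl⟩ := hm
        rw [mem_Icc] at ha ⊢
        push_cast at ha ⊢
        constructor <;> linarith [ha.1, ha.2]
      · intro m _ _
        exact lp_nonneg _ _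
    refine e2.trans ?_
    rw [sum_symR]
    have e3 : lp N (0 : ℤ).natAbs = 0 := by
      unfold lp
      simp [Nat.not_prime_zero]
    rw [e3, zero_add]
    have e4 : ∑ m ∈ Icc 1 (2 * N ^ 2), (lp N ((m : ℕ) : ℤ).natAbs + lp N (-((m : ℕ) : ℤ)).natAbs) =
        2 * ∑ m ∈ Icc 1 (2 * N ^ 2), lp N m := by
      rw [mul_sum]
      refine sum_congr rfl fun m _ => ?_
      rw [Int.natAbs_neg, Int.natAbs_natCast]
      ring
    rw [e4]
    linarith
  refine (sum_le_sum h2).trans (le_of_eq ?_)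
  rw [sum_const, Nat.card_Icc, Nat.add_sub_cancel, nsmul_eq_mul]
  ring

lemma main_split (z N : ℕ) (w : ℕ → ℝ) (hw : ∀ n, |w n| ≤ 1) (a : ℤ) (y : ℕ) (hy : y ≤ N) :
    |2 * Real.log N * Sw w a y - Mw z w a y| ≤ |Rw z w a y| + E1 N a := by
  have h1 : 2 * Real.log N * Sw w a y - Mw z w a y = Rw z w a y -
      ∑ n ∈ Icc 1 y, w n * (ArithmeticFunction.vonMangoldt ((n : ℤ) ^ 2 + a).natAbs -
        (if ((n : ℤ) ^ 2 + a).natAbs.Prime then 2 * Real.log N else 0)) := by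
    unfold Sw Mw Rw df
    rw [sum_filter, mul_sum, ← sum_sub_distrib, ← sum_sub_distrib]
    refine sum_congr rfl fun n _ => ?_
    split_ifs <;> ring
  rw [h1]
  refine (abs_sub _ _).trans (add_le_add_right ?_ _)
  refine (abs_sum_le_sum_abs _ _).trans ?_
  have h2 : ∑ n ∈ Icc 1 y, |w n * (ArithmeticFunction.vonMangoldt ((n : ℤ) ^ 2 + a).natAbs -
        (if ((n : ℤ) ^ 2 + a).natAbs.Prime then 2 * Real.log N else 0))| ≤ ∑ n ∈ Icc 1 y, lp N ((n : ℤ) ^ 2 + a).natAbs := by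
    refine sum_le_sum fun n _ => ?_
    rw [abs_mul]
    unfold lp
    exact mul_le_of_le_one_left (abs_nonneg _) (hw n)
  refine h2.trans ?_
  unfold E1
  apply sum_le_sum_of_subset_of_nonneg
  · exact Icc_subset_Icc_right hy
  · intro _ _ _
    exact lp_nonneg _ _

lemma sum_Icc_split (f : ℕ → ℝ) (u y : ℕ) (h : u ≤ y) : ∑ n ∈ Icc 1 y, f n = ∑ n ∈ Icc 1 u, f n + ∑ n ∈ Ioc u y, f n := by
  have h1 : Icc 1 y = Icc 1 u ∪ Ioc u y := by
    ext n
    rw [mem_union, mem_Icc, mem_Icc, mem_Ioc]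
    omega
  rw [h1, sum_union]
  rw [disjoint_left]
  intro n h2 h3
  rw [mem_Icc] at h2
  rw [mem_Ioc] at h3
  omega

/-- from the grid to all `y` -/
lemma grid (z N K : ℕ) (hK : 1 ≤ K) (w : ℕ → ℝ) (hw : ∀ n, |w n| ≤ 1) (a : ℤ) (t : ℝ)
    (h1 : ∀ j ≤ K, |Rw z w a (j * N / K)| ≤ t) (h2 : ∀ j ≤ K, |Rw z (fun _ => 1) a (j * N / K)| ≤ t) (y : ℕ) (hy : y ≤ N) :
    |Rw z w a y| ≤ 3 * t + 2 * (Vz z)⁻¹ * (N / K + 1) := by
  have ht : 0 ≤ t := (abs_nonneg _).trans (h1 0 (by omega))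
  have hV := (inv_pos.2 (Vz_pos z)).le
  have hKr : (0 : ℝ) < K := by exact_mod_cast hK
  rcases Nat.lt_or_ge y N with hyN | hyN
  · obtain ⟨j, hj⟩ : ∃ j : ℕ, j = y * K / N := ⟨_, rfl⟩
    have hN0 : 0 < N := by omega
    have hjK : j < K := by
      rw [hj, Nat.div_lt_iff_lt_mul hN0]
      calc y * K < N * K := Nat.mul_lt_mul_of_pos_right hyN hK
        _ = K * N := mul_comm _ _
    have g1 : j * N / K ≤ y := by
      have : j * N ≤ y * K := by rw [hj]; exact Nat.div_mul_le_self _ _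
      exact (Nat.div_le_iff_le_mul_add_pred hK).2 (by rw [mul_comm K y]; omega)
    have g2 : y ≤ (j + 1) * N / K := by
      rw [Nat.le_div_iff_mul_le hK]
      have : y * K < (y * K / N + 1) * N := by
        have := Nat.lt_div_mul_add (a := y * K) hN0
        linarith
      rw [← hj] at this
      omega
    have g3 : (((j + 1) * N / K : ℕ) : ℝ) - ((j * N / K : ℕ) : ℝ) ≤ N / K + 1 := by
      have e1 : (((j + 1) * N / K : ℕ) : ℝ) ≤ ((j + 1 : ℕ) * N : ℕ) / (K : ℝ) := Nat.cast_div_le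
      have e2 : ((j * N : ℕ) : ℝ) / K < ((j * N / K : ℕ) : ℝ) + 1 := by
        rw [div_lt_iff₀ hKr]
        have := Nat.lt_div_mul_add (a := j * N) hK
        have e3 : j * N < (j * N / K + 1) * K := by linarith
        exact_mod_cast e3
      push_cast at e1 e2
      have e3 : ((j : ℝ) + 1) * N / K = j * N / K + N / K := by ring
      rw [e3] at e1
      linarith
    obtain ⟨u, hu⟩ : ∃ u : ℕ, u = j * N / K := ⟨_, rfl⟩
    obtain ⟨v, hv⟩ : ∃ v : ℕ, v = (j + 1) * N / K := ⟨_, rfl⟩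
    have k1 := h1 j hjK.le
    have k2 := h2 j hjK.le
    have k3 := h2 (j + 1) hjK
    rw [← hu] at k1 k2 g1 g3
    rw [← hv] at k3 g2 g3
    have hR : Rw z w a y = Rw z w a u + ∑ n ∈ Ioc u y, w n * df z ((n : ℤ) ^ 2 + a) := by
      unfold Rw
      rw [sum_Icc_split _ u y g1]
    have hR2 : Rw z (fun _ => 1) a v = Rw z (fun _ => 1) a u + ∑ n ∈ Ioc u v, df z ((n : ℤ) ^ 2 + a) := by
      unfold Rw
      rw [sum_Icc_split _ u v (g1.trans g2)]
      simp only [one_mul]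
    have e4 : |∑ n ∈ Ioc u y, w n * df z ((n : ℤ) ^ 2 + a)| ≤
        ∑ n ∈ Ioc u v, (df z ((n : ℤ) ^ 2 + a) + 2 * lamz z ((n : ℤ) ^ 2 + a).natAbs) := by
      refine (abs_sum_le_sum_abs _ _).trans ?_
      have e5 : ∀ n : ℕ, |w n * df z ((n : ℤ) ^ 2 + a)| ≤ df z ((n : ℤ) ^ 2 + a) + 2 * lamz z ((n : ℤ) ^ 2 + a).natAbs := by
        intro n
        rw [abs_mul]
        refine (mul_le_of_le_one_left (abs_nonneg _) (hw n)).trans ?_
        unfold df
        have f1 : 0 ≤ ArithmeticFunction.vonMangoldt ((n : ℤ) ^ 2 + a).natAbs := ArithmeticFunction.vonMangoldt_nonneg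
        have f2 := lamz_nonneg z ((n : ℤ) ^ 2 + a).natAbs
        rw [abs_le]
        constructor <;> linarith
      refine (sum_le_sum fun n _ => e5 n).trans ?_
      apply sum_le_sum_of_subset_of_nonneg
      · exact Ioc_subset_Ioc_right g2
      · intro n _ _
        exact (abs_nonneg _).trans (e5 n)
    rw [sum_add_distrib, ← mul_sum] at e4
    have e6 : ∑ n ∈ Ioc u v, lamz z ((n : ℤ) ^ 2 + a).natAbs ≤ (Vz z)⁻¹ * (N / K + 1) := by
      calc ∑ n ∈ Ioc u v, lamz z ((n : ℤ) ^ 2 + a).natAbs ≤ ∑ _n ∈ Ioc u v, (Vz z)⁻¹ := by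
            refine sum_le_sum fun n _ => ?_
            unfold lamz
            split_ifs
            · exact le_rfl
            · exact hV
        _ = (v - u : ℝ) * (Vz z)⁻¹ := by
            rw [sum_const, Nat.card_Ioc, nsmul_eq_mul, Nat.cast_sub (g1.trans g2)]
        _ ≤ (N / K + 1) * (Vz z)⁻¹ := mul_le_mul_of_nonneg_right g3 hV
        _ = _ := mul_comm _ _
    rw [hR]
    have e7 := abs_add_le (Rw z w a u) (∑ n ∈ Ioc u y, w n * df z ((n : ℤ) ^ 2 + a))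
    have k2' := (abs_le.1 k2).1
    have k3' := (abs_le.1 k3).2
    linarith
  · have : y = N := by omega
    have k1 := h1 K le_rfl
    rw [mul_comm K N, Nat.mul_div_cancel _ hK] at k1
    rw [this]
    have : 0 ≤ 2 * (Vz z)⁻¹ * ((N : ℝ) / K + 1) := by positivity
    linarith

open Classical in
/-- Markov's inequality -/
lemma markov (A : Finset ℤ) (f : ℤ → ℝ) (T t : ℝ) (ht : 0 < t) (h : ∑ a ∈ A, f a ^ 2 ≤ T) :
    ((A.filter (fun a => t < |f a|)).card : ℝ) ≤ T / t ^ 2 := by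
  rw [le_div_iff₀ (by positivity)]
  calc ((A.filter (fun a => t < |f a|)).card : ℝ) * t ^ 2 = ∑ _a ∈ A.filter (fun a => t < |f a|), t ^ 2 := by
        rw [sum_const, nsmul_eq_mul]
    _ ≤ ∑ a ∈ A.filter (fun a => t < |f a|), f a ^ 2 := by
        refine sum_le_sum fun a ha => ?_
        rw [mem_filter] at ha
        rw [← sq_abs (f a)]
        exact pow_le_pow_left₀ ht.le ha.2.le 2
    _ ≤ ∑ a ∈ A, f a ^ 2 := sum_le_sum_of_subset_of_nonneg (filter_subset _ _) (fun _ _ _ => by positivity)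
    _ ≤ T := h

open Classical in
lemma markov1 (A : Finset ℤ) (f : ℤ → ℝ) (hf : ∀ a, 0 ≤ f a) (T t : ℝ) (ht : 0 < t) (h : ∑ a ∈ A, f a ≤ T) :
    ((A.filter (fun a => t < f a)).card : ℝ) ≤ T / t := by
  rw [le_div_iff₀ ht]
  calc ((A.filter (fun a => t < f a)).card : ℝ) * t = ∑ _a ∈ A.filter (fun a => t < f a), t := by
        rw [sum_const, nsmul_eq_mul]
    _ ≤ ∑ a ∈ A.filter (fun a => t < f a), f a := by
        refine sum_le_sum fun a ha => ?_
        rw [mem_filter] at ha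
        exact ha.2.le
    _ ≤ ∑ a ∈ A, f a := sum_le_sum_of_subset_of_nonneg (filter_subset _ _) (fun _ _ _ => hf _)
    _ ≤ T := h

/-- truncated weights -/
lemma Rw_trunc (z : ℕ) (w : ℕ → ℝ) (a : ℤ) (u N : ℕ) (hu : u ≤ N) :
    Rw z w a u = ∑ n ∈ Icc 1 N, (if n ≤ u then w n else 0) * df z ((n : ℤ) ^ 2 + a) := by
  unfold Rw
  rw [sum_Icc_split _ u N hu]
  have h1 : ∑ n ∈ Ioc u N, (if n ≤ u then w n else 0) * df z ((n : ℤ) ^ 2 + a) = 0 := by
    apply sum_eq_zero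
    intro n hn
    rw [mem_Ioc] at hn
    rw [if_neg (by omega), zero_mul]
  rw [h1, add_zero]
  refine sum_congr rfl fun n hn => ?_
  rw [mem_Icc] at hn
  rw [if_pos hn.2]

lemma Vz_small (c : ℝ) (hc : 0 < c) (k : ℕ) : ∃ z0 : ℕ, ∀ z : ℕ, z0 ≤ z → (Vz z)⁻¹ ^ k ≤ c * ((z : ℝ) - 1) := by
  obtain ⟨C0, hC0, hV⟩ := Vz_log
  have h1 := (Real.isLittleO_pow_log_id_atTop (n := 2 * k)).bound (show (0 : ℝ) < c / (2 * C0 ^ k) by positivity)
  obtain ⟨z0, h0⟩ := Filter.eventually_atTop.1 ((tendsto_natCast_atTop_atTop (R := ℝ)).eventually h1)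
  refine ⟨z0 + 3, fun z hz => ?_⟩
  have h2 := h0 z (by omega)
  have h3 := hV z (by omega)
  have hz3 : (3 : ℝ) ≤ z := by exact_mod_cast (by omega : 3 ≤ z)
  have hl0 : 0 ≤ Real.log z := Real.log_nonneg (by linarith)
  simp only [id] at h2
  rw [Real.norm_of_nonneg (by positivity), Real.norm_of_nonneg (by positivity)] at h2
  have h4 : (Vz z)⁻¹ ^ k ≤ (C0 * Real.log z ^ 2) ^ k := pow_le_pow_left₀ (inv_pos.2 (Vz_pos z)).le h3 k
  have h5 : (C0 * Real.log z ^ 2) ^ k = C0 ^ k * Real.log z ^ (2 * k) := by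
    rw [mul_pow, ← pow_mul]
  rw [h5] at h4
  have h6 : C0 ^ k * Real.log z ^ (2 * k) ≤ C0 ^ k * (c / (2 * C0 ^ k) * z) := mul_le_mul_of_nonneg_left h2 (by positivity)
  have h7 : C0 ^ k * (c / (2 * C0 ^ k) * z) = c * (z / 2) := by
    field_simp
  rw [h7] at h6
  refine h4.trans (h6.trans ?_)
  apply mul_le_mul_of_nonneg_left _ hc.le
  linarith

lemma Vz_inv_ge_one (z : ℕ) : 1 ≤ (Vz z)⁻¹ := by
  rw [one_le_inv₀ (Vz_pos z)]
  exact Pool.Agent.H373R2.T7.Vz_le_one z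

open Classical in
/-- **Arbitrary weights.** -/
theorem weights (ε : ℝ) (hε : 0 < ε) : ∃ z0 : ℕ, ∀ z : ℕ, z0 ≤ z → ∃ N0 : ℕ, ∀ N : ℕ, N0 ≤ N → ∀ w : ℕ → ℝ, (∀ n, |w n| ≤ 1) →
    ∃ Ex : Finset ℤ, Ex ⊆ Icc (-((N ^ 2 : ℕ) : ℤ)) ((N ^ 2 : ℕ) : ℤ) ∧ (Ex.card : ℝ) ≤ ε * (N : ℝ) ^ 2 ∧
    ∀ a ∈ Icc (-((N ^ 2 : ℕ) : ℤ)) ((N ^ 2 : ℕ) : ℤ), a ∉ Ex → E1 N a ≤ ε * N ∧
      ∀ y ≤ N, |Rw z w a y| ≤ ε * N ∧ |2 * Real.log N * Sw w a y - Mw z w a y| ≤ ε * N := by
  -- reduce to `ε ≤ 1`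
  obtain ⟨e, he⟩ : ∃ e : ℝ, e = min ε 1 := ⟨_, rfl⟩
  have he0 : 0 < e := by rw [he]; exact lt_min hε one_pos
  have he1 : e ≤ 1 := by rw [he]; exact min_le_right _ _
  have heε : e ≤ ε := by rw [he]; exact min_le_left _ _
  obtain ⟨z1, hz1⟩ := Vz_small (e ^ 4 / (4 * 18 * 1656 * 64)) (by positivity) 1
  refine ⟨z1 + 3, fun z hz => ?_⟩
  have hzV := hz1 z (by omega)
  rw [pow_one] at hzV
  have hz3 : (3 : ℝ) ≤ z := by exact_mod_cast (by omega : 3 ≤ z)
  obtain ⟨m1, h1⟩ := l2_fix 0 z (by omega)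
  obtain ⟨m2, h2⟩ := E1_avg (e * e / 16) (by positivity)
  obtain ⟨V, hV⟩ : ∃ V : ℝ, V = (Vz z)⁻¹ := ⟨_, rfl⟩
  have hV1 : 1 ≤ V := by rw [hV]; exact Vz_inv_ge_one z
  obtain ⟨K, hK⟩ : ∃ K : ℕ, K = ⌈16 * V / e⌉₊ := ⟨_, rfl⟩
  refine ⟨m1 + m2 + ⌈16 * V / e⌉₊ + 1, fun N hN w hw => ?_⟩
  have hN1 : 1 ≤ N := by omega
  have hNr : (1 : ℝ) ≤ N := by exact_mod_cast hN1
  have hN0 : (0 : ℝ) < N := by linarith
  have hNV : 16 * V / e ≤ N := by
    refine (Nat.le_ceil _).trans ?_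
    exact_mod_cast (by omega : ⌈16 * V / e⌉₊ ≤ N)
  have hK1 : 16 * V / e ≤ K := by rw [hK]; exact Nat.le_ceil _
  have hKpos : 1 ≤ K := by
    rw [hK, Nat.one_le_ceil_iff]
    positivity
  have hK2 : (K : ℝ) + 1 ≤ 18 * V / e := by
    have e1 : (K : ℝ) ≤ 16 * V / e + 1 := by rw [hK]; exact (Nat.ceil_lt_add_one (by positivity)).le
    have e2 : 1 ≤ V / e := by
      rw [le_div_iff₀ he0]
      linarith
    have e3 : 18 * V / e = 16 * V / e + (V / e + V / e) := by ring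
    linarith
  have hN2N : N ≤ N ^ 2 := by nlinarith
  obtain ⟨t, ht⟩ : ∃ t : ℝ, t = e / 8 * N := ⟨_, rfl⟩
  have ht0 : 0 < t := by rw [ht]; positivity
  obtain ⟨A, hA⟩ : ∃ A : Finset ℤ, A = Icc (-((N ^ 2 : ℕ) : ℤ)) ((N ^ 2 : ℕ) : ℤ) := ⟨_, rfl⟩
  have hz1' : (0 : ℝ) < (z : ℝ) - 1 := by linarith
  -- the mean squares
  have hms : ∀ v : ℕ → ℝ, (∀ n, |v n| ≤ 1) → ∀ u ≤ N, ((A.filter (fun a => t < |Rw z v a u|)).card : ℝ) ≤
      1656 * ((N : ℝ) ^ 2 * N ^ 2 / ((z : ℝ) - 1)) / t ^ 2 := by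
    intro v hv u hu
    apply markov A (fun a => Rw z v a u) _ t ht0
    have k1 := h1 (N ^ 2) (by omega) N (by push_cast; rw [pow_zero, mul_one]) (by push_cast; rw [pow_zero, mul_one])
      (fun n => if n ≤ u then v n else 0) (fun n => by
        split_ifs
        · exact hv n
        · simp)
    push_cast at k1
    refine le_trans (le_of_eq ?_) k1
    rw [hA]
    push_cast
    refine sum_congr rfl fun a _ => ?_
    rw [Rw_trunc z v a u N hu]
  have hgr : ∀ j ≤ K, j * N / K ≤ N := by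
    intro j hj
    calc j * N / K ≤ K * N / K := Nat.div_le_div_right (Nat.mul_le_mul_right _ hj)
      _ = N := by rw [mul_comm, Nat.mul_div_cancel _ hKpos]
  refine ⟨(range (K + 1)).biUnion (fun j => A.filter (fun a => t < |Rw z w a (j * N / K)|)) ∪
    (range (K + 1)).biUnion (fun j => A.filter (fun a => t < |Rw z (fun _ => 1) a (j * N / K)|)) ∪
    A.filter (fun a => t < E1 N a), ?_, ?_, ?_⟩
  · rw [← hA]
    intro a ha
    rw [mem_union, mem_union, mem_biUnion, mem_biUnion] at ha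
    rcases ha with (⟨j, _, h⟩ | ⟨j, _, h⟩) | h
    · exact (mem_filter.1 h).1
    · exact (mem_filter.1 h).1
    · exact (mem_filter.1 h).1
  · have c1 : (((range (K + 1)).biUnion (fun j => A.filter (fun a => t < |Rw z w a (j * N / K)|))).card : ℝ) ≤
        (K + 1) * (1656 * ((N : ℝ) ^ 2 * N ^ 2 / ((z : ℝ) - 1)) / t ^ 2) := by
      have c0 : (((range (K + 1)).biUnion (fun j => A.filter (fun a => t < |Rw z w a (j * N / K)|))).card : ℝ) ≤
          ∑ j ∈ range (K + 1), ((A.filter (fun a => t < |Rw z w a (j * N / K)|)).card : ℝ) := by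
        exact_mod_cast card_biUnion_le
      refine c0.trans ?_
      calc _ ≤ ∑ _j ∈ range (K + 1), 1656 * ((N : ℝ) ^ 2 * N ^ 2 / ((z : ℝ) - 1)) / t ^ 2 := by
            refine sum_le_sum fun j hj => ?_
            rw [mem_range] at hj
            exact hms w hw _ (hgr j (by omega))
        _ = _ := by
            rw [sum_const, card_range, nsmul_eq_mul]
            push_cast
            ring
    have c2 : (((range (K + 1)).biUnion (fun j => A.filter (fun a => t < |Rw z (fun _ => 1) a (j * N / K)|))).card : ℝ) ≤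
        (K + 1) * (1656 * ((N : ℝ) ^ 2 * N ^ 2 / ((z : ℝ) - 1)) / t ^ 2) := by
      have c0 : (((range (K + 1)).biUnion (fun j => A.filter (fun a => t < |Rw z (fun _ => 1) a (j * N / K)|))).card : ℝ) ≤
          ∑ j ∈ range (K + 1), ((A.filter (fun a => t < |Rw z (fun _ => 1) a (j * N / K)|)).card : ℝ) := by
        exact_mod_cast card_biUnion_le
      refine c0.trans ?_
      calc _ ≤ ∑ _j ∈ range (K + 1), 1656 * ((N : ℝ) ^ 2 * N ^ 2 / ((z : ℝ) - 1)) / t ^ 2 := by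
            refine sum_le_sum fun j hj => ?_
            rw [mem_range] at hj
            exact hms (fun _ => 1) (fun _ => by simp) _ (hgr j (by omega))
        _ = _ := by
            rw [sum_const, card_range, nsmul_eq_mul]
            push_cast
            ring
    have c3 : ((A.filter (fun a => t < E1 N a)).card : ℝ) ≤ e * e / 16 * (N : ℝ) ^ 3 / t := by
      apply markov1 A (fun a => E1 N a) (fun a => sum_nonneg fun _ _ => lp_nonneg _ _) _ t ht0
      rw [hA]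
      exact h2 N (by omega)
    have c4 : e * e / 16 * (N : ℝ) ^ 3 / t = e / 2 * (N : ℝ) ^ 2 := by
      rw [ht]
      field_simp
      ring
    have c5 : ((K : ℝ) + 1) * (1656 * ((N : ℝ) ^ 2 * N ^ 2 / ((z : ℝ) - 1)) / t ^ 2) ≤ e / 4 * (N : ℝ) ^ 2 := by
      have e1 : 1656 * ((N : ℝ) ^ 2 * N ^ 2 / ((z : ℝ) - 1)) / t ^ 2 = 1656 * 64 / (e ^ 2 * ((z : ℝ) - 1)) * (N : ℝ) ^ 2 := by
        rw [ht]
        field_simp
        ring
      rw [e1]
      have e2 : ((K : ℝ) + 1) * (1656 * 64 / (e ^ 2 * ((z : ℝ) - 1))) ≤ e / 4 := by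
        calc ((K : ℝ) + 1) * (1656 * 64 / (e ^ 2 * ((z : ℝ) - 1))) ≤ 18 * V / e * (1656 * 64 / (e ^ 2 * ((z : ℝ) - 1))) :=
              mul_le_mul_of_nonneg_right hK2 (by positivity)
          _ = (18 * 1656 * 64) * V / (e ^ 3 * ((z : ℝ) - 1)) := by
              field_simp
          _ ≤ e / 4 := by
              rw [div_le_div_iff₀ (by positivity) (by norm_num)]
              rw [← hV] at hzV
              have e3 : (4 * 18 * 1656 * 64) * V ≤ e ^ 4 * ((z : ℝ) - 1) := by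
                have := mul_le_mul_of_nonneg_left hzV (by norm_num : (0 : ℝ) ≤ 4 * 18 * 1656 * 64)
                have e4 : (4 * 18 * 1656 * 64 : ℝ) * (e ^ 4 / (4 * 18 * 1656 * 64) * ((z : ℝ) - 1)) = e ^ 4 * ((z : ℝ) - 1) := by
                  field_simp
                rw [e4] at this
                exact this
              calc 18 * 1656 * 64 * V * 4 = (4 * 18 * 1656 * 64) * V := by ring
                _ ≤ e ^ 4 * ((z : ℝ) - 1) := e3
                _ = _ := by ring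
      calc _ = ((K : ℝ) + 1) * (1656 * 64 / (e ^ 2 * ((z : ℝ) - 1))) * (N : ℝ) ^ 2 := by ring
        _ ≤ _ := mul_le_mul_of_nonneg_right e2 (by positivity)
    have c6 := card_union_le ((range (K + 1)).biUnion (fun j => A.filter (fun a => t < |Rw z w a (j * N / K)|)) ∪
      (range (K + 1)).biUnion (fun j => A.filter (fun a => t < |Rw z (fun _ => 1) a (j * N / K)|))) (A.filter (fun a => t < E1 N a))
    have c7 := card_union_le ((range (K + 1)).biUnion (fun j => A.filter (fun a => t < |Rw z w a (j * N / K)|)))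
      ((range (K + 1)).biUnion (fun j => A.filter (fun a => t < |Rw z (fun _ => 1) a (j * N / K)|)))
    have c8 : ((((range (K + 1)).biUnion (fun j => A.filter (fun a => t < |Rw z w a (j * N / K)|)) ∪
      (range (K + 1)).biUnion (fun j => A.filter (fun a => t < |Rw z (fun _ => 1) a (j * N / K)|))) ∪
        (A.filter (fun a => t < E1 N a))).card : ℝ) ≤
        (((range (K + 1)).biUnion (fun j => A.filter (fun a => t < |Rw z w a (j * N / K)|))).card : ℝ) +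
        (((range (K + 1)).biUnion (fun j => A.filter (fun a => t < |Rw z (fun _ => 1) a (j * N / K)|))).card : ℝ) +
        ((A.filter (fun a => t < E1 N a)).card : ℝ) := by
      exact_mod_cast (c6.trans (Nat.add_le_add_right c7 _))
    have c9 : e * (N : ℝ) ^ 2 ≤ ε * (N : ℝ) ^ 2 := mul_le_mul_of_nonneg_right heε (by positivity)
    linarith
  · intro a ha hex
    rw [← hA] at ha
    rw [mem_union, mem_union, mem_biUnion, mem_biUnion] at hex
    push Not at hex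
    obtain ⟨⟨x1, x2⟩, x3⟩ := hex
    have y1 : ∀ j ≤ K, |Rw z w a (j * N / K)| ≤ t := by
      intro j hj
      by_contra hcon
      push Not at hcon
      exact x1 j (mem_range.2 (by omega)) (mem_filter.2 ⟨ha, hcon⟩)
    have y2 : ∀ j ≤ K, |Rw z (fun _ => 1) a (j * N / K)| ≤ t := by
      intro j hj
      by_contra hcon
      push Not at hcon
      exact x2 j (mem_range.2 (by omega)) (mem_filter.2 ⟨ha, hcon⟩)
    have y3 : E1 N a ≤ t := by
      by_contra hcon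
      push Not at hcon
      exact x3 (mem_filter.2 ⟨ha, hcon⟩)
    have hεN : e * N ≤ ε * N := mul_le_mul_of_nonneg_right heε hN0.le
    refine ⟨by rw [ht] at y3; nlinarith, fun y hy => ?_⟩
    have g1 := grid z N K hKpos w hw a t y1 y2 y hy
    have g2 := main_split z N w hw a y hy
    rw [← hV] at g1
    have g3 : 2 * V * ((N : ℝ) / K) ≤ e / 8 * N := by
      have hKr : (0 : ℝ) < K := by exact_mod_cast hKpos
      have e1 : 16 * V ≤ K * e := by
        rw [div_le_iff₀ he0] at hK1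
        exact hK1
      rw [mul_div_assoc', div_le_iff₀ hKr]
      nlinarith
    have g4 : 2 * V ≤ e / 8 * N := by
      rw [div_le_iff₀ he0] at hNV
      linarith
    have g5 : 2 * V * ((N : ℝ) / K + 1) = 2 * V * ((N : ℝ) / K) + 2 * V := by ring
    rw [g5] at g1
    have g6 : |Rw z w a y| ≤ 5 / 8 * (e * N) := by
      rw [ht] at g1
      linarith
    have g7 : 0 < e * N := by positivity
    constructor
    · linarith
    · rw [ht] at y3
      linarith

end Pool.Agent.U845.QR
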