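import Mathlib
import Pool.Agent.U845.QR8

/-! Weights with a mean value in all residue classes; the lower bound for the model. -/

set_option autoImplicit false

namespace Pool.Agent.U845.QR

open Finset Filter Topology
open Pool.Agent.H373R2.T7 (pz Vz lamz mem_pz Vz_pos lamz_nonneg nuB PerB)

/-- mean value `δ` in all residue classes -/
def MeanCl (w : ℕ → ℝ) (δ : ℝ) : Prop := ∀ q : ℕ, 1 ≤ q → ∀ r : ℕ,
  Tendsto (fun N : ℕ => (∑ n ∈ (Icc 1 N).filter (fun n => n ≡ r [MOD q]), w n) / (N : ℝ)) atTop (𝓝 (δ / q))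

lemma mean_one : MeanCl (fun _ => 1) 1 := by
  intro q hq r
  have hqr : (0 : ℝ) < q := by exact_mod_cast hq
  rw [Metric.tendsto_atTop]
  intro ε hε
  obtain ⟨N0, hN0⟩ := exists_nat_gt (1 / ε)
  refine ⟨N0 + 1, fun N hN => ?_⟩
  have hNr : (0 : ℝ) < N := by exact_mod_cast (by omega : 0 < N)
  have h1 := Pool.Agent.H373R2.T7.count_class N q r hq
  rw [Real.dist_eq]
  have e1 : ∑ n ∈ (Icc 1 N).filter (fun n => n ≡ r [MOD q]), (1 : ℝ) =
      (((Icc 1 N).filter (fun n => n ≡ r [MOD q])).card : ℝ) := by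
    rw [sum_const, nsmul_eq_mul, mul_one]
  rw [e1]
  obtain ⟨c, hc⟩ : ∃ c : ℝ, c = (((Icc 1 N).filter (fun n => n ≡ r [MOD q])).card : ℝ) := ⟨_, rfl⟩
  rw [← hc] at h1 ⊢
  have e2 : c / (N : ℝ) - 1 / q = (c - N / q) / N := by
    field_simp
  rw [e2, abs_div, abs_of_pos hNr, div_lt_iff₀ hNr]
  have e3 : 1 / ε < N := by
    have : (N0 : ℝ) ≤ N := by exact_mod_cast (by omega : N0 ≤ N)
    linarith
  rw [div_lt_iff₀ hε] at e3
  linarith

/-- the modulus -/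
def PP (z : ℕ) : ℕ := ∏ p ∈ pz z, p

lemma PP_pos (z : ℕ) : 0 < PP z := prod_pos fun _ hp => (mem_pz.1 hp).2.pos

lemma lamz_per (z : ℕ) (a : ℤ) (n : ℕ) :
    lamz z ((n : ℤ) ^ 2 + a).natAbs = lamz z (((n % PP z : ℕ) : ℤ) ^ 2 + a).natAbs := by
  rw [Pool.Agent.U845.QR.lamz_eq, Pool.Agent.U845.QR.lamz_eq]
  have h : (∀ p ∈ pz z, ¬ (p : ℤ) ∣ (n : ℤ) ^ 2 + a) ↔ (∀ p ∈ pz z, ¬ (p : ℤ) ∣ ((n % PP z : ℕ) : ℤ) ^ 2 + a) := by
    have h1 : ∀ p ∈ pz z, ((p : ℤ) ∣ (n : ℤ) ^ 2 + a ↔ (p : ℤ) ∣ ((n % PP z : ℕ) : ℤ) ^ 2 + a) := by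
      intro p hp
      have h2 : (p : ℤ) ∣ (n : ℤ) - ((n % PP z : ℕ) : ℤ) := by
        have h3 : ((PP z : ℕ) : ℤ) ∣ (n : ℤ) - ((n % PP z : ℕ) : ℤ) := by
          refine ⟨((n / PP z : ℕ) : ℤ), ?_⟩
          have := Nat.mod_add_div n (PP z)
          have h4 : ((n % PP z : ℕ) : ℤ) + (PP z : ℕ) * ((n / PP z : ℕ) : ℤ) = n := by exact_mod_cast this
          linarith
        refine dvd_trans ?_ h3
        exact_mod_cast (dvd_prod_of_mem (fun p => p) hp : p ∣ PP z)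
      have h5 : (p : ℤ) ∣ ((n : ℤ) ^ 2 + a) - (((n % PP z : ℕ) : ℤ) ^ 2 + a) := by
        have : ((n : ℤ) ^ 2 + a) - (((n % PP z : ℕ) : ℤ) ^ 2 + a) =
            ((n : ℤ) - ((n % PP z : ℕ) : ℤ)) * ((n : ℤ) + ((n % PP z : ℕ) : ℤ)) := by ring
        rw [this]
        exact Dvd.dvd.mul_right h2 _
      exact Int.dvd_iff_dvd_of_dvd_sub h5
    constructor
    · intro h2 p hp h3
      exact h2 p hp ((h1 p hp).2 h3)
    · intro h2 p hp h3
      exact h2 p hp ((h1 p hp).1 h3)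
  by_cases h1 : ∀ p ∈ pz z, ¬ (p : ℤ) ∣ (n : ℤ) ^ 2 + a
  · rw [if_pos h1, if_pos (h.1 h1)]
  · rw [if_neg h1, if_neg (fun h2 => h1 (h.2 h2))]

lemma cls_sum (z : ℕ) (v : ℕ → ℝ) (a : ℤ) (y : ℕ) : Mw z v a y =
    ∑ r ∈ range (PP z), lamz z ((r : ℤ) ^ 2 + a).natAbs * ∑ n ∈ (Icc 1 y).filter (fun n => n ≡ r [MOD PP z]), v n := by
  unfold Mw
  have h1 : ∀ n ∈ Icc 1 y, v n * lamz z ((n : ℤ) ^ 2 + a).natAbs =
      ∑ r ∈ range (PP z), if n ≡ r [MOD PP z] then lamz z ((r : ℤ) ^ 2 + a).natAbs * v n else 0 := by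
    intro n _
    have h2 : n % PP z ∈ range (PP z) := mem_range.2 (Nat.mod_lt _ (PP_pos z))
    rw [sum_eq_single_of_mem (n % PP z) h2]
    · rw [if_pos (Nat.mod_modEq n (PP z)).symm, ← lamz_per]
      ring
    · intro r hr hne
      rw [if_neg]
      intro h
      apply hne
      unfold Nat.ModEq at h
      rw [Nat.mod_eq_of_lt (mem_range.1 hr)] at h
      exact h.symm
  rw [sum_congr rfl h1, sum_comm]
  refine sum_congr rfl fun r _ => ?_
  rw [← sum_filter, mul_sum]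

lemma cls_small (w : ℕ → ℝ) (hw : ∀ n, |w n| ≤ 1) (δ : ℝ) (hm : MeanCl w δ) (q : ℕ) (hq : 1 ≤ q) (r : ℕ) (η : ℝ) (hη : 0 < η) :
    ∃ N0 : ℕ, ∀ N : ℕ, N0 ≤ N → ∀ y ≤ N,
      |∑ n ∈ (Icc 1 y).filter (fun n => n ≡ r [MOD q]), (w n - δ)| ≤ η * N := by
  have hδ : |δ| ≤ 1 := by
    have h1 := hm 1 le_rfl 0
    rw [Nat.cast_one, div_one] at h1
    have h2 := h1.abs
    apply le_of_tendsto h2
    filter_upwards [eventually_ge_atTop 1] with N hN
    have hNr : (0 : ℝ) < N := by exact_mod_cast hN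
    rw [abs_div, abs_of_pos hNr, div_le_one hNr]
    refine (abs_sum_le_sum_abs _ _).trans ?_
    calc ∑ n ∈ (Icc 1 N).filter (fun n => n ≡ 0 [MOD 1]), |w n| ≤ ∑ n ∈ (Icc 1 N).filter (fun n => n ≡ 0 [MOD 1]), (1 : ℝ) :=
          sum_le_sum fun n _ => hw n
      _ ≤ ∑ n ∈ Icc 1 N, (1 : ℝ) := sum_le_sum_of_subset_of_nonneg (filter_subset _ _) (fun _ _ _ => zero_le_one)
      _ = N := by rw [sum_const, Nat.card_Icc, Nat.add_sub_cancel, nsmul_eq_mul, mul_one]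
  have h1 := (hm q hq r).sub ((mean_one q hq r).const_mul δ)
  have h2 : δ / (q : ℝ) - δ * (1 / q) = 0 := by ring
  rw [h2] at h1
  have h3 := Metric.tendsto_atTop.1 h1 η hη
  obtain ⟨N1, hN1⟩ := h3
  obtain ⟨N2, hN2⟩ := exists_nat_gt (2 * N1 / η)
  refine ⟨N1 + N2 + 1, fun N hN y hy => ?_⟩
  have hNr : (0 : ℝ) ≤ N := Nat.cast_nonneg N
  have hyN : (y : ℝ) ≤ N := by exact_mod_cast hy
  rcases Nat.lt_or_ge y N1 with h | h
  · have e1 : |∑ n ∈ (Icc 1 y).filter (fun n => n ≡ r [MOD q]), (w n - δ)| ≤ 2 * N1 := by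
      refine (abs_sum_le_sum_abs _ _).trans ?_
      calc ∑ n ∈ (Icc 1 y).filter (fun n => n ≡ r [MOD q]), |w n - δ| ≤ ∑ n ∈ (Icc 1 y).filter (fun n => n ≡ r [MOD q]), (2 : ℝ) := by
            refine sum_le_sum fun n _ => ?_
            have := abs_sub (w n) δ
            linarith [hw n]
        _ ≤ ∑ n ∈ Icc 1 y, (2 : ℝ) := sum_le_sum_of_subset_of_nonneg (filter_subset _ _) (fun _ _ _ => by norm_num)
        _ = 2 * y := by
            rw [sum_const, Nat.card_Icc, Nat.add_sub_cancel, nsmul_eq_mul]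
            ring
        _ ≤ 2 * N1 := by
            have : (y : ℝ) ≤ N1 := by exact_mod_cast h.le
            linarith
    refine e1.trans ?_
    rw [div_lt_iff₀ hη] at hN2
    have : (N2 : ℝ) ≤ N := by exact_mod_cast (by omega : N2 ≤ N)
    nlinarith
  · rcases Nat.eq_zero_or_pos y with hy0 | hy0
    · rw [hy0]
      simp
      positivity
    have hyr : (0 : ℝ) < y := by exact_mod_cast hy0
    have h4 := hN1 y h
    rw [Real.dist_eq, sub_zero] at h4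
    have e1 : ∑ n ∈ (Icc 1 y).filter (fun n => n ≡ r [MOD q]), (w n - δ) =
        ((∑ n ∈ (Icc 1 y).filter (fun n => n ≡ r [MOD q]), w n) / (y : ℝ) -
          δ * ((∑ n ∈ (Icc 1 y).filter (fun n => n ≡ r [MOD q]), (1 : ℝ)) / (y : ℝ))) * y := by
      rw [sum_sub_distrib]
      field_simp
      rw [mul_sum]
      simp only [mul_one]
    rw [e1, abs_mul, abs_of_pos hyr]
    calc _ ≤ η * y := mul_le_mul_of_nonneg_right h4.le hyr.le
      _ ≤ η * N := mul_le_mul_of_nonneg_left hyN hη.le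

/-- the model with weights of a given mean value in the classes -/
lemma cls (w : ℕ → ℝ) (hw : ∀ n, |w n| ≤ 1) (δ : ℝ) (hm : MeanCl w δ) (z : ℕ) (η : ℝ) (hη : 0 < η) :
    ∃ N0 : ℕ, ∀ N : ℕ, N0 ≤ N → ∀ a : ℤ, ∀ y ≤ N, |Mw z w a y - δ * Mw z (fun _ => 1) a y| ≤ η * N := by
  have hP := PP_pos z
  have hPr : (0 : ℝ) < PP z := by exact_mod_cast hP
  have hV0 := inv_pos.2 (Vz_pos z)
  choose! f hf using fun r : ℕ => cls_small w hw δ hm (PP z) hP r (η / ((Vz z)⁻¹ * PP z)) (by positivity)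
  refine ⟨∑ r ∈ range (PP z), f r, fun N hN a y hy => ?_⟩
  have h1 : Mw z w a y - δ * Mw z (fun _ => 1) a y = Mw z (fun n => w n - δ) a y := by
    unfold Mw
    rw [mul_sum, ← sum_sub_distrib]
    refine sum_congr rfl fun n _ => ?_
    ring
  rw [h1, cls_sum]
  refine (abs_sum_le_sum_abs _ _).trans ?_
  have h2 : ∀ r ∈ range (PP z), |lamz z ((r : ℤ) ^ 2 + a).natAbs * ∑ n ∈ (Icc 1 y).filter (fun n => n ≡ r [MOD PP z]), (w n - δ)| ≤
      (Vz z)⁻¹ * (η / ((Vz z)⁻¹ * PP z) * N) := by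
    intro r hr
    rw [abs_mul]
    have e1 : |lamz z ((r : ℤ) ^ 2 + a).natAbs| ≤ (Vz z)⁻¹ := by
      rw [abs_of_nonneg (lamz_nonneg _ _)]
      unfold lamz
      split_ifs
      · exact le_rfl
      · exact hV0.le
    apply mul_le_mul e1 _ (abs_nonneg _) hV0.le
    apply hf r N _ y hy
    exact (single_le_sum (f := f) (fun _ _ => Nat.zero_le _) hr).trans hN
  refine (sum_le_sum h2).trans (le_of_eq ?_)
  have hVne := (Vz_pos z).ne'
  rw [sum_const, card_range, nsmul_eq_mul]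
  field_simp

/-- the condition at `p` -/
def QR0 (a : ℤ) (p n : ℕ) : Prop := (p : ℤ) ∣ (n : ℤ) ^ 2 + a

open Classical in
lemma QR0_few (a : ℤ) (p : ℕ) (hp : p.Prime) : nuB (QR0 a) p ≤ 2 ∧ (p = 2 → nuB (QR0 a) p ≤ 1) := by
  unfold nuB
  rcases Finset.eq_empty_or_nonempty ((range p).filter (fun r => QR0 a p r)) with he | ⟨r0, hr0⟩
  · rw [he]
    simp
  · rw [mem_filter] at hr0
    unfold QR0 at hr0
    have hp' : Prime (p : ℤ) := Nat.prime_iff_prime_int.1 hp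
    have hsub : (range p).filter (fun r => QR0 a p r) ⊆
        (range p).filter (fun r : ℕ => (p : ℤ) ∣ (-(r0 : ℤ)) + r - 0) ∪
          (range p).filter (fun r : ℕ => (p : ℤ) ∣ (r0 : ℤ) + r - 0) := by
      intro r hr
      rw [mem_filter] at hr
      unfold QR0 at hr
      rw [mem_union, mem_filter, mem_filter]
      have h1 := dvd_sub hr.2 hr0.2
      have h2 : (r : ℤ) ^ 2 + a - ((r0 : ℤ) ^ 2 + a) = (-(r0 : ℤ) + r - 0) * ((r0 : ℤ) + r - 0) := by ring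
      rw [h2] at h1
      rcases hp'.dvd_or_dvd h1 with h3 | h3
      · exact Or.inl ⟨hr.1, h3⟩
      · exact Or.inr ⟨hr.1, h3⟩
    constructor
    · refine (card_le_card hsub).trans ((card_union_le _ _).trans ?_)
      rw [one_root _ _ p hp, one_root _ _ p hp]
    · intro hp2
      have hsub2 : (range p).filter (fun r => QR0 a p r) ⊆ (range p).filter (fun r : ℕ => (p : ℤ) ∣ (r0 : ℤ) + r - 0) := by
        intro r hr
        have h1 := hsub hr
        rw [mem_union, mem_filter, mem_filter] at h1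
        rw [mem_filter]
        rcases h1 with h1 | h1
        · refine ⟨h1.1, ?_⟩
          rw [hp2] at h1 ⊢
          have h2 := h1.2
          push_cast at h2 ⊢
          omega
        · exact h1
      refine (card_le_card hsub2).trans ?_
      rw [one_root _ _ p hp]

lemma QR0_per (a : ℤ) : PerB (QR0 a) 2 := by
  refine ⟨fun p n => ?_, fun p hp => (QR0_few a p hp).1⟩
  unfold QR0
  have h1 : (p : ℤ) ∣ ((n : ℤ) ^ 2 + a) - (((n % p : ℕ) : ℤ) ^ 2 + a) := by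
    have h2 : (p : ℤ) ∣ (n : ℤ) - ((n % p : ℕ) : ℤ) := by
      refine ⟨((n / p : ℕ) : ℤ), ?_⟩
      have := Nat.mod_add_div n p
      have h4 : ((n % p : ℕ) : ℤ) + (p : ℕ) * ((n / p : ℕ) : ℤ) = n := by exact_mod_cast this
      linarith
    have : ((n : ℤ) ^ 2 + a) - (((n % p : ℕ) : ℤ) ^ 2 + a) =
        ((n : ℤ) - ((n % p : ℕ) : ℤ)) * ((n : ℤ) + ((n % p : ℕ) : ℤ)) := by ring
    rw [this]
    exact Dvd.dvd.mul_right h2 _
  exact Int.dvd_iff_dvd_of_dvd_sub h1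

/-- the lower bound for the product -/
lemma prod_low (z : ℕ) (hz : 5 ≤ z) (a : ℤ) :
    (5 / 6) * Vz z ^ 2 ≤ ∏ p ∈ pz z, (1 - (nuB (QR0 a) p : ℝ) / p) := by
  have h2 : (2 : ℕ) ∈ pz z := mem_pz.2 ⟨by omega, Nat.prime_two⟩
  have hV : Vz z ^ 2 = ∏ p ∈ pz z, (1 - 1 / (p : ℝ)) ^ 2 := by
    unfold Vz
    rw [prod_pow]
  rw [hV, ← mul_prod_erase _ _ h2, ← mul_prod_erase (pz z) (fun p => (1 - (nuB (QR0 a) p : ℝ) / p)) h2]
  have e2 : (1 / 2 : ℝ) ≤ 1 - (nuB (QR0 a) 2 : ℝ) / (2 : ℕ) := by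
    have h3 := (QR0_few a 2 Nat.prime_two).2 rfl
    have h4 : (nuB (QR0 a) 2 : ℝ) ≤ 1 := by exact_mod_cast h3
    push_cast
    linarith
  obtain ⟨S, hS⟩ : ∃ S : Finset ℕ, S = (pz z).erase 2 := ⟨_, rfl⟩
  rw [← hS]
  have hSp : ∀ p ∈ S, p.Prime ∧ 3 ≤ p ∧ p ≤ z := by
    intro p hp
    rw [hS, mem_erase, mem_pz] at hp
    have := hp.2.2.two_le
    exact ⟨hp.2.2, by omega, hp.2.1⟩
  have hsum : ∑ p ∈ S, 1 / ((p : ℝ) - 1) ^ 2 ≤ 7 / 12 := by
    have h3 : ∑ p ∈ S, 1 / ((p : ℝ) - 1) ^ 2 ≤ ∑ k ∈ insert 3 (Ioc 4 z), 1 / ((k : ℝ) - 1) ^ 2 := by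
      apply sum_le_sum_of_subset_of_nonneg
      · intro p hp
        obtain ⟨h4, h5, h6⟩ := hSp p hp
        rw [mem_insert, mem_Ioc]
        by_contra hcon
        have : p = 4 := by omega
        rw [this] at h4
        exact absurd h4 (by norm_num)
      · intro _ _ _
        positivity
    rw [sum_insert (by simp)] at h3
    have h4 := tele 4 (by norm_num) z (by omega)
    have h5 : (0 : ℝ) ≤ ((z : ℝ) - 1)⁻¹ := by
      have : (5 : ℝ) ≤ z := by exact_mod_cast hz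
      apply inv_nonneg.2
      linarith
    norm_num at h3 h4 ⊢
    linarith
  have hpg := (prod_ge S (fun p : ℕ => 1 / ((p : ℝ) - 1) ^ 2) (fun p _ => by positivity) (fun p hp => by
    have h3 : (3 : ℝ) ≤ p := by exact_mod_cast (hSp p hp).2.1
    rw [div_le_one (by nlinarith)]
    nlinarith)).1
  have h3 : (∏ p ∈ S, (1 - 1 / (p : ℝ)) ^ 2) * ∏ p ∈ S, (1 - 1 / ((p : ℝ) - 1) ^ 2) ≤
      ∏ p ∈ S, (1 - (nuB (QR0 a) p : ℝ) / p) := by
    rw [← prod_mul_distrib]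
    apply Finset.prod_le_prod
    · intro p hp
      have h3 : (3 : ℝ) ≤ p := by exact_mod_cast (hSp p hp).2.1
      apply mul_nonneg (by positivity)
      rw [sub_nonneg, div_le_one (by nlinarith)]
      nlinarith
    · intro p hp
      have h3 : (3 : ℝ) ≤ p := by exact_mod_cast (hSp p hp).2.1
      have h4 : (nuB (QR0 a) p : ℝ) ≤ 2 := by exact_mod_cast (QR0_few a p (hSp p hp).1).1
      have h5 : (1 - 1 / (p : ℝ)) ^ 2 * (1 - 1 / ((p : ℝ) - 1) ^ 2) = 1 - 2 / p := by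
        have : (p : ℝ) ≠ 0 := by linarith
        have : (p : ℝ) - 1 ≠ 0 := by linarith
        field_simp
        ring
      rw [h5]
      have h6 : (nuB (QR0 a) p : ℝ) / p ≤ 2 / p := div_le_div_of_nonneg_right h4 (by linarith)
      linarith
  have h4 : 0 ≤ ∏ p ∈ S, (1 - 1 / (p : ℝ)) ^ 2 := prod_nonneg fun p _ => by positivity
  have h5 : (∏ p ∈ S, (1 - 1 / (p : ℝ)) ^ 2) * (5 / 12) ≤ ∏ p ∈ S, (1 - (nuB (QR0 a) p : ℝ) / p) := by
    refine le_trans ?_ h3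
    apply mul_le_mul_of_nonneg_left _ h4
    linarith
  have h6 : 0 ≤ ∏ p ∈ S, (1 - (nuB (QR0 a) p : ℝ) / p) := (mul_nonneg h4 (by norm_num)).trans h5
  push_cast
  push_cast at e2
  nlinarith

/-- the lower bound for the model -/
lemma model_low (z : ℕ) (hz : 5 ≤ z) : ∃ N0 : ℕ, ∀ N : ℕ, N0 ≤ N → ∀ a : ℤ,
    N / (2 * (Vz z)⁻¹) ≤ Mw z (fun _ => 1) a N := by
  classical
  obtain ⟨m1, h1⟩ := Pool.Agent.H373R2.T7.sys_count 2 1 1 (by norm_num)
  obtain ⟨V, hV⟩ : ∃ V : ℝ, V = (Vz z)⁻¹ := ⟨_, rfl⟩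
  have hV1 : 1 ≤ V := by rw [hV]; exact Vz_inv_ge_one z
  obtain ⟨m2, h2⟩ := Pool.Agent.H373R2.T7.ev_L' (max z (3 * V ^ 2))
  refine ⟨m1 + m2 + 1, fun N hN a => ?_⟩
  have hNr : (0 : ℝ) < N := by exact_mod_cast (by omega : 0 < N)
  have hL := h2 N (by omega)
  have hLz : (z : ℝ) ≤ Real.log N ^ 1 := by rw [pow_one]; exact (le_max_left _ _).trans hL
  have hLV : 3 * V ^ 2 ≤ Real.log N := (le_max_right _ _).trans hL
  have key := h1 N (by omega) z (by omega) hLz (QR0 a) (QR0_per a)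
  have hM : Mw z (fun _ => 1) a N = V * ((((Icc 1 N).filter (fun n : ℕ => ∀ p ∈ pz z, ¬ QR0 a p n)).card : ℕ) : ℝ) := by
    unfold Mw
    rw [card_eq_sum_ones, sum_filter]
    push_cast
    rw [mul_sum]
    refine sum_congr rfl fun n _ => ?_
    rw [lamz_eq, one_mul, hV]
    by_cases h : ∀ p ∈ pz z, ¬ (p : ℤ) ∣ (n : ℤ) ^ 2 + a
    · rw [if_pos h, if_pos (by unfold QR0; exact h), mul_one]
    · rw [if_neg h, if_neg (by unfold QR0; exact h), mul_zero]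
  rw [hM, ← hV]
  have hp := prod_low z hz a
  have hVz : Vz z = V⁻¹ := by rw [hV, inv_inv]
  rw [hVz] at hp
  have h3 := (abs_le.1 key).1
  rw [pow_one] at h3
  have h4 : (N : ℝ) / Real.log N ≤ N * (1 / (3 * V ^ 2)) := by
    rw [div_eq_mul_one_div]
    apply mul_le_mul_of_nonneg_left _ hNr.le
    exact one_div_le_one_div_of_le (by positivity) hLV
  have h5 : (N : ℝ) * ((5 / 6) * V⁻¹ ^ 2) ≤ N * ∏ p ∈ pz z, (1 - (nuB (QR0 a) p : ℝ) / p) :=
    mul_le_mul_of_nonneg_left hp hNr.le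
  have h6 : (N : ℝ) * ((5 / 6) * V⁻¹ ^ 2) - N * (1 / (3 * V ^ 2)) = N / (2 * V ^ 2) := by
    field_simp
    ring
  have h7 : (N : ℝ) / (2 * V) = V * (N / (2 * V ^ 2)) := by
    field_simp
  rw [h7]
  apply mul_le_mul_of_nonneg_left _ (by linarith)
  linarith

end Pool.Agent.U845.QR
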