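import Mathlib

/-! The logarithmic integral. -/

set_option autoImplicit false

namespace Pool.Agent.U845.QR

open Finset Filter

lemma int_log_int : ∀ u v : ℝ, 2 ≤ u → u ≤ v → IntervalIntegrable (fun t => 1 / Real.log t) MeasureTheory.volume u v := by
  intro u v hu huv
  apply ContinuousOn.intervalIntegrable
  rw [Set.uIcc_of_le huv]
  apply ContinuousOn.div continuousOn_const
  · apply Real.continuousOn_log.mono
    intro t ht
    rw [Set.mem_Icc] at ht
    simp only [Set.mem_compl_iff, Set.mem_singleton_iff]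
    linarith
  · intro t ht
    rw [Set.mem_Icc] at ht
    exact (Real.log_pos (by linarith)).ne'

lemma int_log_le (c a b : ℝ) (hc : 1 < c) (ha2 : 2 ≤ a) (hca : c ≤ a) (hab : a ≤ b) :
    ∫ t in a..b, 1 / Real.log t ≤ (b - a) / Real.log c := by
  have hl : 0 < Real.log c := Real.log_pos hc
  have h := intervalIntegral.integral_mono_on hab (int_log_int a b ha2 hab) (intervalIntegrable_const (c := 1 / Real.log c)) (by
    intro t ht
    rw [Set.mem_Icc] at ht
    exact one_div_le_one_div_of_le hl (Real.log_le_log (by linarith) (by linarith [ht.1])))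
  rw [intervalIntegral.integral_const, smul_eq_mul] at h
  refine h.trans (le_of_eq ?_)
  ring

lemma int_log_ge (a b c : ℝ) (ha2 : 2 ≤ a) (hab : a ≤ b) (hbc : b ≤ c) :
    (b - a) / Real.log c ≤ ∫ t in a..b, 1 / Real.log t := by
  have h := intervalIntegral.integral_mono_on hab (intervalIntegrable_const (c := 1 / Real.log c)) (int_log_int a b ha2 hab) (by
    intro t ht
    rw [Set.mem_Icc] at ht
    exact one_div_le_one_div_of_le (Real.log_pos (by linarith [ht.1])) (Real.log_le_log (by linarith [ht.1]) (by linarith [ht.2])))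
  rw [intervalIntegral.integral_const, smul_eq_mul] at h
  refine (le_of_eq ?_).trans h
  ring

/-- the logarithmic integral up to `y ≤ N` -/
lemma int_approx (κ : ℝ) (hκ : 0 < κ) : ∃ N0 : ℕ, ∀ N : ℕ, N0 ≤ N → ∀ y : ℕ, 2 ≤ y → y ≤ N →
    |(∫ t in (2 : ℝ)..(y : ℝ), 1 / Real.log t) - y / Real.log N| ≤ κ * (N / Real.log N) := by
  obtain ⟨δ, hδ⟩ : ∃ δ : ℝ, δ = min (1 / 4) (κ / 4) := ⟨_, rfl⟩
  have hδ0 : 0 < δ := by rw [hδ]; positivity
  have hδ1 : δ ≤ 1 / 4 := by rw [hδ]; exact min_le_left _ _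
  have hδ2 : δ ≤ κ / 4 := by rw [hδ]; exact min_le_right _ _
  have hl2 : 0 < Real.log 2 := Real.log_pos (by norm_num)
  have g1 := (isLittleO_log_rpow_atTop hδ0).bound (show 0 < δ * Real.log 2 by positivity)
  obtain ⟨x1, h1⟩ := eventually_atTop.1 ((tendsto_natCast_atTop_atTop (R := ℝ)).eventually g1)
  obtain ⟨x2, h2⟩ := exists_nat_gt (2 / κ)
  refine ⟨x1 + x2 + 16, fun N hN y hy2 hyN => ?_⟩
  have k1 := h1 N (by omega)
  have hN16 : (16 : ℝ) ≤ N := by exact_mod_cast (by omega : 16 ≤ N)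
  have hNκ : 2 / κ ≤ N := by
    have : (x2 : ℝ) ≤ N := by exact_mod_cast (by omega : x2 ≤ N)
    linarith
  have hN0 : (0 : ℝ) < N := by linarith
  have hy2' : (2 : ℝ) ≤ y := by exact_mod_cast hy2
  have hyN' : (y : ℝ) ≤ N := by exact_mod_cast hyN
  obtain ⟨L, hL⟩ : ∃ L : ℝ, L = Real.log N := ⟨_, rfl⟩
  have hL0 : 0 < L := by rw [hL]; exact Real.log_pos (by linarith)
  rw [Real.norm_of_nonneg (Real.log_nonneg (by linarith)), Real.norm_of_nonneg (by positivity)] at k1
  rw [← hL] at k1 ⊢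
  obtain ⟨s, hs⟩ : ∃ s : ℝ, s = (N : ℝ) ^ (1 - δ) := ⟨_, rfl⟩
  have hs0 : 0 < s := by rw [hs]; positivity
  have hs2 : 2 ≤ s := by
    rw [hs]
    calc (2 : ℝ) ≤ (16 : ℝ) ^ (1 / 4 : ℝ) := by
          have : (16 : ℝ) = 2 ^ (4 : ℝ) := by norm_num
          rw [this, ← Real.rpow_mul (by norm_num)]
          norm_num
      _ ≤ (N : ℝ) ^ (1 / 4 : ℝ) := Real.rpow_le_rpow (by norm_num) hN16 (by norm_num)
      _ ≤ (N : ℝ) ^ (1 - δ) := Real.rpow_le_rpow_of_exponent_le (by linarith) (by linarith)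
  have hls : Real.log s = (1 - δ) * L := by rw [hs, Real.log_rpow hN0, hL]
  have e0 : (N : ℝ) = s * (N : ℝ) ^ δ := by
    rw [hs, ← Real.rpow_add hN0]
    ring_nf
    rw [Real.rpow_one]
  have i3 : s / Real.log 2 ≤ δ * (N / L) := by
    rw [div_le_iff₀ hl2]
    have h6 : δ * (N / L) * Real.log 2 = s * (δ * Real.log 2 * (N : ℝ) ^ δ) / L := by
      nth_rw 1 [e0]
      ring
    rw [h6, le_div_iff₀ hL0]
    exact mul_le_mul_of_nonneg_left k1 hs0.le
  have hNL : 0 ≤ (N : ℝ) / L := by positivity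
  have low := int_log_ge 2 y N le_rfl hy2' hyN'
  rw [← hL] at low
  have f1 : ((y : ℝ) - 2) / L = y / L - 2 / L := by ring
  have f2 : 2 / L ≤ κ * (N / L) := by
    rw [mul_div_assoc', div_le_div_iff_of_pos_right hL0]
    rw [div_le_iff₀ hκ] at hNκ
    linarith
  have i4 : ∀ w : ℝ, 0 ≤ w → w ≤ N → w / ((1 - δ) * L) ≤ w / L + 2 * δ * (N / L) := by
    intro w hw hwN
    rw [div_le_iff₀ (mul_pos (by linarith) hL0)]
    have h6 : (w / L + 2 * δ * (N / L)) * ((1 - δ) * L) = (w + 2 * δ * N) * (1 - δ) := by field_simp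
    rw [h6]
    have h7 : δ * w ≤ δ * N := mul_le_mul_of_nonneg_left hwN hδ0.le
    have h8 : δ * δ * N ≤ 1 / 4 * δ * N := by gcongr
    nlinarith
  have h9 : δ * (N / L) + 2 * δ * (N / L) ≤ κ * (N / L) := by
    have : 3 * δ * (N / L) ≤ κ * (N / L) := mul_le_mul_of_nonneg_right (by linarith) hNL
    linarith
  have up : ∫ t in (2 : ℝ)..(y : ℝ), 1 / Real.log t ≤ y / L + κ * (N / L) := by
    rcases le_total (y : ℝ) s with hys | hys
    · have k3 := int_log_le 2 2 y (by norm_num) le_rfl le_rfl hy2'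
      have k2 : ((y : ℝ) - 2) / Real.log 2 ≤ s / Real.log 2 := div_le_div_of_nonneg_right (by linarith) hl2.le
      have k4 : 0 ≤ (y : ℝ) / L := by positivity
      have k5 : 0 ≤ 2 * δ * (N / L) := by positivity
      linarith
    · rw [← intervalIntegral.integral_add_adjacent_intervals (int_log_int 2 s le_rfl hs2) (int_log_int s y hs2 hys)]
      have k3 := int_log_le 2 2 s (by norm_num) le_rfl le_rfl hs2
      have k2 : (s - 2) / Real.log 2 ≤ s / Real.log 2 := div_le_div_of_nonneg_right (by linarith) hl2.le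
      have k4 := int_log_le s s y (by linarith) hs2 le_rfl hys
      rw [hls] at k4
      have k5 := i4 (y - s) (by linarith) (by linarith)
      have k6 : ((y : ℝ) - s) / L ≤ y / L := div_le_div_of_nonneg_right (by linarith) hL0.le
      linarith
  rw [abs_le]
  constructor <;> linarith

end Pool.Agent.U845.QR
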