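import Mathlib
import Pool.Agent.U845.QR9
import Pool.Agent.U845.QR10
import Pool.Agent.Results.MP_391708_nt.FullConstantInClasses

/-! The asymptotic formula with the constant of Hardy and Littlewood. -/

set_option autoImplicit false

namespace Pool.Agent.U845.QR

open Finset Filter Topology
open Pool.Agent.H373R2.T7 (pz Vz lamz mem_pz Vz_pos lamz_nonneg nuB PerB)
open Pool.Agent.Results.MP_391708_nt.FullConstantInClasses (product IsConstant theta Good exceptions)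

lemma theta_near (N : ℕ) (a : ℤ) (y : ℕ) (hy : y ≤ N) :
    |theta a y - 2 * Real.log N * Sw (fun _ => 1) a y| ≤ E1 N a := by
  have h1 : theta a y - 2 * Real.log N * Sw (fun _ => 1) a y =
      ∑ n ∈ Icc 1 y, (if ((n : ℤ) ^ 2 + a).natAbs.Prime then
        (ArithmeticFunction.vonMangoldt ((n : ℤ) ^ 2 + a).natAbs - 2 * Real.log N) else 0) := by
    unfold theta Sw
    rw [sum_filter, mul_sum, ← sum_sub_distrib]
    refine sum_congr rfl fun n _ => ?_
    split_ifs with h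
    · rw [ArithmeticFunction.vonMangoldt_apply_prime h]
      ring
    · ring
  rw [h1]
  refine (abs_sum_le_sum_abs _ _).trans ?_
  have h2 : ∑ n ∈ Icc 1 y, |if ((n : ℤ) ^ 2 + a).natAbs.Prime then
        (ArithmeticFunction.vonMangoldt ((n : ℤ) ^ 2 + a).natAbs - 2 * Real.log N) else 0| ≤
      ∑ n ∈ Icc 1 y, lp N ((n : ℤ) ^ 2 + a).natAbs := by
    refine sum_le_sum fun n _ => ?_
    unfold lp
    split_ifs
    · exact le_rfl
    · rw [abs_zero]
      exact abs_nonneg _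
  refine h2.trans ?_
  unfold E1
  apply sum_le_sum_of_subset_of_nonneg
  · exact Icc_subset_Icc_right hy
  · intro _ _ _
    exact lp_nonneg _ _

open Classical in
/-- the lower bound for almost all `a` -/
theorem low (e : ℝ) (he : 0 < e) : ∃ c : ℝ, 0 < c ∧ c ≤ 1 ∧ ∃ N0 : ℕ, ∀ N : ℕ, N0 ≤ N →
    ∃ Ex : Finset ℤ, Ex ⊆ Icc (-((N ^ 2 : ℕ) : ℤ)) ((N ^ 2 : ℕ) : ℤ) ∧ (Ex.card : ℝ) ≤ e * (N : ℝ) ^ 2 ∧
    ∀ a ∈ Icc (-((N ^ 2 : ℕ) : ℤ)) ((N ^ 2 : ℕ) : ℤ), a ∉ Ex → c * N ≤ 2 * Real.log N * Sw (fun _ => 1) a N := by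
  obtain ⟨z1, hz1⟩ := Vz_small (e / (2 * 1656 * 64)) (by positivity) 2
  obtain ⟨z, hz⟩ : ∃ z : ℕ, z = z1 + 5 := ⟨_, rfl⟩
  have hzV := hz1 z (by omega)
  have hz3 : (5 : ℝ) ≤ z := by exact_mod_cast (by omega : 5 ≤ z)
  obtain ⟨V, hV⟩ : ∃ V : ℝ, V = (Vz z)⁻¹ := ⟨_, rfl⟩
  have hV1 : 1 ≤ V := by rw [hV]; exact Vz_inv_ge_one z
  obtain ⟨m1, h1⟩ := l2_fix 0 z (by omega)
  obtain ⟨m2, h2⟩ := E1_avg (e / (32 * V)) (by positivity)
  obtain ⟨m3, h3⟩ := model_low z (by omega)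
  refine ⟨1 / (4 * V), by positivity, ?_, m1 + m2 + m3 + 1, fun N hN => ?_⟩
  · rw [div_le_one (by positivity)]
    linarith
  have hN1 : 1 ≤ N := by omega
  have hNr : (1 : ℝ) ≤ N := by exact_mod_cast hN1
  have hN0 : (0 : ℝ) < N := by linarith
  have hN2N : N ≤ N ^ 2 := by nlinarith
  obtain ⟨t, ht⟩ : ∃ t : ℝ, t = N / (8 * V) := ⟨_, rfl⟩
  obtain ⟨s, hs⟩ : ∃ s : ℝ, s = N / (16 * V) := ⟨_, rfl⟩
  have ht0 : 0 < t := by rw [ht]; positivity
  have hs0 : 0 < s := by rw [hs]; positivity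
  obtain ⟨A, hA⟩ : ∃ A : Finset ℤ, A = Icc (-((N ^ 2 : ℕ) : ℤ)) ((N ^ 2 : ℕ) : ℤ) := ⟨_, rfl⟩
  have hz1' : (0 : ℝ) < (z : ℝ) - 1 := by linarith
  have c1 : ((A.filter (fun a => t < |Rw z (fun _ => 1) a N|)).card : ℝ) ≤
      1656 * ((N : ℝ) ^ 2 * N ^ 2 / ((z : ℝ) - 1)) / t ^ 2 := by
    apply markov A (fun a => Rw z (fun _ => 1) a N) _ t ht0
    have k1 := h1 (N ^ 2) (by omega) N (by push_cast; rw [pow_zero, mul_one]) (by push_cast; rw [pow_zero, mul_one])
      (fun _ => 1) (fun n => by simp)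
    push_cast at k1
    refine le_trans (le_of_eq ?_) k1
    rw [hA]
    push_cast
    rfl
  have c3 : ((A.filter (fun a => s < E1 N a)).card : ℝ) ≤ e / (32 * V) * (N : ℝ) ^ 3 / s := by
    apply markov1 A (fun a => E1 N a) (fun a => sum_nonneg fun _ _ => lp_nonneg _ _) _ s hs0
    rw [hA]
    exact h2 N (by omega)
  have c4 : e / (32 * V) * (N : ℝ) ^ 3 / s = e / 2 * (N : ℝ) ^ 2 := by
    rw [hs]
    field_simp
    ring
  have c5 : 1656 * ((N : ℝ) ^ 2 * N ^ 2 / ((z : ℝ) - 1)) / t ^ 2 ≤ e / 2 * (N : ℝ) ^ 2 := by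
    have e1 : 1656 * ((N : ℝ) ^ 2 * N ^ 2 / ((z : ℝ) - 1)) / t ^ 2 = (1656 * 64 * V ^ 2 / ((z : ℝ) - 1)) * (N : ℝ) ^ 2 := by
      rw [ht]
      field_simp
      ring
    rw [e1]
    apply mul_le_mul_of_nonneg_right _ (by positivity)
    rw [div_le_iff₀ hz1']
    rw [← hV] at hzV
    have := mul_le_mul_of_nonneg_left hzV (by norm_num : (0 : ℝ) ≤ 1656 * 64)
    have e4 : (1656 * 64 : ℝ) * (e / (2 * 1656 * 64) * ((z : ℝ) - 1)) = e / 2 * ((z : ℝ) - 1) := by
      field_simp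
    rw [e4] at this
    exact this
  refine ⟨A.filter (fun a => t < |Rw z (fun _ => 1) a N|) ∪ A.filter (fun a => s < E1 N a), ?_, ?_, ?_⟩
  · rw [← hA]
    exact union_subset (filter_subset _ _) (filter_subset _ _)
  · have c6 : ((A.filter (fun a => t < |Rw z (fun _ => 1) a N|) ∪ A.filter (fun a => s < E1 N a)).card : ℝ) ≤
        ((A.filter (fun a => t < |Rw z (fun _ => 1) a N|)).card : ℝ) + ((A.filter (fun a => s < E1 N a)).card : ℝ) := by
      exact_mod_cast card_union_le _ _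
    linarith
  · intro a ha hex
    rw [← hA] at ha
    rw [mem_union, mem_filter, mem_filter] at hex
    push Not at hex
    have y1 := hex.1 ha
    have y2 := hex.2 ha
    have g1 := main_split z N (fun _ => 1) (fun _ => by simp) a N le_rfl
    have g2 := h3 N (by omega) a
    rw [← hV] at g2
    have g3 := (abs_le.1 g1).1
    have g4 : (N : ℝ) / (2 * V) - N / (8 * V) - N / (16 * V) ≥ 1 / (4 * V) * N := by
      have : (N : ℝ) / (2 * V) - N / (8 * V) - N / (16 * V) - 1 / (4 * V) * N = N / (16 * V) := by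
        field_simp
        ring
      have h5 : (0 : ℝ) ≤ N / (16 * V) := by positivity
      linarith
    rw [ht] at y1
    rw [hs] at y2
    linarith

lemma mean_le (w : ℕ → ℝ) (hw : ∀ n, |w n| ≤ 1) (δ : ℝ) (hm : MeanCl w δ) : |δ| ≤ 1 := by
  have h1 := hm 1 le_rfl 0
  rw [Nat.cast_one, div_one] at h1
  have h2 := h1.abs
  apply le_of_tendsto h2
  filter_upwards [eventually_ge_atTop 1] with N hN
  have hNr : (0 : ℝ) < N := by exact_mod_cast hN
  rw [abs_div, abs_of_pos hNr, div_le_one hNr]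
  refine (abs_sum_le_sum_abs _ _).trans ?_
  calc ∑ n ∈ (Icc 1 N).filter (fun n => n ≡ 0 [MOD 1]), |w n| ≤ ∑ n ∈ (Icc 1 N).filter (fun n => n ≡ 0 [MOD 1]), (1 : ℝ) :=
        sum_le_sum fun n _ => hw n
    _ ≤ ∑ n ∈ Icc 1 N, (1 : ℝ) := sum_le_sum_of_subset_of_nonneg (filter_subset _ _) (fun _ _ _ => zero_le_one)
    _ = N := by rw [sum_const, Nat.card_Icc, Nat.add_sub_cancel, nsmul_eq_mul, mul_one]

open Classical in
/-- **The asymptotic formula.** -/
theorem asym (w : ℕ → ℝ) (hw : ∀ n, |w n| ≤ 1) (δ : ℝ) (hm : MeanCl w δ) (ε : ℝ) (hε : 0 < ε) :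
    ∃ N0 : ℕ, ∀ N : ℕ, N0 ≤ N →
    ∃ Ex : Finset ℤ, Ex ⊆ Icc (-((N ^ 2 : ℕ) : ℤ)) ((N ^ 2 : ℕ) : ℤ) ∧ (Ex.card : ℝ) ≤ ε * (N : ℝ) ^ 2 ∧
    ∀ a ∈ Icc (-((N ^ 2 : ℕ) : ℤ)) ((N ^ 2 : ℕ) : ℤ), a ∉ Ex → ∃ H : ℝ, 0 < H ∧ IsConstant a H ∧
      ∀ y : ℕ, 2 ≤ y → y ≤ N → |Sw w a y - δ * (1 / 2 * H * ∫ t in (2 : ℝ)..(y : ℝ), 1 / Real.log t)| ≤
        ε * (1 / 2 * H * ∫ t in (2 : ℝ)..(N : ℝ), 1 / Real.log t) := by
  obtain ⟨e, he⟩ : ∃ e : ℝ, e = min ε 1 := ⟨_, rfl⟩
  have he0 : 0 < e := by rw [he]; exact lt_min hε one_pos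
  have he1 : e ≤ 1 := by rw [he]; exact min_le_right _ _
  have heε : e ≤ ε := by rw [he]; exact min_le_left _ _
  have hδ := mean_le w hw δ hm
  obtain ⟨c, hc0, hc1, m1, h1⟩ := low (e / 4) (by positivity)
  obtain ⟨x, hx⟩ : ∃ x : ℝ, x = e * c / 32 := ⟨_, rfl⟩
  have hx0 : 0 < x := by rw [hx]; positivity
  have hxe : x ≤ e / 32 := by
    rw [hx]
    have : e * c ≤ e * 1 := mul_le_mul_of_nonneg_left hc1 he0.le
    linarith
  have hxc : x ≤ c / 32 := by
    rw [hx]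
    have : e * c ≤ 1 * c := mul_le_mul_of_nonneg_right he1 hc0.le
    linarith
  obtain ⟨z, hz⟩ := weights x hx0
  obtain ⟨m2, h2⟩ := hz z le_rfl
  obtain ⟨m3, h3⟩ := cls w hw δ hm z x hx0
  obtain ⟨m4, h4⟩ := Pool.Agent.Results.MP_391708_nt.FullConstantInClasses.result (1 / 4) (by norm_num) 1 1 1
  obtain ⟨V, hV⟩ : ∃ V : ℝ, V = (Vz z)⁻¹ := ⟨_, rfl⟩
  have hV1 : 1 ≤ V := by rw [hV]; exact Vz_inv_ge_one z
  obtain ⟨m5, h5⟩ := int_approx (min (1 / 2) (x / (V + 1))) (by positivity)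
  obtain ⟨m6, h6⟩ := Pool.Agent.H373R2.T7.ev_L' (max (1 / x) (max 1 (4 / e)))
  refine ⟨m1 + m2 + m3 + m4 + m5 + m6 + 2, fun N hN => ?_⟩
  have hN2 : 2 ≤ N := by omega
  have hNr : (2 : ℝ) ≤ N := by exact_mod_cast hN2
  have hN0 : (0 : ℝ) < N := by linarith
  have hNN : N ≤ N ^ 2 := by nlinarith
  obtain ⟨L, hL⟩ : ∃ L : ℝ, L = Real.log N := ⟨_, rfl⟩
  have hLx : 1 / x ≤ L := by rw [hL]; exact (le_max_left _ _).trans (h6 N (by omega))
  have hL1 : 1 ≤ L := by rw [hL]; exact (le_max_left _ _).trans ((le_max_right _ _).trans (h6 N (by omega)))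
  have hLe : 4 / e ≤ L := by rw [hL]; exact (le_max_right _ _).trans ((le_max_right _ _).trans (h6 N (by omega)))
  have hL0 : 0 < L := by linarith
  obtain ⟨E1', i1, i2, i3⟩ := h1 N (by omega)
  obtain ⟨E2, j1, j2, j3⟩ := h2 N (by omega) w hw
  obtain ⟨E3, k1, k2, k3⟩ := h2 N (by omega) (fun _ => 1) (fun _ => by simp)
  have hf := h4 (N ^ 2) (by omega) 1 le_rfl (by
      rw [Nat.cast_one]
      exact Real.one_le_rpow (by exact_mod_cast Nat.one_le_pow _ _ (by omega)) (by norm_num))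
    (by
      have : Real.log ((N ^ 2 : ℕ) : ℝ) = 2 * L := by
        push_cast
        rw [Real.log_pow, hL]
        push_cast
        ring
      rw [this]
      simp
      linarith) 0 (by
      have : Real.log ((N ^ 2 : ℕ) : ℝ) = 2 * L := by
        push_cast
        rw [Real.log_pow, hL]
        push_cast
        ring
      rw [this]
      simp
      linarith)
  obtain ⟨E4, hE4⟩ : ∃ E4 : Finset ℤ, E4 = (Icc (-((N ^ 2 : ℕ) : ℤ)) ((N ^ 2 : ℕ) : ℤ)).filter
      (fun a : ℤ => a ≡ 0 [ZMOD (1 : ℕ)] ∧ ¬ Good 1 (N ^ 2) a) := ⟨_, rfl⟩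
  have hlog2 : Real.log ((N ^ 2 : ℕ) : ℝ) = 2 * L := by
    push_cast
    rw [Real.log_pow, hL]
    push_cast
    ring
  have l2 : (E4.card : ℝ) ≤ e / 4 * (N : ℝ) ^ 2 := by
    have e1 : (E4.card : ℝ) = (exceptions 1 (N ^ 2) 1 0 : ℝ) := by
      rw [hE4]
      unfold exceptions
      congr
    rw [e1]
    refine hf.trans ?_
    rw [hlog2, Nat.cast_one, pow_one, one_mul]
    push_cast
    rw [div_le_iff₀ (by positivity)]
    rw [div_le_iff₀ he0] at hLe
    nlinarith [sq_nonneg (N : ℝ)]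
  refine ⟨E1' ∪ E2 ∪ E3 ∪ E4, ?_, ?_, ?_⟩
  · rw [hE4]
    exact union_subset (union_subset (union_subset i1 j1) k1) (filter_subset _ _)
  · have c1 : ((E1' ∪ E2 ∪ E3 ∪ E4).card : ℝ) ≤ (E1'.card : ℝ) + E2.card + E3.card + E4.card := by
      have d1 := card_union_le (E1' ∪ E2 ∪ E3) E4
      have d2 := card_union_le (E1' ∪ E2) E3
      have d3 := card_union_le E1' E2
      have d4 : (E1' ∪ E2 ∪ E3 ∪ E4).card ≤ E1'.card + E2.card + E3.card + E4.card := by omega
      exact_mod_cast d4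
    have c2 : x * (N : ℝ) ^ 2 ≤ e / 32 * (N : ℝ) ^ 2 := mul_le_mul_of_nonneg_right hxe (by positivity)
    have c3 : e * (N : ℝ) ^ 2 ≤ ε * (N : ℝ) ^ 2 := mul_le_mul_of_nonneg_right heε (by positivity)
    have c4 : 0 ≤ e * (N : ℝ) ^ 2 := by positivity
    linarith
  · intro a ha hex
    rw [mem_union, mem_union, mem_union] at hex
    push Not at hex
    obtain ⟨⟨⟨b1, b2⟩, b3⟩, b4⟩ := hex
    have a1 := i3 a ha b1
    obtain ⟨_, a2⟩ := j3 a ha b2
    obtain ⟨a3, a4⟩ := k3 a ha b3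
    have hgood : Good 1 (N ^ 2) a := by
      by_contra hcon
      apply b4
      rw [hE4, mem_filter]
      refine ⟨ha, ?_, hcon⟩
      exact Int.modEq_one
    obtain ⟨_, H, hH, hth⟩ := hgood
    -- `theta`
    have t1 : ∀ y ≤ N, |theta a y - H * y| ≤ x * N := by
      intro y hy
      refine (hth y (Nat.pow_le_pow_left hy 2)).trans ?_
      rw [hlog2, pow_one]
      push_cast
      rw [Real.sqrt_sq hN0.le, div_le_iff₀ (by positivity)]
      rw [div_le_iff₀ hx0] at hLx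
      nlinarith
    have t2 : ∀ y ≤ N, |2 * L * Sw (fun _ => 1) a y - H * y| ≤ 2 * x * N := by
      intro y hy
      have u1 := theta_near N a y hy
      have u2 := t1 y hy
      rw [← hL] at u1
      have u3 := abs_le.1 u1
      have u4 := abs_le.1 u2
      rw [abs_le]
      constructor <;> linarith [u3.1, u3.2, u4.1, u4.2]
    have t3 : ∀ y ≤ N, |2 * L * Sw w a y - δ * (H * y)| ≤ 5 * x * N := by
      intro y hy
      have u1 := (a2 y hy).2
      have u2 := (a4 y hy).2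
      have u3 := h3 N (by omega) a y hy
      have u4 := t2 y hy
      rw [← hL] at u1 u2
      have u5 : 2 * L * Sw w a y - δ * (H * y) = (2 * L * Sw w a y - Mw z w a y) + (Mw z w a y - δ * Mw z (fun _ => 1) a y) -
          δ * (2 * L * Sw (fun _ => 1) a y - Mw z (fun _ => 1) a y) + δ * (2 * L * Sw (fun _ => 1) a y - H * y) := by ring
      rw [u5]
      have v1 : |δ * (2 * L * Sw (fun _ => 1) a y - Mw z (fun _ => 1) a y)| ≤ x * N := by
        rw [abs_mul]
        calc _ ≤ 1 * |2 * L * Sw (fun _ => 1) a y - Mw z (fun _ => 1) a y| := mul_le_mul_of_nonneg_right hδ (abs_nonneg _)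
          _ ≤ _ := by rw [one_mul]; exact u2
      have v2 : |δ * (2 * L * Sw (fun _ => 1) a y - H * y)| ≤ 2 * x * N := by
        rw [abs_mul]
        calc _ ≤ 1 * |2 * L * Sw (fun _ => 1) a y - H * y| := mul_le_mul_of_nonneg_right hδ (abs_nonneg _)
          _ ≤ _ := by rw [one_mul]; exact u4
      have w1 := abs_le.1 v1
      have w2 := abs_le.1 v2
      have w3 := abs_le.1 u1
      have w4 := abs_le.1 u3
      rw [abs_le]
      constructor <;> linarith [w1.1, w1.2, w2.1, w2.2, w3.1, w3.2, w4.1, w4.2]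
    have hHlow : c / 2 ≤ H := by
      have u1 := (abs_le.1 (t2 N le_rfl)).2
      rw [← hL] at a1
      have u2 : c * N - 2 * x * N ≤ H * N := by linarith
      have u3 : (c - 2 * x) * N ≤ H * N := by linarith
      have u4 := le_of_mul_le_mul_right u3 hN0
      linarith
    have hH0 : 0 < H := by linarith
    have hHup : H ≤ V + 1 := by
      have u1 := (abs_le.1 (t2 N le_rfl)).1
      have u2 := (abs_le.1 (a4 N le_rfl).2).2
      rw [← hL] at u2
      have u3 : Mw z (fun _ => 1) a N ≤ V * N := by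
        unfold Mw
        calc ∑ n ∈ Icc 1 N, (1 : ℝ) * lamz z ((n : ℤ) ^ 2 + a).natAbs ≤ ∑ _n ∈ Icc 1 N, V := by
              refine sum_le_sum fun n _ => ?_
              rw [one_mul]
              unfold lamz
              split_ifs
              · rw [hV]
              · linarith
          _ = V * N := by
              rw [sum_const, Nat.card_Icc, Nat.add_sub_cancel, nsmul_eq_mul]
              ring
      have u4 : H * N ≤ (V + 3 * x) * N := by linarith
      have u5 := le_of_mul_le_mul_right u4 hN0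
      linarith
    refine ⟨H, hH0, hH, fun y hy2 hyN => ?_⟩
    have hyN' : (y : ℝ) ≤ N := by exact_mod_cast hyN
    have q1 := h5 N (by omega) y hy2 hyN
    have q2 := h5 N (by omega) N hN2 le_rfl
    rw [← hL] at q1 q2
    have hNL : 0 ≤ (N : ℝ) / L := by positivity
    have q3 : min (1 / 2) (x / (V + 1)) * (N / L) ≤ x / (V + 1) * (N / L) := mul_le_mul_of_nonneg_right (min_le_right _ _) hNL
    have q4 : min (1 / 2) (x / (V + 1)) * (N / L) ≤ 1 / 2 * (N / L) := mul_le_mul_of_nonneg_right (min_le_left _ _) hNL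
    obtain ⟨I, hI⟩ : ∃ I : ℝ, I = ∫ t in (2 : ℝ)..(y : ℝ), 1 / Real.log t := ⟨_, rfl⟩
    obtain ⟨J, hJ⟩ : ∃ J : ℝ, J = ∫ t in (2 : ℝ)..(N : ℝ), 1 / Real.log t := ⟨_, rfl⟩
    rw [← hI] at q1 ⊢
    rw [← hJ] at q2 ⊢
    have r1 : N / L / 2 ≤ J := by
      have := (abs_le.1 q2).1
      linarith
    have r2 : |I - y / L| ≤ x / (V + 1) * (N / L) := q1.trans q3
    have r3 : |δ * (1 / 2 * H * I) - δ * (1 / 2 * H * (y / L))| ≤ x * (N / L) := by
      have : δ * (1 / 2 * H * I) - δ * (1 / 2 * H * (y / L)) = δ * (1 / 2 * H * (I - y / L)) := by ring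
      rw [this, abs_mul, abs_mul, abs_of_pos (by linarith : (0 : ℝ) < 1 / 2 * H)]
      calc |δ| * (1 / 2 * H * |I - y / L|) ≤ 1 * (1 / 2 * H * |I - y / L|) := mul_le_mul_of_nonneg_right hδ (by positivity)
        _ ≤ 1 * ((V + 1) * (x / (V + 1) * (N / L))) := by
            apply mul_le_mul_of_nonneg_left _ zero_le_one
            apply mul_le_mul _ r2 (abs_nonneg _) (by linarith)
            linarith
        _ = x * (N / L) := by
            have : V + 1 ≠ 0 := by linarith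
            field_simp
    have r4 : |Sw w a y - δ * (1 / 2 * H * (y / L))| ≤ 5 / 2 * x * (N / L) := by
      have u1 := t3 y hyN
      have u2 : Sw w a y - δ * (1 / 2 * H * (y / L)) = (2 * L * Sw w a y - δ * (H * y)) / (2 * L) := by
        field_simp
      rw [u2, abs_div, abs_of_pos (by linarith : (0 : ℝ) < 2 * L), div_le_iff₀ (by linarith)]
      refine u1.trans (le_of_eq ?_)
      field_simp
    have r5 : |Sw w a y - δ * (1 / 2 * H * I)| ≤ 4 * x * (N / L) := by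
      have w1 := abs_le.1 r3
      have w2 := abs_le.1 r4
      have w3 : 0 ≤ x * (N / L) := by positivity
      rw [abs_le]
      constructor <;> linarith [w1.1, w1.2, w2.1, w2.2]
    refine r5.trans ?_
    have r6 : 4 * x * (N / L) = e * (c / 8 * (N / L)) := by rw [hx]; ring
    rw [r6]
    have r7 : c / 8 * (N / L) ≤ 1 / 2 * H * J := by
      have : c / 4 * (N / L / 2) ≤ 1 / 2 * H * J := by
        apply mul_le_mul _ r1 (by positivity) (by positivity)
        linarith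
      linarith
    have r8 : 0 ≤ 1 / 2 * H * J := le_trans (by positivity) r7
    calc e * (c / 8 * (N / L)) ≤ e * (1 / 2 * H * J) := mul_le_mul_of_nonneg_left r7 he0.le
      _ ≤ ε * (1 / 2 * H * J) := mul_le_mul_of_nonneg_right heε r8

end Pool.Agent.U845.QR
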