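import Mathlib
import Pool.Agent.U845.QR11

/-! The asymptotic formula for arbitrary weights. -/

set_option autoImplicit false

namespace Pool.Agent.U845.QR

open Finset Filter Topology
open Pool.Agent.H373R2.T7 (pz Vz lamz mem_pz Vz_pos lamz_nonneg nuB PerB)
open Pool.Agent.Results.MP_391708_nt.FullConstantInClasses (product IsConstant theta Good exceptions)

/-- the sum of the weights over the `n ≤ y` for which `n² + a` has no prime factor `≤ z` -/
noncomputable def RW (z : ℕ) (w : ℕ → ℝ) (a : ℤ) (y : ℕ) : ℝ :=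
  ∑ n ∈ (Icc 1 y).filter (fun n : ℕ => ∀ p ∈ pz z, ¬ (p : ℤ) ∣ (n : ℤ) ^ 2 + a), w n

lemma Mw_eq (z : ℕ) (w : ℕ → ℝ) (a : ℤ) (y : ℕ) : Mw z w a y = (Vz z)⁻¹ * RW z w a y := by
  unfold Mw RW
  rw [sum_filter, mul_sum]
  refine sum_congr rfl fun n _ => ?_
  rw [lamz_eq]
  split_ifs <;> ring

lemma RW_le (z : ℕ) (w : ℕ → ℝ) (hw : ∀ n, |w n| ≤ 1) (a : ℤ) (y N : ℕ) (hy : y ≤ N) :
    |RW z w a y| ≤ RW z (fun _ => 1) a N := by
  unfold RW
  refine (abs_sum_le_sum_abs _ _).trans ?_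
  refine (sum_le_sum fun n _ => hw n).trans ?_
  apply sum_le_sum_of_subset_of_nonneg
  · intro n hn
    rw [mem_filter, mem_Icc] at hn ⊢
    exact ⟨⟨hn.1.1, hn.1.2.trans hy⟩, hn.2⟩
  · intro _ _ _
    exact zero_le_one

open Classical in
/-- **The asymptotic formula for arbitrary weights.** -/
theorem asymA (ε : ℝ) (hε : 0 < ε) :
    ∃ z0 : ℕ, ∀ z : ℕ, z0 ≤ z → ∃ N0 : ℕ, ∀ N : ℕ, N0 ≤ N → ∀ w : ℕ → ℝ, (∀ n, |w n| ≤ 1) →
    ∃ Ex : Finset ℤ, Ex ⊆ Icc (-((N ^ 2 : ℕ) : ℤ)) ((N ^ 2 : ℕ) : ℤ) ∧ (Ex.card : ℝ) ≤ ε * (N : ℝ) ^ 2 ∧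
    ∀ a ∈ Icc (-((N ^ 2 : ℕ) : ℤ)) ((N ^ 2 : ℕ) : ℤ), a ∉ Ex → ∃ H : ℝ, 0 < H ∧ IsConstant a H ∧
      0 < RW z (fun _ => 1) a N ∧
      ∀ y : ℕ, y ≤ N → |Sw w a y - (1 / 2 * H * ∫ t in (2 : ℝ)..(N : ℝ), 1 / Real.log t) *
        (RW z w a y / RW z (fun _ => 1) a N)| ≤
        ε * (1 / 2 * H * ∫ t in (2 : ℝ)..(N : ℝ), 1 / Real.log t) := by
  obtain ⟨e, he⟩ : ∃ e : ℝ, e = min ε 1 := ⟨_, rfl⟩
  have he0 : 0 < e := by rw [he]; exact lt_min hε one_pos
  have he1 : e ≤ 1 := by rw [he]; exact min_le_right _ _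
  have heε : e ≤ ε := by rw [he]; exact min_le_left _ _
  obtain ⟨c, hc0, hc1, m1, h1⟩ := low (e / 4) (by positivity)
  obtain ⟨x, hx⟩ : ∃ x : ℝ, x = e * c / 32 := ⟨_, rfl⟩
  have hx0 : 0 < x := by rw [hx]; positivity
  have hxe : x ≤ e / 32 := by
    rw [hx]
    have : e * c ≤ e * 1 := mul_le_mul_of_nonneg_left hc1 he0.le
    linarith
  have hxc : x ≤ c / 32 := by
    rw [hx]
    have : e * c ≤ 1 * c := mul_le_mul_of_nonneg_right he1 hc0.le
    linarith
  obtain ⟨z0, hz⟩ := weights x hx0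
  refine ⟨z0, fun z hzz => ?_⟩
  obtain ⟨m2, h2⟩ := hz z hzz
  obtain ⟨m4, h4⟩ := Pool.Agent.Results.MP_391708_nt.FullConstantInClasses.result (1 / 4) (by norm_num) 1 1 1
  obtain ⟨V, hV⟩ : ∃ V : ℝ, V = (Vz z)⁻¹ := ⟨_, rfl⟩
  have hV1 : 1 ≤ V := by rw [hV]; exact Vz_inv_ge_one z
  obtain ⟨m5, h5⟩ := int_approx (min (1 / 2) (x / (V + 1))) (by positivity)
  obtain ⟨m6, h6⟩ := Pool.Agent.H373R2.T7.ev_L' (max (1 / x) (max 1 (4 / e)))
  refine ⟨m1 + m2 + m4 + m5 + m6 + 2, fun N hN w hw => ?_⟩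
  have hN2 : 2 ≤ N := by omega
  have hNr : (2 : ℝ) ≤ N := by exact_mod_cast hN2
  have hN0 : (0 : ℝ) < N := by linarith
  have hNN : N ≤ N ^ 2 := by nlinarith
  obtain ⟨L, hL⟩ : ∃ L : ℝ, L = Real.log N := ⟨_, rfl⟩
  have hLx : 1 / x ≤ L := by rw [hL]; exact (le_max_left _ _).trans (h6 N (by omega))
  have hL1 : 1 ≤ L := by rw [hL]; exact (le_max_left _ _).trans ((le_max_right _ _).trans (h6 N (by omega)))
  have hLe : 4 / e ≤ L := by rw [hL]; exact (le_max_right _ _).trans ((le_max_right _ _).trans (h6 N (by omega)))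
  have hL0 : 0 < L := by linarith
  obtain ⟨E1', i1, i2, i3⟩ := h1 N (by omega)
  obtain ⟨E2, j1, j2, j3⟩ := h2 N (by omega) w hw
  obtain ⟨E3, k1, k2, k3⟩ := h2 N (by omega) (fun _ => 1) (fun _ => by simp)
  have hf := h4 (N ^ 2) (by omega) 1 le_rfl (by
      rw [Nat.cast_one]
      exact Real.one_le_rpow (by exact_mod_cast Nat.one_le_pow _ _ (by omega)) (by norm_num))
    (by
      have : Real.log ((N ^ 2 : ℕ) : ℝ) = 2 * L := by
        push_cast
        rw [Real.log_pow, hL]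
        push_cast
        ring
      rw [this]
      simp
      linarith) 0 (by
      have : Real.log ((N ^ 2 : ℕ) : ℝ) = 2 * L := by
        push_cast
        rw [Real.log_pow, hL]
        push_cast
        ring
      rw [this]
      simp
      linarith)
  obtain ⟨E4, hE4⟩ : ∃ E4 : Finset ℤ, E4 = (Icc (-((N ^ 2 : ℕ) : ℤ)) ((N ^ 2 : ℕ) : ℤ)).filter
      (fun a : ℤ => a ≡ 0 [ZMOD (1 : ℕ)] ∧ ¬ Good 1 (N ^ 2) a) := ⟨_, rfl⟩
  have hlog2 : Real.log ((N ^ 2 : ℕ) : ℝ) = 2 * L := by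
    push_cast
    rw [Real.log_pow, hL]
    push_cast
    ring
  have l2 : (E4.card : ℝ) ≤ e / 4 * (N : ℝ) ^ 2 := by
    have e1 : (E4.card : ℝ) = (exceptions 1 (N ^ 2) 1 0 : ℝ) := by
      rw [hE4]
      unfold exceptions
      congr
    rw [e1]
    refine hf.trans ?_
    rw [hlog2, Nat.cast_one, pow_one, one_mul]
    push_cast
    rw [div_le_iff₀ (by positivity)]
    rw [div_le_iff₀ he0] at hLe
    nlinarith [sq_nonneg (N : ℝ)]
  refine ⟨E1' ∪ E2 ∪ E3 ∪ E4, ?_, ?_, ?_⟩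
  · rw [hE4]
    exact union_subset (union_subset (union_subset i1 j1) k1) (filter_subset _ _)
  · have c1 : ((E1' ∪ E2 ∪ E3 ∪ E4).card : ℝ) ≤ (E1'.card : ℝ) + E2.card + E3.card + E4.card := by
      have d1 := card_union_le (E1' ∪ E2 ∪ E3) E4
      have d2 := card_union_le (E1' ∪ E2) E3
      have d3 := card_union_le E1' E2
      have d4 : (E1' ∪ E2 ∪ E3 ∪ E4).card ≤ E1'.card + E2.card + E3.card + E4.card := by omega
      exact_mod_cast d4
    have c2 : x * (N : ℝ) ^ 2 ≤ e / 32 * (N : ℝ) ^ 2 := mul_le_mul_of_nonneg_right hxe (by positivity)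
    have c3 : e * (N : ℝ) ^ 2 ≤ ε * (N : ℝ) ^ 2 := mul_le_mul_of_nonneg_right heε (by positivity)
    have c4 : 0 ≤ e * (N : ℝ) ^ 2 := by positivity
    linarith
  · intro a ha hex
    rw [mem_union, mem_union, mem_union] at hex
    push Not at hex
    obtain ⟨⟨⟨b1, b2⟩, b3⟩, b4⟩ := hex
    have a1 := i3 a ha b1
    obtain ⟨_, a2⟩ := j3 a ha b2
    obtain ⟨a3, a4⟩ := k3 a ha b3
    have hgood : Good 1 (N ^ 2) a := by
      by_contra hcon
      apply b4
      rw [hE4, mem_filter]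
      refine ⟨ha, ?_, hcon⟩
      exact Int.modEq_one
    obtain ⟨_, H, hH, hth⟩ := hgood
    -- `theta`
    have t1 : |theta a N - H * N| ≤ x * N := by
      refine (hth N le_rfl).trans ?_
      rw [hlog2, pow_one]
      push_cast
      rw [Real.sqrt_sq hN0.le, div_le_iff₀ (by positivity)]
      rw [div_le_iff₀ hx0] at hLx
      nlinarith
    have t2 : |2 * L * Sw (fun _ => 1) a N - H * N| ≤ 2 * x * N := by
      have u1 := theta_near N a N le_rfl
      rw [← hL] at u1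
      have u3 := abs_le.1 u1
      have u4 := abs_le.1 t1
      rw [abs_le]
      constructor <;> linarith [u3.1, u3.2, u4.1, u4.2]
    obtain ⟨M, hM⟩ : ∃ M : ℝ, M = Mw z (fun _ => 1) a N := ⟨_, rfl⟩
    have t3 : |M - H * N| ≤ 3 * x * N := by
      have u2 := (a4 N le_rfl).2
      rw [← hL, ← hM] at u2
      have u3 := abs_le.1 u2
      have u4 := abs_le.1 t2
      rw [abs_le]
      constructor <;> linarith [u3.1, u3.2, u4.1, u4.2]
    have hHlow : c / 2 ≤ H := by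
      have u1 := (abs_le.1 t2).2
      rw [← hL] at a1
      have u3 : (c - 2 * x) * N ≤ H * N := by linarith
      have u4 := le_of_mul_le_mul_right u3 hN0
      linarith
    have hH0 : 0 < H := by linarith
    have hM0 : 0 < M := by
      have u1 := (abs_le.1 t3).1
      have u2 : c / 2 * N ≤ H * N := mul_le_mul_of_nonneg_right hHlow hN0.le
      have u3 : 3 * x * N ≤ 3 * (c / 32) * N := by
        apply mul_le_mul_of_nonneg_right _ hN0.le
        linarith
      have u4 : 0 < c * N := by positivity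
      linarith
    have hMR : M = V * RW z (fun _ => 1) a N := by rw [hM, hV, Mw_eq]
    have hR0 : 0 < RW z (fun _ => 1) a N := by
      rw [hMR] at hM0
      exact (pos_iff_pos_of_mul_pos hM0).1 (by linarith)
    have hHup : H ≤ V + 1 := by
      have u1 := (abs_le.1 t3).1
      have u3 : M ≤ V * N := by
        rw [hMR]
        apply mul_le_mul_of_nonneg_left _ (by linarith)
        unfold RW
        rw [sum_const, nsmul_eq_mul, mul_one]
        have : ((Icc 1 N).filter (fun n : ℕ => ∀ p ∈ pz z, ¬ (p : ℤ) ∣ (n : ℤ) ^ 2 + a)).card ≤ N := by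
          refine (card_filter_le _ _).trans ?_
          rw [Nat.card_Icc, Nat.add_sub_cancel]
        exact_mod_cast this
      have u4 : H * N ≤ (V + 3 * x) * N := by linarith
      have u5 := le_of_mul_le_mul_right u4 hN0
      linarith
    refine ⟨H, hH0, hH, hR0, fun y hyN => ?_⟩
    have q2 := h5 N (by omega) N hN2 le_rfl
    rw [← hL] at q2
    have hNL : 0 ≤ (N : ℝ) / L := by positivity
    have q3 : min (1 / 2) (x / (V + 1)) * (N / L) ≤ x / (V + 1) * (N / L) := mul_le_mul_of_nonneg_right (min_le_right _ _) hNL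
    have q4 : min (1 / 2) (x / (V + 1)) * (N / L) ≤ 1 / 2 * (N / L) := mul_le_mul_of_nonneg_right (min_le_left _ _) hNL
    obtain ⟨J, hJ⟩ : ∃ J : ℝ, J = ∫ t in (2 : ℝ)..(N : ℝ), 1 / Real.log t := ⟨_, rfl⟩
    rw [← hJ] at q2 ⊢
    have r1 : N / L / 2 ≤ J := by
      have := (abs_le.1 q2).1
      linarith
    have r2 : |J - N / L| ≤ x / (V + 1) * (N / L) := q2.trans q3
    -- the ratio
    obtain ⟨ρ, hρ⟩ : ∃ ρ : ℝ, ρ = RW z w a y / RW z (fun _ => 1) a N := ⟨_, rfl⟩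
    rw [← hρ]
    have hρ1 : |ρ| ≤ 1 := by
      rw [hρ, abs_div, abs_of_pos hR0, div_le_one hR0]
      exact RW_le z w hw a y N hyN
    have hρM : Mw z w a y = ρ * M := by
      rw [Mw_eq, hρ, hMR, hV]
      field_simp
    have r3 : |1 / 2 * H * J * ρ - 1 / 2 * H * (N / L) * ρ| ≤ x * (N / L) := by
      have : 1 / 2 * H * J * ρ - 1 / 2 * H * (N / L) * ρ = ρ * (1 / 2 * H * (J - N / L)) := by ring
      rw [this, abs_mul, abs_mul, abs_of_pos (by linarith : (0 : ℝ) < 1 / 2 * H)]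
      calc |ρ| * (1 / 2 * H * |J - N / L|) ≤ 1 * (1 / 2 * H * |J - N / L|) := mul_le_mul_of_nonneg_right hρ1 (by positivity)
        _ ≤ 1 * ((V + 1) * (x / (V + 1) * (N / L))) := by
            apply mul_le_mul_of_nonneg_left _ zero_le_one
            apply mul_le_mul _ r2 (abs_nonneg _) (by linarith)
            linarith
        _ = x * (N / L) := by
            have : V + 1 ≠ 0 := by linarith
            field_simp
    have r4 : |Sw w a y - 1 / 2 * H * (N / L) * ρ| ≤ 2 * x * (N / L) := by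
      have u1 := (a2 y hyN).2
      rw [← hL, hρM] at u1
      have u2 : Sw w a y - 1 / 2 * H * (N / L) * ρ = ((2 * L * Sw w a y - ρ * M) + ρ * (M - H * N)) / (2 * L) := by
        field_simp
        ring
      rw [u2, abs_div, abs_of_pos (by linarith : (0 : ℝ) < 2 * L), div_le_iff₀ (by linarith)]
      have u3 : |ρ * (M - H * N)| ≤ 3 * x * N := by
        rw [abs_mul]
        calc |ρ| * |M - H * N| ≤ 1 * |M - H * N| := mul_le_mul_of_nonneg_right hρ1 (abs_nonneg _)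
          _ ≤ _ := by rw [one_mul]; exact t3
      refine (abs_add_le _ _).trans ?_
      have u4 : 2 * x * (N / L) * (2 * L) = 4 * x * N := by field_simp; ring
      rw [u4]
      linarith
    have r5 : |Sw w a y - 1 / 2 * H * J * ρ| ≤ 4 * x * (N / L) := by
      have w1 := abs_le.1 r3
      have w2 := abs_le.1 r4
      have w3 : 0 ≤ x * (N / L) := by positivity
      rw [abs_le]
      constructor <;> linarith [w1.1, w1.2, w2.1, w2.2]
    refine r5.trans ?_
    have r6 : 4 * x * (N / L) = e * (c / 8 * (N / L)) := by rw [hx]; ring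
    rw [r6]
    have r7 : c / 8 * (N / L) ≤ 1 / 2 * H * J := by
      have : c / 4 * (N / L / 2) ≤ 1 / 2 * H * J := by
        apply mul_le_mul _ r1 (by positivity) (by positivity)
        linarith
      linarith
    have r8 : 0 ≤ 1 / 2 * H * J := le_trans (by positivity) r7
    calc e * (c / 8 * (N / L)) ≤ e * (1 / 2 * H * J) := mul_le_mul_of_nonneg_left r7 he0.le
      _ ≤ ε * (1 / 2 * H * J) := mul_le_mul_of_nonneg_right heε r8

end Pool.Agent.U845.QR
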